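import Pool.Agent.MP_c5bf7b_nt.H98.Spec
import Pool.Agent.MP_c5bf7b_nt.H98.MRootA

/-! Lower bounds of Mertens type for the roots of an irreducible polynomial. -/

set_option autoImplicit false

namespace Pool.Agent.MP_c5bf7b_nt.H98

open Finset Polynomial NumberField Filter Topology

namespace MR

/-- Chebyshev's bound for the Dirichlet series of `log p`. -/
theorem log_sum {ε : ℝ} (h0 : 0 < ε) (h1 : ε ≤ 1) (S : Finset ℕ) (hS : ∀ p ∈ S, p.Prime) :
    ε * ∑ p ∈ S, Real.log p * (p : ℝ) ^ (-(1 + ε)) ≤ 8 := by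
  have l0 : 0 < Real.log 2 := Real.log_pos one_lt_two
  have l1 : Real.log 2 ≤ 1 := by linarith [Real.log_two_lt_d9]
  have l4 : Real.log 4 = 2 * Real.log 2 := by
    rw [show (4 : ℝ) = 2 ^ 2 by norm_num, Real.log_pow]; norm_num
  set q : ℝ := (2 : ℝ) ^ (-ε) with hq
  have q0 : 0 < q := by positivity
  have t0 : 0 < ε * Real.log 2 := mul_pos h0 l0
  have t1 : ε * Real.log 2 ≤ 1 := by nlinarith
  have q1 : q ≤ 1 - ε * Real.log 2 / 2 := by
    have e1 : q * Real.exp (ε * Real.log 2) = 1 := by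
      rw [hq, Real.rpow_def_of_pos two_pos, ← Real.exp_add, ← Real.exp_zero]
      congr 1
      ring
    have e2 := Real.add_one_le_exp (ε * Real.log 2)
    have e3 : q * (ε * Real.log 2 + 1) ≤ 1 := by nlinarith
    nlinarith
  have q2 : q < 1 := by linarith
  have blk : ∀ k : ℕ, ∑ p ∈ S with Nat.log 2 p = k, Real.log p * (p : ℝ) ^ (-(1 + ε)) ≤
      4 * Real.log 2 * q ^ k := by
    intro k
    have b1 : ∑ p ∈ S with Nat.log 2 p = k, Real.log p ≤ Real.log 4 * (2 : ℝ) ^ (k + 1) := by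
      refine le_trans ?_ (Chebyshev.theta_le_log4_mul_x (x := (2 : ℝ) ^ (k + 1)) (by positivity))
      refine sum_le_sum_of_subset_of_nonneg (fun p hp => ?_) fun p _ _ => Real.log_natCast_nonneg p
      obtain ⟨hp, e⟩ := mem_filter.1 hp
      refine mem_filter.2 ⟨mem_Ioc.2 ⟨(hS p hp).pos, Nat.le_floor ?_⟩, hS p hp⟩
      exact_mod_cast (e ▸ Nat.lt_pow_succ_log_self one_lt_two p).le
    have b2 : ∀ p ∈ S.filter (fun p => Nat.log 2 p = k),
        Real.log p * (p : ℝ) ^ (-(1 + ε)) ≤ Real.log p * (((2 : ℝ) ^ k)⁻¹ * q ^ k) := by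
      intro p hp
      obtain ⟨hp, e⟩ := mem_filter.1 hp
      refine mul_le_mul_of_nonneg_left ?_ (Real.log_natCast_nonneg p)
      have c1 : (2 : ℝ) ^ k ≤ p := by
        exact_mod_cast e ▸ Nat.pow_log_le_self 2 (hS p hp).ne_zero
      refine (Real.rpow_le_rpow_of_nonpos (by positivity) c1 (by linarith)).trans (le_of_eq ?_)
      rw [neg_add, Real.rpow_add (by positivity), Real.rpow_neg_one, hq,
        Real.rpow_pow_comm zero_le_two]
    refine (sum_le_sum b2).trans ?_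
    rw [← sum_mul]
    refine (mul_le_mul_of_nonneg_right b1 (by positivity)).trans (le_of_eq ?_)
    rw [l4]
    field_simp
    ring
  have tot : ∑ p ∈ S, Real.log p * (p : ℝ) ^ (-(1 + ε)) ≤ 4 * Real.log 2 * (1 - q)⁻¹ := by
    rw [← sum_fiberwise_of_maps_to (g := fun p => Nat.log 2 p) (fun p hp => mem_image_of_mem _ hp)]
    refine (sum_le_sum fun k _ => blk k).trans ?_
    rw [← mul_sum, ← tsum_geometric_of_lt_one q0.le q2]
    exact mul_le_mul_of_nonneg_left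
      ((summable_geometric_of_lt_one q0.le q2).sum_le_tsum _ fun _ _ => by positivity)
      (by positivity)
  have i1 : (1 - q)⁻¹ ≤ (ε * Real.log 2 / 2)⁻¹ := inv_anti₀ (by positivity) (by linarith)
  have i2 : ε * (4 * Real.log 2 * (ε * Real.log 2 / 2)⁻¹) = 8 := by
    field_simp
    norm_num
  refine le_trans (mul_le_mul_of_nonneg_left (tot.trans ?_) h0.le) i2.le
  exact mul_le_mul_of_nonneg_left i1 (by positivity)

/-- The partial sums. -/
noncomputable def F (r : ℕ → ℕ) (y : ℝ) : ℝ :=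
  ∑ p ∈ (Ioc 0 ⌊y⌋₊).filter Nat.Prime, (r p : ℝ) / p

theorem F_sub (r : ℕ → ℕ) {a b : ℝ} (hab : a ≤ b) :
    F r b - F r a = ∑ p ∈ (Ioc ⌊a⌋₊ ⌊b⌋₊).filter Nat.Prime, (r p : ℝ) / p := by
  simp only [F, sum_filter]
  rw [← sum_Ioc_consecutive _ (Nat.zero_le ⌊a⌋₊) (Nat.floor_le_floor hab)]
  ring

theorem F_mono (r : ℕ → ℕ) {a b : ℝ} (hab : a ≤ b) : F r a ≤ F r b := by
  have := F_sub r hab
  have h : 0 ≤ ∑ p ∈ (Ioc ⌊a⌋₊ ⌊b⌋₊).filter Nat.Prime, (r p : ℝ) / p :=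
    sum_nonneg fun _ _ => by positivity
  linarith

theorem tend : Tendsto (fun y : ℝ => 1 + (Real.log y)⁻¹) atTop (𝓝[>] 1) := by
  refine tendsto_nhdsWithin_iff.2 ⟨?_, ?_⟩
  · simpa using (Real.tendsto_log_atTop.inv_tendsto_atTop).const_add 1
  · filter_upwards [eventually_gt_atTop 1] with y hy
    have := Real.log_pos hy
    simp only [Set.mem_Ioi, lt_add_iff_pos_right]
    positivity

theorem large (r : ℕ → ℕ) (d : ℕ) (hd : ∀ p : ℕ, p.Prime → r p ≤ d)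
    (lo : ∃ C : ℝ, ∀ᶠ x : ℝ in 𝓝[>] 1, ∃ S : Finset ℕ, (∀ p ∈ S, p.Prime) ∧
      -Real.log (x - 1) - C ≤ ∑ p ∈ S, r p * (p : ℝ) ^ (-x))
    (up : ∃ C : ℝ, ∀ᶠ x : ℝ in 𝓝[>] 1, ∀ S : Finset ℕ, (∀ p ∈ S, p.Prime) →
      ∑ p ∈ S, r p * (p : ℝ) ^ (-x) ≤ C - Real.log (x - 1)) :
    ∃ C : ℝ, ∀ᶠ y : ℝ in atTop, |F r y - Real.log (Real.log y)| ≤ C := by
  obtain ⟨C1, lo⟩ := lo
  obtain ⟨C2, up⟩ := up
  refine ⟨max (C1 + 8 * d) (C2 + 24 * d), ?_⟩
  filter_upwards [tend.eventually lo, tend.eventually up, eventually_ge_atTop 3] with y h1 h2 hy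
  have ly : 1 ≤ Real.log y := by
    rw [Real.le_log_iff_exp_le (by linarith)]
    linarith [Real.exp_one_lt_d9]
  set ε := (Real.log y)⁻¹ with hε
  have e0 : 0 < ε := by positivity
  have e1 : ε ≤ 1 := inv_le_one_of_one_le₀ ly
  have e2 : ε * Real.log y = 1 := inv_mul_cancel₀ (by linarith)
  have e3 : Real.log (1 + ε - 1) = -Real.log (Real.log y) := by
    rw [add_sub_cancel_left, hε, Real.log_inv]
  rw [e3] at h1 h2
  have hdr : ∀ p : ℕ, p.Prime → (r p : ℝ) ≤ d := fun p hp => by exact_mod_cast hd p hp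
  have pw : ∀ p : ℕ, p.Prime → (p : ℝ)⁻¹ = (p : ℝ) ^ (-(1 + ε)) * Real.exp (ε * Real.log p) := by
    intro p hp
    have p0 : (0 : ℝ) < p := by exact_mod_cast hp.pos
    rw [Real.rpow_def_of_pos p0, ← Real.exp_add, ← Real.exp_log (inv_pos.2 p0), Real.log_inv]
    congr 1
    ring
  rw [abs_le]
  constructor
  · obtain ⟨S, hS, h1⟩ := h1
    have a1 := log_sum e0 e1 S hS
    have a2 : ∑ p ∈ S, r p * (p : ℝ) ^ (-(1 + ε)) ≤
        ∑ p ∈ S, ((if (p : ℝ) ≤ y then (r p : ℝ) / p else 0) +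
          d * (ε * (Real.log p * (p : ℝ) ^ (-(1 + ε))))) := by
      refine sum_le_sum fun p hp => ?_
      have b0 : 0 ≤ (p : ℝ) ^ (-(1 + ε)) := by positivity
      have b1 := Real.log_natCast_nonneg p
      split_ifs with c
      · have b2 : (p : ℝ) ^ (-(1 + ε)) ≤ (p : ℝ)⁻¹ := by
          rw [pw p (hS p hp)]
          exact le_mul_of_one_le_right b0 (Real.one_le_exp (by positivity))
        have b3 : (r p : ℝ) * (p : ℝ) ^ (-(1 + ε)) ≤ r p / p :=
          mul_le_mul_of_nonneg_left b2 (Nat.cast_nonneg _)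
        have b4 : 0 ≤ (d : ℝ) * (ε * (Real.log p * (p : ℝ) ^ (-(1 + ε)))) := by positivity
        linarith
      · have b2 : 1 ≤ ε * Real.log p := e2.ge.trans (mul_le_mul_of_nonneg_left
          (Real.log_le_log (by linarith) (not_le.1 c).le) e0.le)
        rw [zero_add, ← mul_assoc ε]
        exact mul_le_mul (hdr p (hS p hp)) (le_mul_of_one_le_left b0 b2) b0 (Nat.cast_nonneg _)
    rw [sum_add_distrib, ← mul_sum, ← mul_sum, ← sum_filter] at a2
    have a3 : ∑ p ∈ S.filter (fun p : ℕ => (p : ℝ) ≤ y), (r p : ℝ) / p ≤ F r y := by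
      refine sum_le_sum_of_subset_of_nonneg (fun p hp => ?_) fun _ _ _ => by positivity
      obtain ⟨hp, c⟩ := mem_filter.1 hp
      exact mem_filter.2 ⟨mem_Ioc.2 ⟨(hS p hp).pos, Nat.le_floor c⟩, hS p hp⟩
    have a4 := mul_le_mul_of_nonneg_left a1 (Nat.cast_nonneg d : (0 : ℝ) ≤ d)
    linarith [le_max_left (C1 + 8 * d) (C2 + 24 * d)]
  · have hS : ∀ p ∈ (Ioc 0 ⌊y⌋₊).filter Nat.Prime, p.Prime := fun p hp => (mem_filter.1 hp).2
    have a1 := log_sum e0 e1 _ hS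
    have a0 := h2 _ hS
    have a2 : F r y ≤ ∑ p ∈ (Ioc 0 ⌊y⌋₊).filter Nat.Prime, (r p * (p : ℝ) ^ (-(1 + ε)) +
        3 * d * (ε * (Real.log p * (p : ℝ) ^ (-(1 + ε))))) := by
      refine sum_le_sum fun p hp => ?_
      have b0 : 0 ≤ (p : ℝ) ^ (-(1 + ε)) := by positivity
      have b1 := Real.log_natCast_nonneg p
      have p0 : (0 : ℝ) < p := by exact_mod_cast (hS p hp).pos
      have c : (p : ℝ) ≤ y :=
        (Nat.le_floor_iff (by linarith)).1 (mem_Ioc.1 (mem_filter.1 hp).1).2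
      have b2 : ε * Real.log p ≤ 1 :=
        (mul_le_mul_of_nonneg_left (Real.log_le_log p0 c) e0.le).trans e2.le
      have b3 : 0 ≤ ε * Real.log p := by positivity
      have b4 : Real.exp (ε * Real.log p) ≤ 1 + 3 * (ε * Real.log p) := by
        have := (abs_le.1 (Real.abs_exp_sub_one_le (x := ε * Real.log p)
          (by rwa [abs_of_nonneg b3]))).2
        rw [abs_of_nonneg b3] at this
        linarith
      rw [div_eq_mul_inv, pw p (hS p hp), ← mul_assoc ε]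
      have b5 := mul_le_mul_of_nonneg_left b4 b0
      have b6 := mul_le_mul_of_nonneg_left b5 (Nat.cast_nonneg (r p) : (0 : ℝ) ≤ r p)
      have b7 := mul_le_mul_of_nonneg_right (hdr p (hS p hp)) (mul_nonneg b3 b0)
      nlinarith
    rw [sum_add_distrib, ← mul_sum, ← mul_sum] at a2
    have a4 := mul_le_mul_of_nonneg_left a1 (Nat.cast_nonneg d : (0 : ℝ) ≤ d)
    linarith [le_max_right (C1 + 8 * d) (C2 + 24 * d)]

theorem mlow_of_large (r : ℕ → ℕ)
    (h : ∃ C : ℝ, ∀ᶠ y : ℝ in atTop, |F r y - Real.log (Real.log y)| ≤ C) :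
    ∃ C0 : ℝ, MLow r C0 := by
  obtain ⟨C, h⟩ := h
  obtain ⟨Y, hY⟩ := eventually_atTop.1 (h.and (eventually_ge_atTop 2))
  have l0 : 0 < Real.log 2 := Real.log_pos one_lt_two
  have mono : ∀ a b : ℝ, 2 ≤ a → a ≤ b → Real.log (Real.log a) ≤ Real.log (Real.log b) :=
    fun a b ha hab => Real.log_le_log (Real.log_pos (by linarith))
      (Real.log_le_log (by linarith) hab)
  have hY2 := (hY Y le_rfl).2
  have hYY := abs_le.1 (hY Y le_rfl).1
  have F0 : ∀ y, 0 ≤ F r y := fun y => sum_nonneg fun _ _ => by positivity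
  have all : ∀ y : ℝ, 2 ≤ y → |F r y - Real.log (Real.log y)| ≤
      |C| + |Real.log (Real.log Y)| + |Real.log (Real.log 2)| := by
    intro y hy
    have n1 := le_abs_self C
    have n2 := le_abs_self (Real.log (Real.log Y))
    have n3 := neg_abs_le (Real.log (Real.log 2))
    have n4 := abs_nonneg C
    have n5 := abs_nonneg (Real.log (Real.log Y))
    have n6 := abs_nonneg (Real.log (Real.log 2))
    rcases le_total Y y with c | c
    · linarith [(hY y c).1]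
    · have m1 := mono y Y hy c
      have m2 := mono 2 y le_rfl hy
      have m3 := F_mono r c
      rw [abs_le]
      constructor <;> linarith [F0 y, hYY.2]
  refine ⟨2 * (|C| + |Real.log (Real.log Y)| + |Real.log (Real.log 2)|), fun a b ha hab => ?_⟩
  rw [← F_sub r hab, Real.log_div (Real.log_pos (by linarith)).ne' (Real.log_pos (by linarith)).ne']
  linarith [(abs_le.1 (all a ha)).2, (abs_le.1 (all b (ha.trans hab))).1]

theorem mlow_mono {r ρ : ℕ → ℕ} {d m : ℕ} {C : ℝ} (h : MLow r C) (hm : m ≠ 0)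
    (hd : ∀ p : ℕ, p.Prime → r p ≤ d) (hle : ∀ p : ℕ, p.Prime → ¬p ∣ m → r p ≤ ρ p) :
    MLow ρ (C + d * m.primeFactors.card) := by
  intro a b ha hab
  have h1 := h a b ha hab
  have h2 : ∑ p ∈ (Ioc ⌊a⌋₊ ⌊b⌋₊).filter Nat.Prime, (r p : ℝ) / p ≤
      ∑ p ∈ (Ioc ⌊a⌋₊ ⌊b⌋₊).filter Nat.Prime,
        ((ρ p : ℝ) / p + if p ∈ m.primeFactors then (d : ℝ) else 0) := by
    refine sum_le_sum fun p hp => ?_
    have pp := (mem_filter.1 hp).2
    split_ifs with c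
    · have b1 : (r p : ℝ) / p ≤ d :=
        (div_le_self (Nat.cast_nonneg _) (Nat.one_le_cast.2 pp.pos)).trans
          (Nat.cast_le.2 (hd p pp))
      have b2 : (0 : ℝ) ≤ ρ p / p := by positivity
      linarith
    · rw [add_zero]
      exact div_le_div_of_nonneg_right (Nat.cast_le.2 (hle p pp fun c' =>
        c (Nat.mem_primeFactors.2 ⟨pp, c', hm⟩))) (Nat.cast_nonneg _)
  rw [sum_add_distrib, ← sum_filter, sum_const, nsmul_eq_mul, mul_comm] at h2
  have h3 : ((((Ioc ⌊a⌋₊ ⌊b⌋₊).filter Nat.Prime).filter fun p => p ∈ m.primeFactors).card : ℝ) ≤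
      m.primeFactors.card := Nat.cast_le.2 (card_le_card fun p hp => (mem_filter.1 hp).2)
  have h4 := mul_le_mul_of_nonneg_left h3 (Nat.cast_nonneg d : (0 : ℝ) ≤ d)
  linarith

section field

variable (K : Type) [Field K] [NumberField K]

open Classical in
/-- The maximal ideals of norm `p`. -/
noncomputable def T (p : ℕ) : Finset (Ideal (𝓞 K)) :=
  (Ideal.finite_setOfPred_absNorm_eq (S := 𝓞 K) p).toFinset.filter Ideal.IsMaximal

theorem mem_T {p : ℕ} {P : Ideal (𝓞 K)} : P ∈ T K p ↔ Ideal.absNorm P = p ∧ P.IsMaximal := by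
  simp [T]

theorem T_le {p : ℕ} (hp : p.Prime) : (T K p).card ≤ Module.finrank ℤ (𝓞 K) :=
  DensK.card_le K hp _ fun P hP => by
    obtain ⟨e, h⟩ := (mem_T K).1 hP
    exact ⟨h, e ▸ Ideal.absNorm_mem P, e.ge⟩

theorem sum_T (S : Finset ℕ) (x : ℝ) [DecidableEq (Ideal (𝓞 K))] :
    ∑ P ∈ S.biUnion (T K), (Ideal.absNorm P : ℝ) ^ (-x) =
      ∑ p ∈ S, (T K p).card * (p : ℝ) ^ (-x) := by
  rw [sum_biUnion]
  · refine sum_congr rfl fun p _ => ?_
    rw [sum_congr rfl (g := fun _ => (p : ℝ) ^ (-x)) (fun P hP => by rw [((mem_T K).1 hP).1]),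
      sum_const, nsmul_eq_mul]
  · intro n _ m _ hnm
    exact disjoint_left.2 fun I h1 h2 => hnm (((mem_T K).1 h1).1.symm.trans ((mem_T K).1 h2).1)

theorem mlow_T : ∃ C0 : ℝ, MLow (fun p => (T K p).card) C0 := by
  classical
  refine mlow_of_large _ (large _ _ (fun p hp => T_le K hp) ?_ ?_)
  · obtain ⟨C, h⟩ := densK K
    refine ⟨C, h.mono fun x ⟨S, hS, h1⟩ => ⟨S.image Ideal.absNorm, fun p hp => ?_, ?_⟩⟩
    · obtain ⟨P, hP, rfl⟩ := mem_image.1 hp
      exact (hS P hP).2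
    · rw [← sum_T]
      refine h1.trans (sum_le_sum_of_subset_of_nonneg (fun P hP => ?_) fun _ _ _ => by positivity)
      exact mem_biUnion.2 ⟨_, mem_image_of_mem _ hP, (mem_T K).2 ⟨rfl, (hS P hP).1⟩⟩
  · obtain ⟨C, h⟩ := densUp K
    refine ⟨C, h.mono fun x h1 S _ => ?_⟩
    rw [← sum_T]
    refine h1 _ fun P hP => ?_
    obtain ⟨p, -, hP⟩ := mem_biUnion.1 hP
    exact ((mem_T K).1 hP).2

variable {K}

theorem dvd_of_mem {p : ℕ} (hp : p.Prime) {P : Ideal (𝓞 K)} (hP : P ∈ T K p) {n : ℤ}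
    (hn : (n : 𝓞 K) ∈ P) : (p : ℤ) ∣ n := by
  obtain ⟨e, h⟩ := (mem_T K).1 hP
  by_contra c
  obtain ⟨u, v, huv⟩ := (Nat.prime_iff_prime_int.1 hp).irreducible.coprime_iff_not_dvd.2 c
  refine h.ne_top ((Ideal.eq_top_iff_one _).2 ?_)
  have : (1 : 𝓞 K) = u * p + v * n := by exact_mod_cast congrArg (Int.cast : ℤ → 𝓞 K) huv.symm
  rw [this]
  exact P.add_mem (P.mul_mem_left _ (e ▸ Ideal.absNorm_mem P)) (P.mul_mem_left _ hn)

theorem mem_of_dvd {p : ℕ} {P : Ideal (𝓞 K)} (hP : P ∈ T K p) {n : ℤ} (hn : (p : ℤ) ∣ n) :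
    (n : 𝓞 K) ∈ P := by
  obtain ⟨c, rfl⟩ := hn
  push_cast
  exact P.mul_mem_right _ (((mem_T K).1 hP).1 ▸ Ideal.absNorm_mem P)

theorem ex_res {p : ℕ} (hp : p.Prime) {P : Ideal (𝓞 K)} (hP : P ∈ T K p) {a : ℤ}
    (ha : ¬(p : ℤ) ∣ a) (t : 𝓞 K) : ∃ x : ℕ, x < p ∧ t - ((a * x : ℤ) : 𝓞 K) ∈ P := by
  have := Fact.mk hp
  have hc : Nat.card (𝓞 K ⧸ P) = p := by
    rw [← ((mem_T K).1 hP).1, Ideal.absNorm_apply, Submodule.cardQuot_apply]
  have h0 : Ideal.Quotient.mk P (a : 𝓞 K) ≠ 0 := fun c =>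
    ha (dvd_of_mem hp hP (Ideal.Quotient.eq_zero_iff_mem.1 c))
  obtain ⟨k, hk⟩ := AddSubgroup.mem_zmultiples_iff.1
    (mem_zmultiples_of_prime_card hc h0 (g' := Ideal.Quotient.mk P t))
  have p0 : (0 : ℤ) < p := by exact_mod_cast hp.pos
  have k0 := Int.emod_nonneg k p0.ne'
  have k1 := Int.emod_lt_of_pos k p0
  refine ⟨(k % p).toNat, by omega, ?_⟩
  have h1 : t - ((a * k : ℤ) : 𝓞 K) ∈ P := by
    rw [← Ideal.Quotient.eq, ← hk, zsmul_eq_mul]
    simp [mul_comm]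
  have h2 : ((a * k - a * (k % p) : ℤ) : 𝓞 K) ∈ P :=
    mem_of_dvd hP (by rw [← mul_sub]; exact (Int.dvd_self_sub_emod).mul_left a)
  have := P.add_mem h1 h2
  rw [Int.toNat_of_nonneg k0]
  push_cast at this ⊢
  simpa using this

omit [NumberField K] in
theorem aeval_sub_mem {P : Ideal (𝓞 K)} {t : 𝓞 K} {n : ℤ} (h : t - (n : 𝓞 K) ∈ P) (f : ℤ[X]) :
    aeval t f - ((f.eval n : ℤ) : 𝓞 K) ∈ P := by
  have e : ((f.eval n : ℤ) : 𝓞 K) = aeval (n : 𝓞 K) f :=
    (aeval_algebraMap_apply_eq_algebraMap_eval (A := 𝓞 K) n f).symm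
  rw [e]
  exact Ideal.mem_of_dvd _ (by
    simpa only [aeval_def, eval₂_eq_eval_map] using sub_dvd_eval_sub t n (f.map (algebraMap _ _))) h

theorem T_le_roots {g : ℤ[X]} {a m : ℤ} {t : 𝓞 K} (ht : aeval t (g.scaleRoots a) = 0)
    (hm : ∀ z : 𝓞 K, ∃ f : ℤ[X], (m : 𝓞 K) * z = aeval t f) {p : ℕ} (hp : p.Prime)
    (ha : ¬(p : ℤ) ∣ a) (hpm : ¬(p : ℤ) ∣ m) : (T K p).card ≤ nroots g p := by
  choose! x h1 h2 using fun (P : Ideal (𝓞 K)) (hP : P ∈ T K p) => ex_res hp hP ha t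
  have pz := Nat.prime_iff_prime_int.1 hp
  refine card_le_card_of_injOn x (fun P hP => ?_) fun P hP Q hQ e => ?_
  · have hP : P ∈ T K p := hP
    refine mem_coe.2 (mem_filter.2 ⟨mem_range.2 (h1 P hP), ?_⟩)
    have h3 := aeval_sub_mem (h2 P hP) (g.scaleRoots a)
    rw [ht, zero_sub, neg_mem_iff, scaleRoots_eval_mul] at h3
    exact (pz.dvd_or_dvd (dvd_of_mem hp hP h3)).resolve_left fun c => ha (pz.dvd_of_dvd_pow c)
  · have hP : P ∈ T K p := hP
    have hQ : Q ∈ T K p := hQ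
    refine ((mem_T K).1 hP).2.eq_of_le ((mem_T K).1 hQ).2.ne_top fun z hz => ?_
    obtain ⟨f, hf⟩ := hm z
    have h3 := aeval_sub_mem (h2 P hP) f
    have h4 := aeval_sub_mem (h2 Q hQ) f
    rw [← e] at h4
    rw [← hf] at h3 h4
    have h5 := dvd_of_mem hp hP (by simpa using P.sub_mem (P.mul_mem_left (m : 𝓞 K) hz) h3)
    have h6 : (m : 𝓞 K) * z ∈ Q := by simpa using Q.add_mem h4 (mem_of_dvd hQ h5)
    exact (((mem_T K).1 hQ).2.isPrime.mem_or_mem h6).resolve_left fun c =>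
      hpm (dvd_of_mem hp hQ c)

theorem ex_den {t : 𝓞 K} (ht : ∀ z : K, ∃ q : ℚ[X], z = aeval (t : K) q) :
    ∃ m : ℤ, m ≠ 0 ∧ ∀ z : 𝓞 K, ∃ f : ℤ[X], (m : 𝓞 K) * z = aeval t f := by
  have one : ∀ z : 𝓞 K, ∃ m : ℤ, m ≠ 0 ∧ ∃ f : ℤ[X], (m : 𝓞 K) * z = aeval t f := by
    intro z
    obtain ⟨q, hq⟩ := ht z
    obtain ⟨b, hb, e⟩ := IsLocalization.integerNormalization_spec (nonZeroDivisors ℤ) q
    refine ⟨b, nonZeroDivisors.ne_zero hb,
      IsLocalization.integerNormalization (nonZeroDivisors ℤ) q, RingOfIntegers.coe_injective ?_⟩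
    have e1 := congrArg (aeval (t : K)) e
    rw [aeval_map_algebraMap, map_zsmul, ← hq, zsmul_eq_mul] at e1
    rw [← aeval_algebraMap_apply, map_mul, map_intCast]
    exact e1.symm
  choose μ hμ f hf using one
  obtain ⟨s, hs⟩ := Module.Finite.fg_top (R := ℤ) (M := 𝓞 K)
  refine ⟨∏ z ∈ s, μ z, prod_ne_zero_iff.2 fun z _ => hμ z, fun z => ?_⟩
  have hz : z ∈ Submodule.span ℤ (s : Set (𝓞 K)) := hs ▸ Submodule.mem_top
  induction hz using Submodule.span_induction with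
  | mem z hz =>
    obtain ⟨c, hc⟩ := dvd_prod_of_mem μ (mem_coe.1 hz)
    refine ⟨C c * f z, ?_⟩
    rw [hc, map_mul, aeval_C, ← hf, eq_intCast]
    push_cast
    ring
  | zero => exact ⟨0, by simp⟩
  | add u v _ _ hu hv =>
    obtain ⟨f1, h1⟩ := hu
    obtain ⟨f2, h2⟩ := hv
    exact ⟨f1 + f2, by rw [mul_add, h1, h2, map_add]⟩
  | smul c u _ hu =>
    obtain ⟨f1, h1⟩ := hu
    refine ⟨C c * f1, ?_⟩
    rw [map_mul, aeval_C, ← h1, eq_intCast, zsmul_eq_mul]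
    ring

end field

end MR

open MR in
theorem mertRoot : MertRootStmt := by
  intro g hg
  have := Fact.mk hg
  let K := AdjoinRoot (g.map (Int.castRingHom ℚ))
  let θ : K := AdjoinRoot.root (g.map (Int.castRingHom ℚ))
  have hθ : aeval θ g = 0 := by
    have h := AdjoinRoot.aeval_eq (f := g.map (Int.castRingHom ℚ)) (g.map (Int.castRingHom ℚ))
    rw [AdjoinRoot.mk_self] at h
    exact (aeval_map_algebraMap ℚ θ g).symm.trans h
  have g0 : g ≠ 0 := fun c => hg.ne_zero (by rw [c, Polynomial.map_zero])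
  obtain ⟨a, a0, ha⟩ := IsAlgebraic.exists_integral_multiple (R := ℤ) (z := θ) ⟨g, g0, hθ⟩
  let t : 𝓞 K := ⟨a • θ, ha⟩
  have te : (t : K) = (a : K) * θ := zsmul_eq_mul θ a
  have ht : aeval t (g.scaleRoots a) = 0 := by
    refine RingOfIntegers.coe_injective ?_
    rw [← aeval_algebraMap_apply, map_zero]
    have := scaleRoots_aeval_eq_zero (r := a) hθ
    rwa [eq_intCast, ← te] at this
  have hq : ∀ z : K, ∃ q : ℚ[X], z = aeval (t : K) q := by
    intro z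
    obtain ⟨q, rfl⟩ := AdjoinRoot.mk_surjective z
    refine ⟨q.comp (C (a : ℚ)⁻¹ * X), ?_⟩
    have aK : (a : K) ≠ 0 := Int.cast_ne_zero.2 a0
    rw [aeval_comp, map_mul, aeval_C, aeval_X, te, map_inv₀, map_intCast,
      inv_mul_cancel_left₀ aK]
    exact (AdjoinRoot.aeval_eq q).symm
  obtain ⟨m, m0, hm⟩ := ex_den hq
  obtain ⟨C0, h⟩ := mlow_T K
  refine ⟨_, mlow_mono (m := (a * m).natAbs) h (Int.natAbs_ne_zero.2 (mul_ne_zero a0 m0))
    (fun p hp => T_le K hp) fun p hp c => T_le_roots ht hm hp (fun c' => c ?_) fun c' => c ?_⟩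
  · exact Int.natCast_dvd.1 (c'.mul_right m)
  · exact Int.natCast_dvd.1 (c'.mul_left a)

theorem mertOne : MertOneStmt := by
  obtain ⟨C0, h⟩ := mertRoot X (by rw [Polynomial.map_X]; exact irreducible_X)
  refine ⟨C0, fun a b ha hab => (h a b ha hab).trans (le_of_eq (sum_congr rfl fun p hp => ?_))⟩
  have pp := (mem_filter.1 hp).2
  have : nroots X p = 1 := by
    refine card_eq_one.2 ⟨0, ?_⟩
    ext x
    simp only [mem_filter, mem_range, eval_X, mem_singleton, Int.natCast_dvd_natCast]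
    exact ⟨fun c => Nat.eq_zero_of_dvd_of_lt c.2 c.1, fun c => c ▸ ⟨pp.pos, dvd_zero _⟩⟩
  rw [this]

end Pool.Agent.MP_c5bf7b_nt.H98
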