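import Pool.Agent.MP_c5bf7b_nt.H98.Spec

/-! Three small ingredients: resultants of translates, units in classes, the greedy step. -/

set_option autoImplicit false

namespace Pool.Agent.MP_c5bf7b_nt.H98

open Finset Polynomial

namespace SmallA

theorem eval_le (R : ℤ[X]) : ∃ C : ℕ, ∀ t : ℕ, 1 ≤ t → (R.eval (t : ℤ)).natAbs ≤ (t + 1) ^ C := by
  induction R using Polynomial.induction_on' with
  | add p q hp hq =>
    obtain ⟨a, ha⟩ := hp
    obtain ⟨b, hb⟩ := hq
    refine ⟨a + b + 1, fun t ht => ?_⟩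
    rw [eval_add]
    have h1 : (t + 1) ^ a ≤ (t + 1) ^ (a + b) := Nat.pow_le_pow_right (by omega) (by omega)
    have h2 : (t + 1) ^ b ≤ (t + 1) ^ (a + b) := Nat.pow_le_pow_right (by omega) (by omega)
    have h3 : (t + 1) ^ (a + b) * 2 ≤ (t + 1) ^ (a + b + 1) := by
      rw [pow_succ]; exact Nat.mul_le_mul_left _ (by omega)
    have h4 := Int.natAbs_add_le (p.eval (t : ℤ)) (q.eval (t : ℤ))
    have h5 := ha t ht
    have h6 := hb t ht
    omega
  | monomial n c =>
    refine ⟨c.natAbs + n, fun t ht => ?_⟩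
    rw [eval_monomial, Int.natAbs_mul, Int.natAbs_pow, Int.natAbs_natCast, pow_add]
    exact Nat.mul_le_mul (Nat.lt_pow_self (by omega)).le (Nat.pow_le_pow_left (by omega) _)

theorem copr (f : ℚ[X]) (hf : Irreducible f) (t : ℕ) (ht : 1 ≤ t) :
    IsCoprime f (taylor (t : ℚ) f) := by
  rw [hf.coprime_iff_not_dvd]
  intro h
  obtain ⟨α, hα⟩ := IsAlgClosed.exists_aeval_eq_zero ℂ f (degree_pos_of_irreducible hf).ne'
  have step : ∀ z : ℂ, aeval z f = 0 → aeval (z + t) f = 0 := fun z hz => by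
    have := aeval_eq_zero_of_dvd_aeval_eq_zero h hz
    rw [taylor_apply, aeval_comp] at this
    simpa using this
  have all : ∀ k : ℕ, aeval (α + k * t) f = 0 := fun k => by
    induction k with
    | zero => simpa using hα
    | succ k ih =>
      have := step _ ih
      rwa [show α + k * t + t = α + ((k + 1 : ℕ) : ℂ) * t by push_cast; ring] at this
  have ht0 : (t : ℂ) ≠ 0 := by exact_mod_cast (by omega : t ≠ 0)
  have h0 : f.map (algebraMap ℚ ℂ) = 0 := by
    refine eq_zero_of_infinite_isRoot _ (Set.infinite_of_injective_forall_mem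
      (f := fun k : ℕ => α + k * t) (fun a b hab => ?_) fun k => ?_)
    · exact_mod_cast mul_right_cancel₀ ht0 (add_left_cancel hab)
    · simpa [IsRoot, eval_map_algebraMap] using all k
  exact hf.ne_zero ((Polynomial.map_eq_zero_iff (algebraMap ℚ ℂ).injective).1 h0)

theorem sieve (x : ℕ) (S : Finset ℕ) : (∀ p ∈ S, p.Prime) → ∀ q c : ℕ, 0 < q → (∀ p ∈ S, ¬p ∣ q) →
    |(((range x).filter fun n => n % q = c % q ∧ ∀ p ∈ S, ¬p ∣ n).card : ℝ) -
      (x : ℝ) / q * ∏ p ∈ S, (1 - (p : ℝ)⁻¹)| ≤ 2 ^ S.card := by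
  induction S using Finset.induction_on with
  | empty =>
    intro _ q c hq _
    have h := Nat.count_modEq_card x hq c
    rw [Nat.count_eq_card_filter_range] at h
    have e : ((range x).filter fun n => n % q = c % q ∧ ∀ p ∈ (∅ : Finset ℕ), ¬p ∣ n) =
        (range x).filter fun n => n ≡ c [MOD q] := filter_congr fun n _ => by simp [Nat.ModEq]
    rw [e, h, prod_empty, card_empty, pow_zero, mul_one]
    have hq' : (0 : ℝ) < q := by exact_mod_cast hq
    have h1 : ((x / q : ℕ) : ℝ) ≤ x / q := Nat.cast_div_le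
    have h2 : (x : ℝ) / q < (x / q : ℕ) + 1 := by
      rw [div_lt_iff₀ hq']
      exact_mod_cast (by rw [mul_comm]; exact Nat.lt_mul_div_succ x hq : x < (x / q + 1) * q)
    rw [abs_le]
    split_ifs <;> push_cast <;> constructor <;> linarith
  | insert p S hp ih =>
    intro hS q c hq hd
    have pp := hS p (mem_insert_self _ _)
    have hS' : ∀ r ∈ S, r.Prime := fun r hr => hS r (mem_insert_of_mem hr)
    have co : Nat.Coprime q p := ((Nat.Prime.coprime_iff_not_dvd pp).2 (hd p (mem_insert_self _ _))).symm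
    obtain ⟨c', h1, h2⟩ := Nat.chineseRemainder co c 0
    have i1 := ih hS' q c hq fun r hr => hd r (mem_insert_of_mem hr)
    have i2 := ih hS' (q * p) c' (Nat.mul_pos hq pp.pos) fun r hr h => by
      rcases (Nat.Prime.dvd_mul (hS' r hr)).1 h with h | h
      · exact hd r (mem_insert_of_mem hr) h
      · exact hp (((Nat.prime_dvd_prime_iff_eq (hS' r hr) pp).1 h) ▸ hr)
    have e := card_filter_add_card_filter_not
      (s := (range x).filter fun n => n % q = c % q ∧ ∀ r ∈ S, ¬r ∣ n) (fun n => p ∣ n)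
    rw [filter_filter, filter_filter] at e
    have e1 : ((range x).filter fun n => (n % q = c % q ∧ ∀ r ∈ S, ¬r ∣ n) ∧ p ∣ n) =
        (range x).filter fun n => n % (q * p) = c' % (q * p) ∧ ∀ r ∈ S, ¬r ∣ n :=
      filter_congr fun n _ => by
        have k : n ≡ c' [MOD q * p] ↔ n ≡ c [MOD q] ∧ p ∣ n := by
          rw [← Nat.modEq_and_modEq_iff_modEq_mul co, ← Nat.modEq_zero_iff_dvd]
          exact ⟨fun h => ⟨h.1.trans h1, h.2.trans h2⟩,
            fun h => ⟨h.1.trans h1.symm, h.2.trans h2.symm⟩⟩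
        exact ⟨fun h => ⟨k.2 ⟨h.1.1, h.2⟩, h.1.2⟩, fun h => ⟨⟨(k.1 h.1).1, h.2⟩, (k.1 h.1).2⟩⟩
    have e2 : ((range x).filter fun n => (n % q = c % q ∧ ∀ r ∈ S, ¬r ∣ n) ∧ ¬p ∣ n) =
        (range x).filter fun n => n % q = c % q ∧ ∀ r ∈ insert p S, ¬r ∣ n :=
      filter_congr fun n _ => by rw [forall_mem_insert]; tauto
    rw [e1, e2] at e
    have e3 := congrArg (Nat.cast : ℕ → ℝ) e
    rw [Nat.cast_add] at e3
    rw [prod_insert hp, card_insert_of_notMem hp, pow_succ]
    have e4 : (x : ℝ) / q * ((1 - (p : ℝ)⁻¹) * ∏ r ∈ S, (1 - (r : ℝ)⁻¹)) =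
        (x : ℝ) / q * ∏ r ∈ S, (1 - (r : ℝ)⁻¹) - (x : ℝ) / (q * p : ℕ) * ∏ r ∈ S, (1 - (r : ℝ)⁻¹) := by
      push_cast; ring
    rw [e4, abs_le]
    rw [abs_le] at i1 i2
    constructor <;> linarith [i1.1, i1.2, i2.1, i2.2]

theorem avg (p ρ : ℕ) (hp : 0 < p) (H : Finset ℕ) (A : ℕ → Finset ℕ)
    (hA : ∀ h ∈ H, A h ⊆ range p ∧ (A h).card = ρ) :
    ∃ r < p, ((H.filter fun h => r ∉ A h).card : ℝ) ≤ H.card * (1 - (ρ : ℝ) / p) := by
  have hp' : (0 : ℝ) < p := by exact_mod_cast hp
  have e : ∑ r ∈ range p, ((H.filter fun h => r ∉ A h).card : ℝ) =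
      ∑ _r ∈ range p, (H.card : ℝ) * (1 - (ρ : ℝ) / p) := by
    simp only [card_filter, Nat.cast_sum]
    rw [sum_comm, sum_const, card_range, nsmul_eq_mul, sum_congr rfl (g := fun _ => (p : ℝ) - ρ),
      sum_const, nsmul_eq_mul]
    · field_simp
    · intro h hh
      rw [← Nat.cast_sum, ← card_filter, ← sdiff_eq_filter, card_sdiff_of_subset (hA h hh).1,
        Nat.cast_sub (card_le_card (hA h hh).1), card_range, (hA h hh).2]
  obtain ⟨r, hr, h⟩ := exists_le_of_sum_le (nonempty_range_iff.2 hp.ne') e.le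
  exact ⟨r, mem_range.1 hr, h⟩

end SmallA

theorem bad : BadStmt := by
  intro g hg
  obtain ⟨C, hC⟩ := SmallA.eval_le
    (resultant (g.map Polynomial.C) (taylor X (g.map Polynomial.C)) g.natDegree g.natDegree)
  refine ⟨C, fun t ht => ?_⟩
  have e : (resultant (g.map Polynomial.C) (taylor X (g.map Polynomial.C))
      g.natDegree g.natDegree).eval (t : ℤ) =
      resultant g (taylor (t : ℤ) g) g.natDegree g.natDegree := by
    have e0 : (g.map Polynomial.C).map (evalRingHom (t : ℤ)) = g := by ext; simp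
    rw [← coe_evalRingHom, ← resultant_map_map, map_taylor, e0, coe_evalRingHom, eval_X]
  have hd : (g.map (Int.castRingHom ℚ)).natDegree = g.natDegree :=
    natDegree_map_eq_of_injective (RingHom.injective_int _) g
  have hn : g.natDegree ≠ 0 := hd ▸ hg.natDegree_pos.ne'
  have ne : resultant g (taylor (t : ℤ) g) g.natDegree g.natDegree ≠ 0 := fun h => by
    have := resultant_ne_zero _ _ (SmallA.copr _ hg t ht)
    rw [natDegree_taylor, hd, show (t : ℚ) = Int.castRingHom ℚ (t : ℤ) by simp, ← map_taylor,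
      resultant_map_map, h] at this
    exact this (map_zero _)
  refine ⟨_, Int.natAbs_pos.2 ne, e ▸ hC t ht, fun p x h1 h2 => ?_⟩
  obtain ⟨u, v, -, -, h⟩ := exists_mul_add_mul_eq_C_resultant g (taylor (t : ℤ) g) le_rfl
    (natDegree_taylor g _).le (Or.inl hn)
  have := congrArg (eval x) h
  rw [eval_add, eval_mul, eval_mul, eval_C, taylor_eval] at this
  rw [← Int.natCast_dvd, ← this]
  exact (h1.mul_right _).add (h2.mul_right _)

theorem unit : UnitStmt := by
  intro k q c x hk hq co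
  have h := SmallA.sieve x k.primeFactors (fun p hp => Nat.prime_of_mem_primeFactors hp) q c hq
    fun p hp h => (Nat.prime_of_mem_primeFactors hp).one_lt.ne'
      (Nat.eq_one_of_dvd_coprimes co h (Nat.dvd_of_mem_primeFactors hp))
  have e : ((range x).filter fun n => n % q = c % q ∧ Nat.Coprime n k) =
      (range x).filter fun n => n % q = c % q ∧ ∀ p ∈ k.primeFactors, ¬p ∣ n :=
    filter_congr fun n _ => and_congr_right fun _ =>
      ⟨fun h p hp h' => (Nat.prime_of_mem_primeFactors hp).one_lt.ne'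
        (Nat.eq_one_of_dvd_coprimes h h' (Nat.dvd_of_mem_primeFactors hp)),
       fun h => Nat.coprime_of_dvd fun p pp h1 h2 => h p (pp.mem_primeFactors h2 hk.ne') h1⟩
  have t : (k.totient : ℝ) = k * ∏ p ∈ k.primeFactors, (1 - (p : ℝ)⁻¹) := by
    have := congrArg (Rat.cast : ℚ → ℝ) (Nat.totient_eq_mul_prod_factors k)
    push_cast at this
    exact this
  have hk' : (k : ℝ) ≠ 0 := by exact_mod_cast hk.ne'
  rw [e, t, show (x : ℝ) * (k * ∏ p ∈ k.primeFactors, (1 - (p : ℝ)⁻¹)) / (k * q) =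
    (x : ℝ) / q * ∏ p ∈ k.primeFactors, (1 - (p : ℝ)⁻¹) by field_simp]
  exact h

theorem greedy : GreedyStmt := by
  intro Q H ρ A
  rcases H.eq_empty_or_nonempty with rfl | ⟨h0, hh0⟩
  · intro _ _; exact ⟨0, by rw [filter_empty]; simp⟩
  induction Q using Finset.induction_on with
  | empty => intro _ _; exact ⟨0, by simp⟩
  | insert p Q hp ih =>
    intro hQ hA
    have pp := hQ p (mem_insert_self _ _)
    obtain ⟨a, ha⟩ := ih (fun r hr => hQ r (mem_insert_of_mem hr))
      fun r hr => hA r (mem_insert_of_mem hr)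
    obtain ⟨r, hr, h⟩ := SmallA.avg p (ρ p) pp.pos (H.filter fun h => ∀ r ∈ Q, a % r ∉ A r h) (A p)
      fun h hh => hA p (mem_insert_self _ _) h (mem_filter.1 hh).1
    have co : Nat.Coprime p (∏ s ∈ Q, s) := Nat.Coprime.prod_right fun s hs =>
      (Nat.coprime_primes pp (hQ s (mem_insert_of_mem hs))).2 fun e => hp (e ▸ hs)
    obtain ⟨b, h1, h2⟩ := Nat.chineseRemainder co r a
    refine ⟨b, ?_⟩
    have e : (H.filter fun h => ∀ s ∈ insert p Q, b % s ∉ A s h) =
        (H.filter fun h => ∀ s ∈ Q, a % s ∉ A s h).filter fun h => r ∉ A p h := by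
      rw [filter_filter]
      refine filter_congr fun h _ => ?_
      rw [forall_mem_insert, show b % p = r from Eq.trans h1 (Nat.mod_eq_of_lt hr), and_comm]
      exact and_congr_left fun _ => forall₂_congr fun s hs => by
        rw [show b % s = a % s from h2.of_dvd (dvd_prod_of_mem (fun s => s) hs)]
    have hp' : (0 : ℝ) < p := by exact_mod_cast pp.pos
    have hρ : (ρ p : ℝ) ≤ p := by
      have := hA p (mem_insert_self _ _) h0 hh0
      have h3 := card_le_card this.1
      rw [this.2, card_range] at h3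
      exact_mod_cast h3
    have h4 : 0 ≤ 1 - (ρ p : ℝ) / p := sub_nonneg.2 ((div_le_one hp').2 hρ)
    rw [e, prod_insert hp, mul_comm (1 - (ρ p : ℝ) / p), ← mul_assoc]
    exact h.trans (mul_le_mul_of_nonneg_right ha h4)

end Pool.Agent.MP_c5bf7b_nt.H98
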