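import Pool.Agent.MP_c5bf7b_nt.H98.Spec

/-! Long strings of integers at which a polynomial takes no prime value. -/

set_option autoImplicit false

namespace Pool.Agent.MP_c5bf7b_nt.H98

open Finset Polynomial

theorem poly_factor (f : ℤ[X]) (hf : 0 < f.natDegree) :
    ∃ g : ℤ[X], g ∣ f ∧ g.IsPrimitive ∧ Irreducible (g.map (Int.castRingHom ℚ)) := by
  have h0 : f.primPart ≠ 0 := f.primPart_ne_zero
  have hu : ¬IsUnit f.primPart := by
    intro h
    have := natDegree_eq_zero_of_isUnit h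
    rw [natDegree_primPart] at this
    omega
  obtain ⟨g, hg, hd⟩ := WfDvdMonoid.exists_irreducible_factor hu h0
  have hp : g.IsPrimitive := isPrimitive_of_dvd f.isPrimitive_primPart hd
  exact ⟨g, hd.trans f.primPart_dvd, hp,
    (IsPrimitive.Int.irreducible_iff_irreducible_map_cast hp).1 hg⟩

theorem nroots_le_deg (g : ℤ[X]) (hg : g.IsPrimitive) (p : ℕ) (hp : p.Prime) :
    nroots g p ≤ g.natDegree := by
  have := Fact.mk hp
  set G : (ZMod p)[X] := g.map (Int.castRingHom (ZMod p)) with hG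
  have hG0 : G ≠ 0 := by
    intro h
    have hd : C (p : ℤ) ∣ g := by
      rw [C_dvd_iff_dvd_coeff]
      intro i
      have : G.coeff i = 0 := by rw [h]; simp
      rw [hG, coeff_map] at this
      exact (ZMod.intCast_zmod_eq_zero_iff_dvd _ _).1 this
    have := hg _ hd
    rw [Int.isUnit_iff_natAbs_eq, Int.natAbs_natCast] at this
    exact hp.one_lt.ne' this
  have h1 : nroots g p ≤ G.roots.toFinset.card := by
    unfold nroots
    refine card_le_card_of_injOn (fun x : ℕ => (x : ZMod p)) ?_ ?_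
    · intro x hx
      rw [coe_filter] at hx
      have h2 := (ZMod.intCast_zmod_eq_zero_iff_dvd _ _).2 hx.2
      simp only [mem_coe, Multiset.mem_toFinset]
      rw [mem_roots hG0, IsRoot.def, hG]
      have h3 : ((x : ℕ) : ZMod p) = (Int.castRingHom (ZMod p)) (x : ℤ) := by simp
      rw [h3, eval_map, eval₂_hom]
      simpa using h2
    · intro x hx y hy hxy
      rw [coe_filter] at hx hy
      have h1 := mem_range.1 hx.1
      have h2 := mem_range.1 hy.1
      have h3 := (ZMod.natCast_eq_natCast_iff' x y p).1 hxy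
      rwa [Nat.mod_eq_of_lt h1, Nat.mod_eq_of_lt h2] at h3
  exact h1.trans ((Multiset.toFinset_card_le _).trans ((card_roots' G).trans natDegree_map_le))

theorem dvd_eval_congr (g : ℤ[X]) (p : ℕ) (a b : ℤ) (h : (p : ℤ) ∣ a - b)
    (hb : (p : ℤ) ∣ g.eval b) : (p : ℤ) ∣ g.eval a := by
  have h1 := h.trans (sub_dvd_eval_sub a b g)
  have := dvd_add h1 hb
  simpa using this

/-- residues `r` with `p ∣ g (r + h)` -/
noncomputable def rootSet (g : ℤ[X]) (p h : ℕ) : Finset ℕ :=
  (range p).filter fun r : ℕ => (p : ℤ) ∣ g.eval ((r + h : ℕ) : ℤ)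

theorem rootSet_card (g : ℤ[X]) (p h : ℕ) : (rootSet g p h).card = nroots g p := by
  classical
  have hper : Function.Periodic (fun x : ℕ => (p : ℤ) ∣ g.eval (x : ℤ)) p := by
    intro x
    apply propext
    constructor
    · intro hx
      refine dvd_eval_congr g p _ _ ?_ hx
      push_cast
      simp
    · intro hx
      refine dvd_eval_congr g p _ _ ?_ hx
      push_cast
      simp
  have h1 := Nat.filter_Ico_card_eq_of_periodic h p _ hper
  have h2 := Nat.filter_Ico_card_eq_of_periodic 0 p _ hper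
  unfold nroots rootSet
  rw [range_eq_Ico]
  rw [zero_add] at h2
  rw [h2, ← h1]
  refine card_bij (fun r _ => r + h) ?_ ?_ ?_
  · intro r hr
    rw [mem_filter, mem_Ico] at hr ⊢
    exact ⟨⟨by omega, by omega⟩, hr.2⟩
  · intro r _ s _ hrs
    omega
  · intro s hs
    rw [mem_filter, mem_Ico] at hs
    refine ⟨s - h, ?_, by omega⟩
    rw [mem_filter, mem_Ico]
    refine ⟨⟨by omega, by omega⟩, ?_⟩
    rw [show s - h + h = s by omega]
    exact hs.2

theorem rootSet_dvd (g : ℤ[X]) (p h n : ℕ) (hn : n % p ∈ rootSet g p h) :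
    (p : ℤ) ∣ g.eval ((n + h : ℕ) : ℤ) := by
  unfold rootSet at hn
  rw [mem_filter] at hn
  refine dvd_eval_congr g p _ _ ?_ hn.2
  refine ⟨(n / p : ℕ), ?_⟩
  have := Nat.mod_add_div n p
  have h2 : ((n % p : ℕ) : ℤ) + (p : ℤ) * ((n / p : ℕ) : ℤ) = n := by exact_mod_cast this
  rw [Nat.cast_add, Nat.cast_add]
  linarith

theorem poly_large (f : ℤ[X]) (hf : 0 < f.natDegree) :
    ∃ B : ℕ, ∀ m : ℕ, B ≤ m → (m : ℝ) / 2 ≤ |((f.eval (m : ℤ) : ℤ) : ℝ)| := by
  set F : ℝ[X] := f.map (Int.castRingHom ℝ) with hF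
  have hinj : Function.Injective (Int.castRingHom ℝ) := Int.cast_injective
  have hdeg : F.natDegree = f.natDegree := natDegree_map_eq_of_injective hinj f
  have hlc : F.leadingCoeff = (f.leadingCoeff : ℝ) := by
    rw [hF, leadingCoeff_map_of_injective hinj]; simp
  have hf0 : f ≠ 0 := by
    rintro rfl
    simp at hf
  have hl1 : (1 : ℝ) ≤ |(f.leadingCoeff : ℝ)| := by
    have := Int.one_le_abs (leadingCoeff_ne_zero.2 hf0)
    exact_mod_cast this
  have he := (isEquivalent_atTop_lead F).isLittleO.bound (show (0 : ℝ) < 1 / 2 by norm_num)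
  obtain ⟨b, hb⟩ := Filter.eventually_atTop.1 (he.and (Filter.eventually_ge_atTop 1))
  refine ⟨⌈b⌉₊, fun m hm => ?_⟩
  obtain ⟨h1, h2⟩ := hb m ((Nat.le_ceil b).trans (by exact_mod_cast hm))
  have h3 : F.eval (m : ℝ) = ((f.eval (m : ℤ) : ℤ) : ℝ) := by
    have h3 : ((m : ℕ) : ℝ) = (Int.castRingHom ℝ) (m : ℤ) := by simp
    rw [hF, h3, eval_map, eval₂_hom]
    simp
  simp only [Pi.sub_apply, Real.norm_eq_abs] at h1
  rw [h3, hlc, hdeg] at h1
  have h4 : (m : ℝ) ≤ |(f.leadingCoeff : ℝ) * (m : ℝ) ^ f.natDegree| := by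
    rw [abs_mul, abs_of_nonneg (by positivity : (0 : ℝ) ≤ (m : ℝ) ^ f.natDegree)]
    have h5 : (m : ℝ) ≤ (m : ℝ) ^ f.natDegree := le_self_pow₀ h2 hf.ne'
    nlinarith
  have h6 := abs_sub_abs_le_abs_sub ((f.leadingCoeff : ℝ) * (m : ℝ) ^ f.natDegree)
    ((f.eval (m : ℤ) : ℤ) : ℝ)
  rw [abs_sub_comm] at h6
  linarith

theorem count_class (hU : UnitStmt) (x W q a c : ℕ) (hW : 0 < W) (hq : 0 < q)
    (hc : Nat.Coprime W q) :
    |((((Ico x (2 * x)).filter fun n => n % W = a % W).filter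
        fun n => n % q = c % q).card : ℝ) - (x : ℝ) / W / q| ≤ 2 := by
  obtain ⟨e, he1, he2⟩ := Nat.chineseRemainder hc a c
  have key : ∀ n : ℕ, (n % W = a % W ∧ n % q = c % q) ↔ n % (W * q) = e % (W * q) := by
    intro n
    have := (Nat.modEq_and_modEq_iff_modEq_mul (a := n) (b := e) hc)
    unfold Nat.ModEq at this he1 he2
    rw [← this, he1, he2]
  have h1 := hU 1 (W * q) e x one_pos (Nat.mul_pos hW hq) (Nat.coprime_one_right _)
  have h2 := hU 1 (W * q) e (2 * x) one_pos (Nat.mul_pos hW hq) (Nat.coprime_one_right _)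
  simp only [Nat.coprime_one_right_eq_true, and_true, Nat.totient_one, Nat.cast_one, mul_one,
    one_mul, Nat.primeFactors_one, card_empty, pow_zero] at h1 h2
  have h3 : ((range (2 * x)).filter fun n => n % (W * q) = e % (W * q)).card =
      ((range x).filter fun n => n % (W * q) = e % (W * q)).card +
        (((Ico x (2 * x)).filter fun n => n % W = a % W).filter fun n => n % q = c % q).card := by
    rw [filter_filter, ← card_union_of_disjoint]
    · congr 1
      ext n
      simp only [mem_union, mem_filter, mem_range, mem_Ico, key]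
      constructor
      · rintro ⟨h4, h5⟩
        by_cases h6 : n < x
        · exact Or.inl ⟨h6, h5⟩
        · exact Or.inr ⟨⟨by omega, h4⟩, h5⟩
      · rintro (⟨h4, h5⟩ | ⟨h4, h5⟩)
        · exact ⟨by omega, h5⟩
        · exact ⟨h4.2, h5⟩
    · rw [disjoint_left]
      intro n h4 h5
      rw [mem_filter, mem_range] at h4
      rw [mem_filter, mem_Ico] at h5
      omega
  rw [h3] at h2
  push_cast at h1 h2
  have h7 : (x : ℝ) / W / q = x / (W * q) := by rw [div_div]
  have h8 : (2 * x : ℝ) / (W * q) = 2 * (x / (W * q)) := by ring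
  rw [h7]
  rw [h8] at h2
  rw [abs_le] at h1 h2 ⊢
  constructor <;> linarith [h1.1, h1.2, h2.1, h2.2]

theorem prod_small (ρ : ℕ → ℕ) (C0 y : ℝ) (hM : MLow ρ C0) (hρ : ∀ p, ρ p ≤ p) (hy : 2 ≤ y) :
    ∏ p ∈ (range (⌊y⌋₊ + 1)).filter Nat.Prime, (1 - (ρ p : ℝ) / p) ≤
      Real.exp C0 / Real.log y := by
  have hly : 0 < Real.log y := Real.log_pos (by linarith)
  have hl2 : 0 < Real.log 2 := Real.log_pos (by norm_num)
  have hl2' : Real.log 2 ≤ 1 := by
    have := Real.log_le_sub_one_of_pos (show (0 : ℝ) < 2 by norm_num)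
    linarith
  have h1 : ∏ p ∈ (range (⌊y⌋₊ + 1)).filter Nat.Prime, (1 - (ρ p : ℝ) / p) ≤
      ∏ p ∈ (range (⌊y⌋₊ + 1)).filter Nat.Prime, Real.exp (-((ρ p : ℝ) / p)) := by
    refine prod_le_prod ?_ ?_
    · intro p hp
      have hp0 : (0 : ℝ) < p := by exact_mod_cast (mem_filter.1 hp).2.pos
      have : (ρ p : ℝ) / p ≤ 1 := by
        rw [div_le_one hp0]
        exact_mod_cast hρ p
      linarith
    · intro p _
      exact Real.one_sub_le_exp_neg _
  rw [← Real.exp_sum, sum_neg_distrib] at h1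
  have h2 := hM 2 y le_rfl hy
  have h3 : ∑ p ∈ (Ioc ⌊(2 : ℝ)⌋₊ ⌊y⌋₊).filter Nat.Prime, (ρ p : ℝ) / p ≤
      ∑ p ∈ (range (⌊y⌋₊ + 1)).filter Nat.Prime, (ρ p : ℝ) / p := by
    refine sum_le_sum_of_subset_of_nonneg ?_ ?_
    · intro p hp
      rw [mem_filter, mem_Ioc] at hp
      rw [mem_filter, mem_range]
      exact ⟨by omega, hp.2⟩
    · intro p _ _
      positivity
  have h4 : Real.exp (-∑ p ∈ (range (⌊y⌋₊ + 1)).filter Nat.Prime, (ρ p : ℝ) / p) ≤
      Real.exp (C0 - Real.log (Real.log y / Real.log 2)) := Real.exp_le_exp.2 (by linarith)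
  rw [Real.exp_sub, Real.exp_log (div_pos hly hl2)] at h4
  refine h1.trans (h4.trans ?_)
  have he := Real.exp_pos C0
  rw [div_div_eq_mul_div]
  refine div_le_div_of_nonneg_right ?_ hly.le
  nlinarith

theorem poly (hT : STStmt) (hM : MertRootStmt) (hB : BadStmt) (hU : UnitStmt)
    (hG : GreedyStmt) : PolyStmt := by
  classical
  intro f hf
  obtain ⟨g, hgf, hgp, hgi⟩ := poly_factor f hf
  obtain ⟨C0, hC0⟩ := hM g hgi
  obtain ⟨δ, X0, hδ, hST⟩ := hT g.natDegree C0
  obtain ⟨C, hC⟩ := hB g hgi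
  obtain ⟨Bf, hBf⟩ := poly_large f hf
  choose! Dt hDt using hC
  have he0 := Real.exp_pos C0
  set c : ℝ := δ / (4 * Real.exp C0) with hc
  have hc0 : 0 < c := by positivity
  have hev : ∀ᶠ X : ℝ in Filter.atTop, X0 ≤ X ∧ 64 ≤ X ∧ 1 / c ≤ X ∧
      4 * c ^ 2 * (C + 1) * Real.log X ^ 2 ≤ X := by
    have hK : (0 : ℝ) < 4 * c ^ 2 * (C + 1) := by positivity
    have h1 := (Real.isLittleO_pow_log_id_atTop (n := 2)).bound (inv_pos.2 hK)
    filter_upwards [h1, Filter.eventually_ge_atTop X0, Filter.eventually_ge_atTop 64,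
      Filter.eventually_ge_atTop (1 / c)] with X h1 h2 h3 h4
    refine ⟨h2, h3, h4, ?_⟩
    simp only [id, Real.norm_eq_abs] at h1
    rw [abs_of_nonneg (by positivity), abs_of_nonneg (by linarith), inv_mul_eq_div,
      le_div_iff₀ hK] at h1
    linarith
  have hev2 := (Real.tendsto_log_atTop.comp tendsto_natCast_atTop_atTop).eventually hev
  obtain ⟨B, hBx⟩ := Filter.eventually_atTop.1 hev2
  refine ⟨c, hc0, max (max B Bf) 1, fun x hx => ?_⟩
  have hxB : B ≤ x := le_trans (le_trans (le_max_left _ _) (le_max_left _ _)) hx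
  have hxBf : Bf ≤ x := le_trans (le_trans (le_max_right _ _) (le_max_left _ _)) hx
  have hx1 : 1 ≤ x := le_trans (le_max_right _ _) hx
  have hx0 : (0 : ℝ) < x := by exact_mod_cast hx1
  obtain ⟨hX0, hX64, hXc, hXl⟩ := hBx x hxB
  simp only [Function.comp] at hX0 hX64 hXc hXl
  set X : ℝ := Real.log x with hX
  have hxX : (x : ℝ) = Real.exp X := (Real.exp_log hx0).symm
  have hl8 : 2 * Real.log 8 ≤ Real.log X := by
    have h1 : Real.log 64 ≤ Real.log X := Real.log_le_log (by norm_num) hX64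
    have h2 : Real.log 64 = 2 * Real.log 8 := by
      rw [show (64 : ℝ) = 8 ^ 2 by norm_num, Real.log_pow]; norm_num
    linarith
  have hl81 : 1 ≤ Real.log 8 := by
    rw [Real.le_log_iff_exp_le (by norm_num)]
    have := Real.exp_one_lt_d9
    linarith
  have hlX : 2 ≤ Real.log X := by linarith
  set y : ℝ := X / 8 with hy
  have hly : Real.log X / 2 ≤ Real.log y := by
    rw [hy, Real.log_div (by linarith) (by norm_num)]
    linarith
  set N : ℕ := ⌊c * X * Real.log X⌋₊ + 1 with hN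
  have hcX : 1 ≤ c * X := by
    rw [div_le_iff₀ hc0] at hXc
    linarith
  have hN1 : 1 ≤ c * X * Real.log X := by nlinarith
  have hN2 : (N : ℝ) ≤ 2 * (c * X * Real.log X) := by
    have := Nat.floor_le (show 0 ≤ c * X * Real.log X by linarith)
    rw [hN]
    push_cast
    linarith
  set Q : Finset ℕ := (range (⌊y⌋₊ + 1)).filter Nat.Prime with hQ
  have hQp : ∀ p ∈ Q, p.Prime := fun p hp => (mem_filter.1 hp).2
  have hQy : ∀ p ∈ Q, (p : ℝ) ≤ y := by
    intro p hp
    have h1 := mem_range.1 (mem_filter.1 hp).1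
    have h2 : (p : ℝ) ≤ ⌊y⌋₊ := by exact_mod_cast Nat.lt_succ_iff.1 h1
    exact h2.trans (Nat.floor_le (by rw [hy]; linarith))
  have hA : ∀ p h : ℕ, rootSet g p h ⊆ range p ∧ (rootSet g p h).card = nroots g p :=
    fun p h => ⟨filter_subset _ _, rootSet_card g p h⟩
  obtain ⟨a0, ha0⟩ := hG Q (range N) (nroots g) (rootSet g) hQp (fun p _ h _ => hA p h)
  set H : Finset ℕ := (range N).filter fun h => ∀ p ∈ Q, a0 % p ∉ rootSet g p h with hH
  have hρ : ∀ p, nroots g p ≤ p := by
    intro p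
    unfold nroots
    exact (card_filter_le _ _).trans (card_range p).le
  have hHc : (H.card : ℝ) ≤ δ * X := by
    have h1 := prod_small (nroots g) C0 y hC0 hρ (by rw [hy]; linarith)
    rw [card_range] at ha0
    have h2 : Real.exp C0 / Real.log y ≤ Real.exp C0 / (Real.log X / 2) :=
      div_le_div_of_nonneg_left he0.le (by linarith) hly
    have h3 : (N : ℝ) * ∏ p ∈ Q, (1 - (nroots g p : ℝ) / p) ≤
        (N : ℝ) * (Real.exp C0 / (Real.log X / 2)) :=
      mul_le_mul_of_nonneg_left (h1.trans h2) (by positivity)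
    have h4 : (N : ℝ) * (Real.exp C0 / (Real.log X / 2)) ≤
        2 * (c * X * Real.log X) * (Real.exp C0 / (Real.log X / 2)) :=
      mul_le_mul_of_nonneg_right hN2 (by positivity)
    have h5 : 2 * (c * X * Real.log X) * (Real.exp C0 / (Real.log X / 2)) = δ * X := by
      rw [hc]
      field_simp
      ring
    linarith
  set D : ℕ := ∏ t ∈ Icc 1 N, Dt t with hD
  have hD0 : D ≠ 0 := by
    rw [hD, prod_ne_zero_iff]
    intro t ht
    have := (hDt t (mem_Icc.1 ht).1).1
    omega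
  have hDl : Real.log D ≤ X ^ 3 := by
    have h1 : D ≤ ((N + 1) ^ C) ^ N := by
      have h2 := prod_le_pow_card (Icc 1 N) Dt ((N + 1) ^ C) (by
        intro t ht
        rw [mem_Icc] at ht
        exact (hDt t ht.1).2.1.trans (Nat.pow_le_pow_left (by omega) _))
      simpa using h2
    have h2 : Real.log D ≤ Real.log ((((N : ℝ) + 1) ^ C) ^ N) := by
      refine Real.log_le_log (by exact_mod_cast Nat.pos_of_ne_zero hD0) ?_
      exact_mod_cast h1
    rw [Real.log_pow, Real.log_pow] at h2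
    have h3 : Real.log ((N : ℝ) + 1) ≤ N := by
      have := Real.log_le_sub_one_of_pos (show (0 : ℝ) < (N : ℝ) + 1 by positivity)
      linarith
    have hN0 : (0 : ℝ) ≤ N := by positivity
    have hC0' : (0 : ℝ) ≤ C := by positivity
    have h4 : (N : ℝ) * (C * Real.log ((N : ℝ) + 1)) ≤ N * (C * N) :=
      mul_le_mul_of_nonneg_left (mul_le_mul_of_nonneg_left h3 hC0') hN0
    have h5 : (N : ℝ) ^ 2 ≤ (2 * (c * X * Real.log X)) ^ 2 := pow_le_pow_left₀ hN0 hN2 2
    have h6 : (N : ℝ) * (C * N) ≤ (C + 1) * (2 * (c * X * Real.log X)) ^ 2 := by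
      have : (N : ℝ) * (C * N) ≤ (C + 1) * (N : ℝ) ^ 2 := by nlinarith
      exact this.trans (mul_le_mul_of_nonneg_left h5 (by linarith))
    have h7 : (C + 1) * (2 * (c * X * Real.log X)) ^ 2 =
        (4 * c ^ 2 * (C + 1) * Real.log X ^ 2) * X ^ 2 := by ring
    have h8 : (4 * c ^ 2 * (C + 1) * Real.log X ^ 2) * X ^ 2 ≤ X * X ^ 2 :=
      mul_le_mul_of_nonneg_right hXl (by positivity)
    have h9 : X * X ^ 2 = X ^ 3 := by ring
    linarith
  set W : ℕ := ∏ p ∈ Q, p with hW
  have hW0 : 0 < W := prod_pos fun p hp => (hQp p hp).pos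
  have hWb : (W : ℝ) ≤ Real.exp (3 * y) := by
    have h1 : W ≤ 4 ^ ⌊y⌋₊ := primorial_le_four_pow ⌊y⌋₊
    have h2 : (W : ℝ) ≤ 4 ^ ⌊y⌋₊ := by exact_mod_cast h1
    have h3 : (4 : ℝ) ≤ Real.exp 3 := by
      have := Real.add_one_le_exp (3 : ℝ)
      linarith
    have h4 : (4 : ℝ) ^ ⌊y⌋₊ ≤ Real.exp 3 ^ ⌊y⌋₊ := pow_le_pow_left₀ (by norm_num) h3 _
    rw [← Real.exp_nat_mul] at h4
    have h5 : (⌊y⌋₊ : ℝ) ≤ y := Nat.floor_le (by rw [hy]; linarith)
    exact h2.trans (h4.trans (Real.exp_le_exp.2 (by linarith)))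
  have hX4 : y < X ^ 4 := by
    have h1 : X ≤ X ^ 4 := le_self_pow₀ (by linarith) (by norm_num)
    rw [hy]
    linarith
  have hmain := hST X hX0 (nroots g) D H ((Ico x (2 * x)).filter fun n => n % W = a0 % W)
    (rootSet g) ((x : ℝ) / W) 2 hC0 hD0 hDl hHc
    (fun p hp _ => nroots_le_deg g hgp p hp) ?_ ?_ ?_
  · obtain ⟨n, hn, hnH⟩ := hmain
    rw [mem_filter, mem_Ico] at hn
    refine ⟨n, hn.1.1, hn.1.2, fun h hh hpr => ?_⟩
    have hhN : h < N := Nat.lt_succ_of_le (Nat.le_floor hh)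
    have hbig := hBf (n + h) (by omega)
    have hxn : (x : ℝ) ≤ ((n + h : ℕ) : ℝ) := by exact_mod_cast (by omega : x ≤ n + h)
    have hfin : ∀ p : ℕ, p.Prime → (p : ℝ) < Real.exp X / 2 → n % p ∈ rootSet g p h → False := by
      intro p hp hlt hmem
      have h1 : (p : ℤ) ∣ f.eval ((n + h : ℕ) : ℤ) :=
        (rootSet_dvd g p h n hmem).trans (eval_dvd hgf)
      have h2 := Int.prime_iff_natAbs_prime.1 hpr
      have h3 := (Nat.prime_dvd_prime_iff_eq hp h2).1 (Int.natCast_dvd.1 h1)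
      have h4 : (p : ℝ) = |((f.eval ((n + h : ℕ) : ℤ) : ℤ) : ℝ)| := by
        rw [h3, Nat.cast_natAbs, Int.cast_abs]
      linarith
    by_cases hmem : h ∈ H
    · obtain ⟨p, hp, _, _, hle, hr⟩ := hnH h hmem
      refine hfin p hp (hle.trans_lt ?_) hr
      have h1 : Real.sqrt X ≤ X - 1 := by
        rw [Real.sqrt_le_left (by linarith)]
        nlinarith
      have h2 : Real.exp (Real.sqrt X) ≤ Real.exp (X - 1) := Real.exp_le_exp.2 h1
      have h3 : (2 : ℝ) < Real.exp 1 := by
        have := Real.exp_one_gt_d9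
        linarith
      rw [Real.exp_sub] at h2
      exact h2.trans_lt (div_lt_div_of_pos_left (Real.exp_pos X) (by norm_num) h3)
    · rw [hH, mem_filter, mem_range, not_and] at hmem
      have h1 := hmem hhN
      simp only [not_forall, not_not] at h1
      obtain ⟨p, hpQ, hr⟩ := h1
      have h2 : n % p = a0 % p := by
        have h3 : p ∣ W := dvd_prod_of_mem _ hpQ
        exact Nat.ModEq.of_dvd h3 hn.2
      refine hfin p (hQp p hpQ) ((hQy p hpQ).trans_lt ?_) (h2 ▸ hr)
      have := Real.add_one_le_exp X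
      rw [hy]
      linarith
  · intro p _ _ hpD
    refine ⟨fun h _ => hA p h, ?_⟩
    have hlt : ∀ h ∈ H, ∀ h' ∈ H, h < h' → Disjoint (rootSet g p h) (rootSet g p h') := by
      intro h _ h' hh' hlt
      have hN' : h' < N := mem_range.1 (mem_filter.1 hh').1
      rw [disjoint_left]
      intro r h1 h2
      unfold rootSet at h1 h2
      rw [mem_filter] at h1 h2
      apply hpD
      have h3 : p ∣ Dt (h' - h) := by
        refine (hDt (h' - h) (by omega)).2.2 p _ h1.2 ?_
        have h4 : ((r + h : ℕ) : ℤ) + ((h' - h : ℕ) : ℤ) = ((r + h' : ℕ) : ℤ) := by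
          rw [← Nat.cast_add]
          congr 1
          omega
        rw [h4]
        exact h2.2
      exact h3.trans (dvd_prod_of_mem _ (mem_Icc.2 ⟨by omega, by omega⟩))
    intro h hh h' hh' hne
    rcases lt_or_gt_of_ne hne with h1 | h1
    · exact hlt h hh h' hh' h1
    · exact (hlt h' hh' h hh h1).symm
  · intro q e hq hqp
    refine count_class hU x W q a0 e hW0 hq ?_
    rw [hW]
    refine Nat.Coprime.prod_left fun p hp => ?_
    rw [Nat.Prime.coprime_iff_not_dvd (hQp p hp)]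
    intro hd
    have h1 := (hqp p (hQp p hp) hd).1
    have h2 := hQy p hp
    linarith
  · have hWr : (0 : ℝ) < W := by exact_mod_cast hW0
    rw [lt_div_iff₀ hWr, hxX]
    have h1 : Real.exp X = Real.exp (X / 3) * Real.exp (3 * y) * Real.exp (7 * X / 24) := by
      rw [← Real.exp_add, ← Real.exp_add, hy]
      congr 1
      ring
    have h2 : (2 : ℝ) < Real.exp (7 * X / 24) := by
      have := Real.add_one_le_exp (7 * X / 24)
      linarith
    have h3 := Real.exp_pos (X / 3)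
    have h4 := Real.exp_pos (3 * y)
    have h5 : Real.exp (X / 3) * W ≤ Real.exp (X / 3) * Real.exp (3 * y) :=
      mul_le_mul_of_nonneg_left hWb h3.le
    have h6 : 0 < Real.exp (X / 3) * Real.exp (3 * y) := mul_pos h3 h4
    have h7 := mul_lt_mul_of_pos_left h2 h6
    rw [h1]
    linarith

end Pool.Agent.MP_c5bf7b_nt.H98
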