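import Pool.Agent.MP_c5bf7b_nt.H98.Core3

/-! The abstract sieve. -/

set_option autoImplicit false
set_option linter.unusedSectionVars false

namespace Pool.Agent.MP_c5bf7b_nt.H98

open Finset

namespace Core

variable {ι H Ω : Type} [Fintype ι] [Fintype H] [Fintype Ω] [DecidableEq ι] [DecidableEq H]

lemma op_mul (x y : ℝ) (a : Option H) : op x a * op y a = op (x * y) a := by
  cases a <;> simp

lemma op_le {x y : ℝ} (hxy : x ≤ y) (a : Option H) : op x a ≤ op y a := by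
  cases a <;> simp [hxy]

lemma op_nonneg {x : ℝ} (hx : 0 ≤ x) (a : Option H) : 0 ≤ op x a := by
  cases a <;> simp [hx]

lemma op_exp (f : ι → ℝ) (σ : ι → Option H) :
    ∏ i, op (Real.exp (f i)) (σ i) = Real.exp (∑ i, if σ i = none then 0 else f i) := by
  rw [Real.exp_sum]
  refine prod_congr rfl fun i _ => ?_
  cases σ i <;> simp

lemma inst {π ρ l : ι → ℝ} {st : Ω → ι → Option H} {M E l0 b Z w0 L : ℝ} (h : Std π l l0 b Z)
    (hE : Equi π ρ st M E) (hρ : ∀ i, 1 ≤ ρ i) (hM : 0 ≤ M) (hE0 : 0 ≤ E) (hw : ∀ i, π i ≤ w0)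
    (hw0 : 0 ≤ w0) (hL : 0 ≤ L) (h2 : 16 * ((Fintype.card H + 1) * w0 * L) ≤ l0)
    (h6 : 4 * (Fintype.card H : ℝ) * ∑ i, ρ i * Real.exp (-(2 * l i)) ≤ 1)
    (γ : (ι → Option H) → ℝ) (g2 : ∀ σ, |γ σ| ≤ 2) (g0 : ∀ σ, L < tot l σ → γ σ = 0) :
    |∑ n, W π (fun σ => (∏ k, gg l b Z (fib σ k) * wt π (fib σ k)) * γ σ) (st n) ^ 2 -
        M * ∑ σ, (∏ k, gg l b Z (fib σ k) ^ 2 * wt π (fib σ k)) * γ σ ^ 2| ≤
      1 / 4 * (M * ∑ σ, (∏ k, gg l b Z (fib σ k) ^ 2 * wt π (fib σ k)) * γ σ ^ 2) +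
        E * (4 * Real.exp (4 * L + 2)) := by
  have K0 : (0 : ℝ) ≤ Fintype.card H := Nat.cast_nonneg _
  have hwt : ∀ σ : ι → Option H, ∏ k, wt π (fib σ k) = ∏ i, op (π i / (1 - π i)) (σ i) :=
    fun σ => prod_fib σ _
  have k := quad (η := 1 / 4) hE h.p0 (fun i => by linarith [h.p1 i]) hρ hM hE0
    (fun σ => (∏ k, gg l b Z (fib σ k) * wt π (fib σ k)) * γ σ) fun σ hσ => by
      have a1 : tot l σ ≤ L := not_lt.1 fun x => hσ (by rw [g0 σ x, mul_zero])
      have a2 : ∀ i, 1 + Fintype.card H * (π i / (1 - π i)) ≤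
          Real.exp (Fintype.card H * (2 * w0)) := fun i => by
        have := mul_le_mul_of_nonneg_left ((h.w1 i).trans
          (show 2 * π i ≤ 2 * w0 by linarith [hw i])) K0
        linarith [Real.add_one_le_exp (Fintype.card H * (2 * w0))]
      refine (prod_le_prod (fun i _ => op_nonneg (by
        have := h.w0 i
        positivity) _) fun i _ => op_le (a2 i) _).trans ?_
      rw [op_exp fun _ => Fintype.card H * (2 * w0)]
      have a3 := h.cnt a1 (x := Fintype.card H * (2 * w0)) (by positivity)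
      have a4 : Fintype.card H * (2 * w0) * L / l0 ≤ 1 / 8 := by
        rw [div_le_iff₀ h.l0p]
        nlinarith [mul_nonneg hw0 hL]
      have a5 := (abs_le.1 (Real.abs_exp_sub_one_le (x := 1 / 8) (by norm_num))).2
      rw [abs_of_nonneg (by norm_num)] at a5
      linarith [Real.exp_le_exp.2 (a3.trans a4)]
  have e1 : ∀ σ : ι → Option H, ((∏ k, gg l b Z (fib σ k) * wt π (fib σ k)) * γ σ) ^ 2 *
      ∏ i, op ((1 - π i) / π i) (σ i) =
      (∏ k, gg l b Z (fib σ k) ^ 2 * wt π (fib σ k)) * γ σ ^ 2 := by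
    intro σ
    have : (∏ k, wt π (fib σ k)) * ∏ i, op ((1 - π i) / π i) (σ i) = 1 := by
      rw [hwt, ← prod_mul_distrib]
      refine prod_eq_one fun i _ => ?_
      have := (h.p0 i).ne'
      have := (h.q0 i).ne'
      cases σ i with
      | none => simp
      | some k =>
        simp only [op_some]
        field_simp
    rw [prod_mul_distrib, prod_mul_distrib, prod_pow]
    linear_combination (∏ k, gg l b Z (fib σ k)) ^ 2 * γ σ ^ 2 * (∏ k, wt π (fib σ k)) * this
  simp only [e1] at k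
  refine k.trans (add_le_add le_rfl (mul_le_mul_of_nonneg_left ?_ hE0))
  have b1 : ∀ σ : ι → Option H, |(∏ k, gg l b Z (fib σ k) * wt π (fib σ k)) * γ σ| *
      ∏ i, op (1 + ρ i / π i) (σ i) ≤
      2 * Real.exp (2 * L) * ∏ i, op (4 * (ρ i * Real.exp (-(2 * l i)))) (σ i) := by
    intro σ
    have p0 : ∀ i, 0 ≤ 4 * (ρ i * Real.exp (-(2 * l i))) := fun i => by
      have := hρ i
      positivity
    have p1 := prod_nonneg (s := univ) fun i _ => op_nonneg (p0 i) (σ i)
    by_cases a1 : L < tot l σ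
    · rw [g0 σ a1, mul_zero, abs_zero, zero_mul]
      positivity
    have c1 : |∏ k, gg l b Z (fib σ k)| ≤ 1 := by
      rw [abs_prod]
      exact prod_le_one (fun _ _ => abs_nonneg _) fun _ _ => h.g1 _
    have c0 : 0 ≤ ∏ k, wt π (fib σ k) := prod_nonneg fun _ _ => (h.wt0 _).le
    have c2 : (∏ k, wt π (fib σ k)) * ∏ i, op (1 + ρ i / π i) (σ i) ≤
        (∏ i, op (Real.exp (2 * l i)) (σ i)) *
          ∏ i, op (4 * (ρ i * Real.exp (-(2 * l i)))) (σ i) := by
      rw [hwt, ← prod_mul_distrib, ← prod_mul_distrib]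
      simp only [op_mul]
      have q : ∀ i, 0 ≤ ρ i / π i := fun i => div_nonneg (by linarith [hρ i]) (h.p0 i).le
      refine prod_le_prod (fun i _ => op_nonneg (mul_nonneg (h.w0 i).le (by linarith [q i])) _)
        fun i _ => op_le ?_ _
      have d1 : Real.exp (2 * l i) * (4 * (ρ i * Real.exp (-(2 * l i)))) = 4 * ρ i := by
        rw [Real.exp_neg]
        field_simp
      have d2 : 2 * π i * (1 + ρ i / π i) = 2 * π i + 2 * ρ i := by
        have := (h.p0 i).ne'
        field_simp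
      have d3 := mul_le_mul_of_nonneg_right (h.w1 i) (show 0 ≤ 1 + ρ i / π i by linarith [q i])
      linarith [h.p1 i, hρ i]
    have c3 : ∏ i, op (Real.exp (2 * l i)) (σ i) ≤ Real.exp (2 * L) := by
      rw [op_exp]
      refine Real.exp_le_exp.2 (le_trans (le_of_eq ?_) (mul_le_mul_of_nonneg_left (not_lt.1 a1)
        zero_le_two))
      rw [tot, mul_sum]
      exact sum_congr rfl fun i _ => by split_ifs <;> simp
    have c4 : 0 ≤ ∏ i, op (1 + ρ i / π i) (σ i) := prod_nonneg fun i _ => op_nonneg (by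
      have := div_nonneg (zero_le_one.trans (hρ i)) (h.p0 i).le
      linarith) _
    have c5 := c2.trans (mul_le_mul_of_nonneg_right c3 p1)
    have c6 : |∏ k, gg l b Z (fib σ k)| * |γ σ| ≤ 2 := by
      nlinarith [g2 σ, abs_nonneg (γ σ), abs_nonneg (∏ k, gg l b Z (fib σ k))]
    rw [prod_mul_distrib, abs_mul, abs_mul, abs_of_nonneg c0]
    calc _ = |∏ k, gg l b Z (fib σ k)| * |γ σ| *
          ((∏ k, wt π (fib σ k)) * ∏ i, op (1 + ρ i / π i) (σ i)) := by ring
      _ ≤ 2 * (Real.exp (2 * L) * ∏ i, op (4 * (ρ i * Real.exp (-(2 * l i)))) (σ i)) :=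
          mul_le_mul c6 c5 (mul_nonneg c0 c4) zero_le_two
      _ = _ := by ring
  have b2 : ∑ σ : ι → Option H, ∏ i, op (4 * (ρ i * Real.exp (-(2 * l i)))) (σ i) ≤
      Real.exp 1 := by
    rw [← Fintype.prod_sum fun i (a : Option H) => op (4 * (ρ i * Real.exp (-(2 * l i)))) a]
    refine le_trans ?_ (Real.exp_le_exp.2 h6)
    rw [mul_sum, Real.exp_sum]
    refine prod_le_prod (fun i _ => sum_nonneg fun a _ => op_nonneg (by
      have := hρ i
      positivity) _) fun i _ => le_trans (le_of_eq ?_) (Real.add_one_le_exp _)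
    rw [Fintype.sum_option]
    simp
    ring
  have b3 := sum_le_sum (s := univ) fun σ _ => b1 σ
  rw [← mul_sum] at b3
  have b4 := pow_le_pow_left₀ (sum_nonneg fun σ _ => mul_nonneg (abs_nonneg _)
    (prod_nonneg fun i _ => op_nonneg (by
      have := div_nonneg (zero_le_one.trans (hρ i)) (h.p0 i).le
      linarith) _)) (b3.trans (mul_le_mul_of_nonneg_left b2 (by positivity))) 2
  refine b4.trans (le_of_eq ?_)
  rw [mul_assoc, ← Real.exp_add, mul_pow, ← Real.exp_nat_mul]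
  congr 1
  · norm_num
  · congr 1
    push_cast
    ring

end Core

open _root_.Pool.Agent.MP_c5bf7b_nt.H98.Core in
theorem core : CoreStmt := by
  intro ι H Ω _ _ _ _ _ π ρ l st M E l0 w0 β Z L p0 pw w00 w01 hρ hl l0p Zp L0 hE β0 β1 hS h2 h4 h5
    h6 h7
  have hE' : Equi π ρ st M E := hE
  have K0 : (0 : ℝ) ≤ Fintype.card H := Nat.cast_nonneg _
  have E0 : 0 ≤ E := by simpa using (abs_nonneg _).trans (hE' fun _ => none)
  have M0 : 0 < M := lt_of_le_of_lt (by positivity) h7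
  have S0 : 0 < Ssum π l Z := (pos_iff_pos_of_mul_pos (zero_lt_one.trans_le hS)).1 β0
  obtain ⟨b, hb⟩ : ∃ b, b = (Ssum π l Z)⁻¹ := ⟨_, rfl⟩
  have bβ : b ≤ β := by
    rw [hb, inv_le_iff_one_le_mul₀ S0]
    exact hS
  have h : Std π l l0 b Z := ⟨p0, fun i => (pw i).trans w01, hl, l0p, Zp, hb ▸ inv_pos.2 S0,
    bβ.trans β1, hb ▸ inv_mul_cancel₀ S0.ne'⟩
  by_contra hc
  push Not at hc
  set P : (ι → Option H) → ℝ := fun σ => ∏ k, gg l b Z (fib σ k) * wt π (fib σ k) with hP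
  set U : (ι → Option H) → ℝ := fun σ => ∏ k, gg l b Z (fib σ k) ^ 2 * wt π (fib σ k) with hU
  have U0 : ∀ σ, 0 ≤ U σ := fun σ => prod_nonneg fun _ _ => h.u0 _
  set γ : (ι → Option H) → ℝ := fun σ => if tot l σ ≤ L then 1 else 0 with hγ
  set Γ : H → (ι → Option H) → ℝ := fun k τ => if ∀ i, τ i ≠ some k then ∑ T : Finset ι,
    if (∀ i ∈ T, τ i = none) ∧ tot l τ + ∑ i ∈ T, l i ≤ L then gg l b Z T * wt π T else 0
    else 0 with hΓ
  have Γ2 : ∀ k τ, |Γ k τ| ≤ 2 := fun k τ => by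
    simp only [hΓ]
    split_ifs
    · exact h.gam2 _
    · simp
  have Γ0 : ∀ k τ, L < tot l τ → Γ k τ = 0 := fun k τ x => by
    simp only [hΓ]
    split_ifs
    · exact sum_eq_zero fun T _ => if_neg fun y => by linarith [y.2, h.len0 T]
    · rfl
  have i0 := inst h hE' hρ M0.le E0 pw w00 L0 h2 h6 γ (fun σ => by
    simp only [hγ]
    split_ifs <;> simp) fun σ x => if_neg (not_le.2 x)
  have i1 := fun k => inst h hE' hρ M0.le E0 pw w00 L0 h2 h6 (Γ k) (Γ2 k) (Γ0 k)
  have j1 : ∀ n, W π (fun σ => P σ * γ σ) (st n) ^ 2 ≤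
      ∑ k, W π (fun σ => P σ * Γ k σ) (st n) ^ 2 := by
    intro n
    obtain ⟨k, hk⟩ := hc n
    refine le_trans (le_of_eq ?_) (single_le_sum (f := fun k =>
      W π (fun σ => P σ * Γ k σ) (st n) ^ 2) (fun _ _ => sq_nonneg _) (mem_univ k))
    rw [W_ers π _ k _ hk]
    congr 2
    funext τ
    by_cases a : ∀ i, τ i ≠ some k
    · simp only [hΓ, hγ, hP, if_pos a, mul_ite, mul_one, mul_zero]
      exact sum_ers (fun T => gg l b Z T * wt π T) (by simp [gg, wt]) l L k τ a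
    · rw [sum_ers_zero _ k τ a]
      simp only [hΓ, if_neg a, mul_zero]
  have D1 : 1 ≤ ∑ σ, U σ := by
    have : U (fun _ => none) = 1 := prod_eq_one fun k _ => by
      have : fib (fun _ : ι => (none : Option H)) k = ∅ := by
        ext i
        simp
      simp [this, gg, wt]
    exact this ▸ single_le_sum (fun σ _ => U0 σ) (mem_univ _)
  obtain ⟨θ, hθ⟩ : ∃ θ, θ = 2 * Real.exp ((2 * Fintype.card H * β + Z - L) / Z) := ⟨_, rfl⟩
  have θ0 : 0 ≤ θ := by
    rw [hθ]
    positivity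
  have θ1 : 64 * (Fintype.card H + 1) * θ ≤ 1 := by
    rw [hθ]
    linarith
  have t1 : ∑ σ, (if L - Z < tot l σ then U σ else 0) ≤ θ * ∑ σ, U σ := by
    refine (h.tail h4 (L - Z)).trans (mul_le_mul_of_nonneg_right ?_ (zero_le_one.trans D1))
    rw [hθ]
    refine mul_le_mul_of_nonneg_left (Real.exp_le_exp.2 (div_le_div_of_nonneg_right ?_ Zp.le))
      zero_le_two
    nlinarith
  have t2 : (1 - θ) * ∑ σ, U σ ≤ ∑ σ, U σ * γ σ ^ 2 := by
    have : ∀ σ, U σ ≤ U σ * γ σ ^ 2 + if L - Z < tot l σ then U σ else 0 := by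
      intro σ
      have := U0 σ
      simp only [hγ]
      split_ifs with a1 a2 a3
      · linarith
      · linarith
      · linarith
      · exact (a1 (by linarith)).elim
    have := sum_le_sum (s := univ) fun σ _ => this σ
    rw [sum_add_distrib] at this
    linarith
  obtain ⟨ε, hε⟩ : ∃ ε, ε = 4 * w0 * L / l0 := ⟨_, rfl⟩
  have ε0 : 0 ≤ ε := by
    rw [hε]
    positivity
  have ε1 : 4 * (Fintype.card H + 1) * ε ≤ 1 := by
    rw [hε, ← mul_div_assoc, div_le_one l0p]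
    linarith
  have t3 : ∀ k, ∑ σ, U σ * Γ k σ ^ 2 ≤ (ε ^ 2 + 4 * θ) * ∑ σ, U σ := by
    intro k
    have : ∀ σ, U σ * Γ k σ ^ 2 ≤ ε ^ 2 * U σ + 4 * if L - Z < tot l σ then U σ else 0 := by
      intro σ
      have u0 := U0 σ
      split_ifs with a1
      · have := mul_le_mul_of_nonneg_left (pow_le_pow_left₀ (abs_nonneg _) (Γ2 k σ) 2) u0
        rw [sq_abs] at this
        nlinarith [mul_nonneg (sq_nonneg ε) u0]
      · have a2 : |Γ k σ| ≤ ε := by
          simp only [hΓ]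
          split_ifs
          · exact hε ▸ h.gam1 pw w00 (not_lt.1 a1)
          · simpa using ε0
        have := mul_le_mul_of_nonneg_left (pow_le_pow_left₀ (abs_nonneg _) a2 2) u0
        rw [sq_abs] at this
        linarith
    have := sum_le_sum (s := univ) fun σ _ => this σ
    rw [sum_add_distrib, ← mul_sum, ← mul_sum] at this
    linarith
  have j2 := sum_le_sum (s := univ) fun n _ => j1 n
  rw [sum_comm] at j2
  have j3 : ∀ k, ∑ n, W π (fun σ => P σ * Γ k σ) (st n) ^ 2 ≤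
      5 / 4 * (M * ((ε ^ 2 + 4 * θ) * ∑ σ, U σ)) + E * (4 * Real.exp (4 * L + 2)) := by
    intro k
    have a1 := (abs_le.1 (i1 k)).2
    have a2 := mul_le_mul_of_nonneg_left (t3 k) M0.le
    linarith
  have j4 := j2.trans (sum_le_sum fun k _ => j3 k)
  rw [sum_const, card_univ, nsmul_eq_mul] at j4
  have j5 := (abs_le.1 i0).1
  have j6 := mul_le_mul_of_nonneg_left t2 M0.le
  have r1 : Fintype.card H * (ε ^ 2 + 4 * θ) ≤ 1 / 8 := by
    have : ε ≤ 1 / 4 := by nlinarith
    have : Fintype.card H * ε ≤ 1 / 4 := by nlinarith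
    nlinarith
  have r2 : θ ≤ 1 / 64 := by nlinarith
  have r3 : M ≤ M * ∑ σ, U σ := le_mul_of_one_le_right M0.le D1
  have r4 := mul_le_mul_of_nonneg_right r1 (M0.le.trans r3)
  have r5 := mul_le_mul_of_nonneg_right r2 (M0.le.trans r3)
  linarith

end Pool.Agent.MP_c5bf7b_nt.H98
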