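import Pool.Agent.MP_c5bf7b_nt.H98.Spec

/-! The quadratic form of the sieve. -/

set_option autoImplicit false
set_option linter.unusedSectionVars false

namespace Pool.Agent.MP_c5bf7b_nt.H98

open Finset

namespace Core

variable {ι H Ω : Type} [Fintype ι] [Fintype H] [Fintype Ω] [DecidableEq ι] [DecidableEq H]

/-- value `1` at `none`, a given value elsewhere -/
def op (x : ℝ) (a : Option H) : ℝ := if a = none then 1 else x

@[simp] lemma op_none (x : ℝ) : op x (none : Option H) = 1 := if_pos rfl

@[simp] lemma op_some (x : ℝ) (h : H) : op x (some h) = x := if_neg (Option.some_ne_none h)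

/-- equidistribution hypothesis -/
def Equi (π ρ : ι → ℝ) (st : Ω → ι → Option H) (M E : ℝ) : Prop :=
  ∀ σ : ι → Option H,
    |(((univ : Finset Ω).filter fun n => ∀ i, σ i = none ∨ st n i = σ i).card : ℝ) -
        M * ∏ i, op (π i) (σ i)| ≤ E * ∏ i, op (ρ i) (σ i)

/-- coefficients in the basis of indicators -/
def coef (F : Option H → ℝ) (a : Option H) : ℝ := if a = none then F none else F a - F none

lemma expand (F : Option H → ℝ) (s : Option H) :
    F s = ∑ a, coef F a * (if a = none ∨ s = a then 1 else 0) := by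
  rw [Fintype.sum_option]
  cases s <;> simp [coef]

/-- mean -/
def mn (p : ℝ) (F : Option H → ℝ) : ℝ := ∑ a, coef F a * op p a

/-- error weight -/
def er (r : ℝ) (F : Option H → ℝ) : ℝ := ∑ a, |coef F a| * op r a

lemma prod_sum {π ρ : ι → ℝ} {st : Ω → ι → Option H} {M E : ℝ} (hE : Equi π ρ st M E)
    (F : ι → Option H → ℝ) :
    |∑ n, ∏ i, F i (st n i) - M * ∏ i, mn (π i) (F i)| ≤ E * ∏ i, er (ρ i) (F i) := by
  have e1 : ∀ n, ∏ i, F i (st n i) = ∑ σ : ι → Option H, (∏ i, coef (F i) (σ i)) *
      (if ∀ i, σ i = none ∨ st n i = σ i then 1 else 0) := by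
    intro n
    rw [prod_congr rfl fun i _ => expand (F i) (st n i), Fintype.prod_sum]
    refine sum_congr rfl fun σ _ => ?_
    rw [prod_mul_distrib, prod_boole]
    simp
  have e2 : ∑ n, ∏ i, F i (st n i) = ∑ σ : ι → Option H, (∏ i, coef (F i) (σ i)) *
      (((univ : Finset Ω).filter fun n => ∀ i, σ i = none ∨ st n i = σ i).card : ℝ) := by
    rw [sum_congr rfl fun n _ => e1 n, sum_comm]
    refine sum_congr rfl fun σ _ => ?_
    rw [← mul_sum, sum_boole]
  simp only [mn, er]
  rw [e2, Fintype.prod_sum, Fintype.prod_sum, mul_sum, mul_sum, ← sum_sub_distrib]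
  refine (abs_sum_le_sum_abs _ _).trans (sum_le_sum fun σ _ => ?_)
  rw [prod_mul_distrib, prod_mul_distrib, mul_left_comm M, ← mul_sub, abs_mul, mul_left_comm E,
    abs_prod]
  exact mul_le_mul_of_nonneg_left (hE σ) (prod_nonneg fun _ _ => abs_nonneg _)

/-- the orthogonal functions -/
noncomputable def psi (p : ℝ) (a s : Option H) : ℝ := if a ≠ none ∧ s = a then 1 - p⁻¹ else 1

/-- Gram matrix at one index -/
noncomputable def gr (p : ℝ) (a b : Option H) : ℝ := mn p fun s => psi p a s * psi p b s

lemma gr_symm (p : ℝ) (a b : Option H) : gr p a b = gr p b a := by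
  simp only [gr, mul_comm]

lemma gr_none {p : ℝ} (hp : p ≠ 0) (b : Option H) : gr p none b = if b = none then 1 else 0 := by
  rw [gr, mn, Fintype.sum_option]
  cases b with
  | none => simp [coef, psi]
  | some h =>
    have : ∀ x : H, coef (fun s => psi p none s * psi p (some h) s) (some x) * op p (some x) =
        if x = h then -1 else 0 := by
      intro x
      by_cases e : x = h <;> simp [coef, psi, e, hp]
    rw [sum_congr rfl fun x _ => this x]
    simp [coef, psi]

lemma gr_some {p : ℝ} (hp : p ≠ 0) (h k : H) :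
    gr p (some h) (some k) = if k = h then (1 - p) / p else -1 := by
  rw [gr, mn, Fintype.sum_option]
  by_cases e : k = h
  · subst e
    have : ∀ x : H, coef (fun s => psi p (some k) s * psi p (some k) s) (some x) * op p (some x) =
        if x = k then p⁻¹ - 2 else 0 := by
      intro x
      by_cases e : x = k
      · simp only [coef, psi, e, op_some]
        simp
        field_simp
        ring
      · simp [coef, psi, e]
    rw [sum_congr rfl fun x _ => this x]
    simp only [coef, psi]
    simp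
    field_simp
    ring
  · have : ∀ x : H, coef (fun s => psi p (some h) s * psi p (some k) s) (some x) * op p (some x) =
        (if x = h then -1 else 0) + if x = k then -1 else 0 := by
      intro x
      by_cases e1 : x = h
      · subst e1
        simp [coef, psi, Ne.symm e, hp]
      · by_cases e2 : x = k
        · subst e2
          simp [coef, psi, e1, hp]
        · simp [coef, psi, e1, e2]
    rw [sum_congr rfl fun x _ => this x, sum_add_distrib]
    simp [coef, psi, e]

lemma gr_diag {p : ℝ} (hp : p ≠ 0) (a : Option H) : gr p a a = op ((1 - p) / p) a := by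
  cases a with
  | none => simp [gr_none hp]
  | some h => simp [gr_some hp]

lemma gr_sum {p : ℝ} (hp : 0 < p) (hp1 : p < 1) (a : Option H) :
    ∑ b, |gr p a b| ≤ op ((1 - p) / p) a * op (1 + Fintype.card H * (p / (1 - p))) a := by
  have h1 : 0 < 1 - p := sub_pos.2 hp1
  rw [Fintype.sum_option]
  cases a with
  | none => simp [gr_none hp.ne']
  | some h =>
    have : ∀ x : H, |gr p (some h) (some x)| ≤ (if x = h then (1 - p) / p else 0) + 1 := by
      intro x
      rw [gr_some hp.ne']
      split_ifs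
      · rw [abs_of_pos (div_pos h1 hp)]
        linarith
      · simp
    rw [gr_symm, gr_none hp.ne']
    refine (add_le_add le_rfl (sum_le_sum fun x _ => this x)).trans (le_of_eq ?_)
    rw [sum_add_distrib]
    simp
    field_simp

lemma er_le {p r : ℝ} (hp : 0 < p) (hr : 1 ≤ r) (a b : Option H) :
    er r (fun s => psi p a s * psi p b s) ≤ op (1 + r / p) a * op (1 + r / p) b := by
  have hq : 0 < p⁻¹ := inv_pos.2 hp
  have one : ∀ h : H, er r (fun s => psi p (some h) s) ≤ 1 + r / p := by
    intro h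
    have : ∀ x : H, |coef (fun s => psi p (some h) s) (some x)| * op r (some x) =
        if x = h then r / p else 0 := by
      intro x
      by_cases e : x = h
      · simp [coef, psi, e, abs_of_pos hp, div_eq_mul_inv, mul_comm]
      · simp [coef, psi, e]
    rw [er, Fintype.sum_option, sum_congr rfl fun x _ => this x]
    simp [coef, psi]
  cases a with
  | none =>
    cases b with
    | none => simp [er, Fintype.sum_option, coef, psi]
    | some h => simpa [psi] using one h
  | some h =>
    cases b with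
    | none => simpa [psi] using one h
    | some k =>
      have : ∀ x : H, |coef (fun s => psi p (some h) s * psi p (some k) s) (some x)| *
          op r (some x) ≤ (if x = h then r / p + (r / p) ^ 2 else 0) +
            if x = k then r / p else 0 := by
        intro x
        have h0 : 0 ≤ r / p := div_nonneg (by linarith) hp.le
        by_cases e1 : x = h
        · by_cases e2 : x = k
          · subst e1
            subst e2
            simp only [coef, psi, op_some]
            simp only [reduceCtorEq, ↓reduceIte, ne_eq, not_false_eq_true, and_self, and_false,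
              mul_one]
            have h3 : |(1 - p⁻¹) * (1 - p⁻¹) - 1| ≤ 2 * p⁻¹ + p⁻¹ ^ 2 := by
              rw [abs_le]
              constructor <;> nlinarith [sq_nonneg p⁻¹]
            have h4 : p⁻¹ ^ 2 * r ≤ (r / p) ^ 2 := by
              rw [div_eq_mul_inv, mul_pow, mul_comm]
              exact mul_le_mul_of_nonneg_right (by nlinarith) (by positivity)
            have h5 := mul_le_mul_of_nonneg_right h3 (by linarith : 0 ≤ r)
            rw [div_eq_mul_inv] at h4 ⊢
            nlinarith
          · subst e1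
            simp [coef, psi, e2, abs_of_pos hp, div_eq_mul_inv, mul_comm]
            positivity
        · by_cases e2 : x = k
          · subst e2
            simp [coef, psi, e1, abs_of_pos hp, div_eq_mul_inv, mul_comm]
          · simp [coef, psi, e1, e2]
      rw [er, Fintype.sum_option]
      refine (add_le_add le_rfl (sum_le_sum fun x _ => this x)).trans (le_of_eq ?_)
      rw [sum_add_distrib]
      simp [coef, psi]
      ring

/-- the sieve function with coefficients `c` -/
noncomputable def W (π : ι → ℝ) (c : (ι → Option H) → ℝ) (s : ι → Option H) : ℝ :=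
  ∑ σ, c σ * ∏ i, psi (π i) (σ i) (s i)

lemma quad {π ρ : ι → ℝ} {st : Ω → ι → Option H} {M E η : ℝ} (hE : Equi π ρ st M E)
    (h0 : ∀ i, 0 < π i) (h1 : ∀ i, π i < 1) (hρ : ∀ i, 1 ≤ ρ i) (hM : 0 ≤ M) (hE0 : 0 ≤ E)
    (c : (ι → Option H) → ℝ)
    (hη : ∀ σ, c σ ≠ 0 → ∏ i, op (1 + Fintype.card H * (π i / (1 - π i))) (σ i) ≤ 1 + η) :
    |∑ n, W π c (st n) ^ 2 - M * ∑ σ, c σ ^ 2 * ∏ i, op ((1 - π i) / π i) (σ i)| ≤
      η * (M * ∑ σ, c σ ^ 2 * ∏ i, op ((1 - π i) / π i) (σ i)) +
        E * (∑ σ, |c σ| * ∏ i, op (1 + ρ i / π i) (σ i)) ^ 2 := by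
  set G : (ι → Option H) → (ι → Option H) → ℝ := fun σ τ => ∏ i, gr (π i) (σ i) (τ i) with hG
  set nn : (ι → Option H) → ℝ := fun σ => ∏ i, op ((1 - π i) / π i) (σ i) with hn
  have n0 : ∀ σ, 0 ≤ nn σ := fun σ => prod_nonneg fun i _ => by
    cases σ i with
    | none => simp
    | some h => simpa using div_nonneg (sub_pos.2 (h1 i)).le (h0 i).le
  have e1 : ∑ n, W π c (st n) ^ 2 = ∑ σ, ∑ τ, c σ * c τ *
      ∑ n, ∏ i, psi (π i) (σ i) (st n i) * psi (π i) (τ i) (st n i) := by
    have : ∀ n, W π c (st n) ^ 2 = ∑ σ, ∑ τ, c σ * c τ *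
        ∏ i, psi (π i) (σ i) (st n i) * psi (π i) (τ i) (st n i) := by
      intro n
      rw [W, sq, sum_mul_sum]
      refine sum_congr rfl fun σ _ => sum_congr rfl fun τ _ => ?_
      rw [prod_mul_distrib]
      ring
    rw [sum_congr rfl fun n _ => this n, sum_comm]
    refine sum_congr rfl fun σ _ => ?_
    rw [sum_comm]
    exact sum_congr rfl fun τ _ => (mul_sum _ _ _).symm
  have a1 : |∑ n, W π c (st n) ^ 2 - M * ∑ σ, ∑ τ, c σ * c τ * G σ τ| ≤
      E * (∑ σ, |c σ| * ∏ i, op (1 + ρ i / π i) (σ i)) ^ 2 := by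
    rw [e1, sq, sum_mul_sum, mul_sum, mul_sum, ← sum_sub_distrib]
    refine (abs_sum_le_sum_abs _ _).trans (sum_le_sum fun σ _ => ?_)
    rw [mul_sum, mul_sum, ← sum_sub_distrib]
    refine (abs_sum_le_sum_abs _ _).trans (sum_le_sum fun τ _ => ?_)
    have k1 := prod_sum hE fun i s => psi (π i) (σ i) s * psi (π i) (τ i) s
    have k2 : ∏ i, er (ρ i) (fun s => psi (π i) (σ i) s * psi (π i) (τ i) s) ≤
        ∏ i, op (1 + ρ i / π i) (σ i) * op (1 + ρ i / π i) (τ i) :=
      prod_le_prod (fun i _ => sum_nonneg fun a _ => mul_nonneg (abs_nonneg _) (by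
        cases a with
        | none => simp
        | some h => simpa using zero_le_one.trans (hρ i))) fun i _ => er_le (h0 i) (hρ i) _ _
    rw [mul_left_comm M, ← mul_sub, abs_mul, abs_mul]
    refine (mul_le_mul_of_nonneg_left (k1.trans (mul_le_mul_of_nonneg_left k2 hE0))
      (by positivity)).trans (le_of_eq ?_)
    rw [prod_mul_distrib]
    ring
  have gd : ∀ σ, G σ σ = nn σ := fun σ => prod_congr rfl fun i _ => gr_diag (h0 i).ne' _
  have gs : ∀ σ τ, G σ τ = G τ σ := fun σ τ => prod_congr rfl fun i _ => gr_symm _ _ _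
  set g : (ι → Option H) → (ι → Option H) → ℝ := fun σ τ => if τ = σ then 0 else G σ τ with hg
  have g1 : ∀ σ τ, |g σ τ| = |g τ σ| := fun σ τ => by
    simp only [hg, eq_comm (a := τ), gs τ]
  have g2 : ∀ σ, c σ ^ 2 * ∑ τ, |g σ τ| ≤ η * (c σ ^ 2 * nn σ) := by
    intro σ
    by_cases hc : c σ = 0
    · simp [hc]
    have k1 : ∑ τ, |G σ τ| = ∑ τ, (|g σ τ| + if τ = σ then nn σ else 0) := by
      refine sum_congr rfl fun τ _ => ?_
      by_cases e : τ = σ
      · simp [hg, e, gd, abs_of_nonneg (n0 σ)]
      · simp [hg, e]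
    have k2 : ∑ τ, |G σ τ| ≤ nn σ * (1 + η) := by
      simp only [hG, abs_prod]
      rw [← Fintype.prod_sum fun i b => |gr (π i) (σ i) b|]
      refine (prod_le_prod (fun i _ => sum_nonneg fun _ _ => abs_nonneg _)
        fun i _ => gr_sum (h0 i) (h1 i) (σ i)).trans ?_
      rw [prod_mul_distrib]
      exact mul_le_mul_of_nonneg_left (hη σ hc) (n0 σ)
    rw [k1, sum_add_distrib, sum_ite_eq' univ σ, if_pos (mem_univ _)] at k2
    rw [mul_left_comm]
    exact mul_le_mul_of_nonneg_left (by linarith) (sq_nonneg _)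
  have a2 : |∑ σ, ∑ τ, c σ * c τ * G σ τ - ∑ σ, c σ ^ 2 * nn σ| ≤ η * ∑ σ, c σ ^ 2 * nn σ := by
    have k1 : ∑ σ, ∑ τ, c σ * c τ * G σ τ - ∑ σ, c σ ^ 2 * nn σ =
        ∑ σ, ∑ τ, c σ * c τ * g σ τ := by
      rw [← sum_sub_distrib]
      refine sum_congr rfl fun σ _ => ?_
      have : ∀ τ, c σ * c τ * G σ τ = c σ * c τ * g σ τ + if τ = σ then c σ ^ 2 * nn σ else 0 := by
        intro τ
        by_cases e : τ = σ
        · simp [hg, e, gd, sq]
        · simp [hg, e]
      rw [sum_congr rfl fun τ _ => this τ, sum_add_distrib, sum_ite_eq' univ σ,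
        if_pos (mem_univ _), add_sub_cancel_right]
    have k2 : ∀ σ τ, |c σ * c τ * g σ τ| ≤ c σ ^ 2 * |g σ τ| / 2 + c τ ^ 2 * |g τ σ| / 2 := by
      intro σ τ
      rw [abs_mul, ← g1 σ τ]
      have : |c σ * c τ| ≤ (c σ ^ 2 + c τ ^ 2) / 2 := by
        rw [abs_le]
        constructor <;> nlinarith [sq_nonneg (c σ + c τ), sq_nonneg (c σ - c τ)]
      nlinarith [abs_nonneg (g σ τ)]
    rw [k1]
    refine (abs_sum_le_sum_abs _ _).trans ((sum_le_sum fun σ _ =>
      (abs_sum_le_sum_abs _ _).trans (sum_le_sum fun τ _ => k2 σ τ)).trans ?_)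
    simp only [sum_add_distrib]
    rw [sum_comm (f := fun σ τ => c τ ^ 2 * |g τ σ| / 2), ← sum_add_distrib, mul_sum]
    refine sum_le_sum fun σ _ => ?_
    have := g2 σ
    rw [mul_sum] at this
    rw [← sum_div]
    linarith
  have a3 := mul_le_mul_of_nonneg_left a2 hM
  rw [← abs_of_nonneg hM, ← abs_mul, abs_of_nonneg hM, mul_sub, mul_left_comm M η] at a3
  have := abs_add_le (∑ n, W π c (st n) ^ 2 - M * ∑ σ, ∑ τ, c σ * c τ * G σ τ)
    (M * ∑ σ, ∑ τ, c σ * c τ * G σ τ - M * ∑ σ, c σ ^ 2 * nn σ)
  rw [sub_add_sub_cancel] at this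
  linarith

end Core

end Pool.Agent.MP_c5bf7b_nt.H98
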