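import Pool.Agent.MP_c5bf7b_nt.H98.Core1

/-! Sums over assignments. -/

set_option autoImplicit false
set_option linter.unusedSectionVars false

namespace Pool.Agent.MP_c5bf7b_nt.H98

open Finset

namespace Core

variable {ι H : Type} [Fintype ι] [Fintype H] [DecidableEq ι] [DecidableEq H]

/-- the indices sent to `h` -/
def fib (σ : ι → Option H) (h : H) : Finset ι := univ.filter fun i => σ i = some h

@[simp] lemma mem_fib {σ : ι → Option H} {h : H} {i : ι} : i ∈ fib σ h ↔ σ i = some h := by
  simp [fib]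

lemma fib_inj : Function.Injective (fib : (ι → Option H) → H → Finset ι) := by
  intro σ τ e
  funext i
  have : ∀ h, σ i = some h ↔ τ i = some h := fun h => by
    rw [← mem_fib, ← mem_fib, e]
  exact Option.ext fun h => this h

lemma prod_fib (σ : ι → Option H) (f : ι → ℝ) :
    ∏ h, ∏ i ∈ fib σ h, f i = ∏ i, op (f i) (σ i) := by
  simp only [fib, prod_filter]
  rw [prod_comm]
  refine prod_congr rfl fun i _ => ?_
  cases σ i <;> simp

/-- total length of an assignment -/
def tot (l : ι → ℝ) (σ : ι → Option H) : ℝ := ∑ i, if σ i = none then 0 else l i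

lemma sum_fib (σ : ι → Option H) (l : ι → ℝ) : ∑ h, ∑ i ∈ fib σ h, l i = tot l σ := by
  simp only [fib, sum_filter, tot]
  rw [sum_comm]
  refine sum_congr rfl fun i _ => ?_
  cases σ i <;> simp

lemma up (v : Finset ι → ℝ) (hv : ∀ T, 0 ≤ v T) :
    ∑ σ : ι → Option H, ∏ h, v (fib σ h) ≤ (∑ T, v T) ^ Fintype.card H := by
  rw [← card_univ, ← prod_const, Fintype.prod_sum fun (_ : H) T => v T,
    ← sum_image (f := fun x : H → Finset ι => ∏ h, v (x h)) fun _ _ _ _ e => fib_inj e]
  exact sum_le_sum_of_subset_of_nonneg (subset_univ _) fun x _ _ => prod_nonneg fun h _ => hv _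

lemma low (v : Finset ι → ℝ) (hv : ∀ T, 0 ≤ v T) (h1 : 1 ≤ ∑ T, v T) :
    (∑ T, v T) ^ Fintype.card H * (1 - (Fintype.card H : ℝ) ^ 2 *
      ∑ i, (∑ T, if i ∈ T then v T else 0) ^ 2) ≤ ∑ σ : ι → Option H, ∏ h, v (fib σ h) := by
  set Z := ∑ T, v T with hZ
  set δ : ι → ℝ := fun i => ∑ T, if i ∈ T then v T else 0 with hδ
  have δ0 : ∀ i, 0 ≤ δ i := fun i => sum_nonneg fun T _ => by split_ifs <;> simp [hv]
  set w : H → H → ι → H → Finset ι → ℝ := fun h h' i k T =>
    if k = h ∨ k = h' then (if i ∈ T then v T else 0) else v T with hw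
  have w0 : ∀ h h' i k T, 0 ≤ w h h' i k T := fun h h' i k T => by
    simp only [hw]
    split_ifs <;> simp [hv]
  have k1 : ∀ x : H → Finset ι, ∏ h, v (x h) ≤
      (if x ∈ univ.image (fib : (ι → Option H) → H → Finset ι) then ∏ h, v (x h) else 0) +
        ∑ h, ∑ h', ∑ i, if h = h' then 0 else ∏ k, w h h' i k (x k) := by
    intro x
    have p0 : ∀ h h' i, 0 ≤ if h = h' then 0 else ∏ k, w h h' i k (x k) := fun h h' i => by
      split_ifs
      · exact le_rfl
      · exact prod_nonneg fun k _ => w0 _ _ _ _ _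
    split_ifs with hx
    · exact le_add_of_nonneg_right (sum_nonneg fun h _ => sum_nonneg fun h' _ =>
        sum_nonneg fun i _ => p0 h h' i)
    · have : ∃ h h' i, h ≠ h' ∧ i ∈ x h ∧ i ∈ x h' := by
        by_contra hc
        push Not at hc
        refine hx (mem_image.2 ⟨fun i => if e : ∃ h, i ∈ x h then some e.choose else none,
          mem_univ _, ?_⟩)
        funext h
        ext i
        rw [mem_fib]
        split_ifs with e
        · refine ⟨fun e' => Option.some_injective _ e' ▸ e.choose_spec, fun e' => ?_⟩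
          by_contra hn
          exact hc _ _ i (fun e2 => hn (congrArg some e2)) e.choose_spec e'
        · exact ⟨fun e' => by simp at e', fun e' => (e ⟨h, e'⟩).elim⟩
      obtain ⟨h, h', i, hh, a1, a2⟩ := this
      rw [zero_add]
      refine le_trans ?_ (single_le_sum (f := fun h => ∑ h', ∑ i,
        if h = h' then 0 else ∏ k, w h h' i k (x k)) (fun h _ => sum_nonneg fun h' _ =>
          sum_nonneg fun i _ => p0 h h' i) (mem_univ h))
      refine le_trans ?_ (single_le_sum (f := fun h' => ∑ i,
        if h = h' then 0 else ∏ k, w h h' i k (x k)) (fun h' _ =>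
          sum_nonneg fun i _ => p0 h h' i) (mem_univ h'))
      refine le_trans ?_ (single_le_sum (f := fun i =>
        if h = h' then 0 else ∏ k, w h h' i k (x k)) (fun i _ => p0 h h' i) (mem_univ i))
      rw [if_neg hh]
      refine le_of_eq (prod_congr rfl fun k _ => ?_)
      simp only [hw]
      split_ifs with b1 b2
      · rfl
      · rcases b1 with rfl | rfl <;> contradiction
      · rfl
  have k2 : ∀ h h' i, ∑ x : H → Finset ι, (if h = h' then 0 else ∏ k, w h h' i k (x k)) ≤
      Z ^ Fintype.card H * δ i ^ 2 := by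
    intro h h' i
    split_ifs with hh
    · rw [sum_const_zero]
      positivity
    · rw [← Fintype.prod_sum fun k T => w h h' i k T]
      have : ∀ k, ∑ T, w h h' i k T ≤
          Z * ((if k = h then δ i else 1) * if k = h' then δ i else 1) := by
        intro k
        by_cases b1 : k = h
        · subst b1
          simp only [hw, true_or, if_true, if_neg hh, mul_one]
          exact le_mul_of_one_le_left (δ0 i) h1
        · by_cases b2 : k = h'
          · subst b2
            simp only [hw, or_true, if_true, if_neg b1, one_mul]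
            exact le_mul_of_one_le_left (δ0 i) h1
          · simp [hw, b1, b2, hZ]
      refine (prod_le_prod (fun k _ => sum_nonneg fun T _ => w0 _ _ _ _ _)
        fun k _ => this k).trans (le_of_eq ?_)
      rw [prod_mul_distrib, prod_mul_distrib, prod_const, card_univ]
      simp [sq]
  have k3 : Z ^ Fintype.card H = ∑ x : H → Finset ι, ∏ h, v (x h) := by
    rw [← card_univ, ← prod_const, hZ, Fintype.prod_sum fun (_ : H) T => v T]
  have k4 := sum_le_sum (s := univ) fun x _ => k1 x
  rw [← k3, sum_add_distrib, ← sum_filter, filter_mem_eq_inter, univ_inter,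
    sum_image fun _ _ _ _ e => fib_inj e] at k4
  have k5 : ∑ x : H → Finset ι, ∑ h, ∑ h', ∑ i, (if h = h' then 0 else ∏ k, w h h' i k (x k)) ≤
      ∑ _h : H, ∑ _h' : H, ∑ i, Z ^ Fintype.card H * δ i ^ 2 := by
    rw [sum_comm]
    refine sum_le_sum fun h _ => ?_
    rw [sum_comm]
    refine sum_le_sum fun h' _ => ?_
    rw [sum_comm]
    exact sum_le_sum fun i _ => k2 h h' i
  rw [← mul_sum, sum_const, sum_const, card_univ, nsmul_eq_mul, nsmul_eq_mul] at k5
  nlinarith

/-- forget the value `h` -/
def ers (h : H) (σ : ι → Option H) : ι → Option H := fun i => if σ i = some h then none else σ i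

lemma W_ers (π : ι → ℝ) (c : (ι → Option H) → ℝ) (h : H) (s : ι → Option H)
    (hs : ∀ i, s i ≠ some h) :
    W π c s = W π (fun τ => ∑ σ ∈ univ.filter (fun σ => ers h σ = τ), c σ) s := by
  simp only [W, sum_mul]
  rw [← sum_fiberwise univ (ers h)]
  refine sum_congr rfl fun τ _ => sum_congr rfl fun σ hσ => ?_
  rw [← (mem_filter.1 hσ).2]
  congr 1
  refine prod_congr rfl fun i _ => ?_
  by_cases e : σ i = some h
  · simp [ers, psi, e, hs i]
  · simp [ers, e]

lemma sum_ers (G : Finset ι → ℝ) (hG : G ∅ = 1) (l : ι → ℝ) (L : ℝ) (h : H) (τ : ι → Option H)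
    (hτ : ∀ i, τ i ≠ some h) :
    ∑ σ ∈ univ.filter (fun σ => ers h σ = τ), (if tot l σ ≤ L then ∏ k, G (fib σ k) else 0) =
      (∏ k, G (fib τ k)) * ∑ T : Finset ι,
        if (∀ i ∈ T, τ i = none) ∧ tot l τ + ∑ i ∈ T, l i ≤ L then G T else 0 := by
  have e0 : ∀ T : Finset ι, (if (∀ i ∈ T, τ i = none) ∧ tot l τ + ∑ i ∈ T, l i ≤ L then G T else 0)
      = if (∀ i ∈ T, τ i = none) then (if tot l τ + ∑ i ∈ T, l i ≤ L then G T else 0) else 0 :=
    fun T => by rw [ite_and]
  rw [sum_congr rfl fun T _ => e0 T,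
    ← sum_filter (p := fun T : Finset ι => ∀ i ∈ T, τ i = none), mul_sum]
  have f0 : fib τ h = ∅ := eq_empty_of_forall_notMem fun i hi => hτ i (mem_fib.1 hi)
  refine sum_nbij' (fun σ => fib σ h) (fun T i => if i ∈ T then some h else τ i) ?_ ?_ ?_ ?_ ?_
  · intro σ hσ
    simp only [mem_filter, mem_univ, true_and, mem_fib] at hσ ⊢
    intro i hi
    rw [← hσ]
    simp [ers, hi]
  · intro T hT
    simp only [mem_filter, mem_univ, true_and] at hT ⊢
    funext i
    by_cases e : i ∈ T
    · simp [ers, e, hT i e]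
    · simp [ers, e, hτ i]
  · intro σ hσ
    simp only [mem_filter, mem_univ, true_and] at hσ
    funext i
    by_cases e : σ i = some h
    · simp [e]
    · simp [e, ← hσ, ers]
  · intro T _
    ext i
    by_cases e : i ∈ T <;> simp [e, hτ i]
  · intro σ hσ
    simp only [mem_filter, mem_univ, true_and] at hσ
    have f1 : ∀ k ∈ univ.erase h, fib σ k = fib τ k := by
      intro k hk
      ext i
      rw [mem_fib, mem_fib, ← hσ]
      by_cases e : σ i = some h
      · simp [ers, e, (ne_of_mem_erase hk).symm]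
      · simp [ers, e]
    have f2 : tot l σ = tot l τ + ∑ i ∈ fib σ h, l i := by
      rw [← sum_fib, ← sum_fib, ← add_sum_erase _ (fun k => ∑ i ∈ fib σ k, l i) (mem_univ h),
        ← add_sum_erase _ (fun k => ∑ i ∈ fib τ k, l i) (mem_univ h), f0, sum_empty, zero_add,
        add_comm]
      congr 1
      exact sum_congr rfl fun k hk => by rw [f1 k hk]
    have f3 : ∏ k, G (fib σ k) = (∏ k, G (fib τ k)) * G (fib σ h) := by
      rw [← mul_prod_erase _ (fun k => G (fib σ k)) (mem_univ h),
        ← mul_prod_erase _ (fun k => G (fib τ k)) (mem_univ h), f0, hG, one_mul, mul_comm]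
      congr 1
      exact prod_congr rfl fun k hk => by rw [f1 k hk]
    rw [f2, f3, mul_ite, mul_zero]

lemma sum_ers_zero (c : (ι → Option H) → ℝ) (h : H) (τ : ι → Option H) (hτ : ¬∀ i, τ i ≠ some h) :
    ∑ σ ∈ univ.filter (fun σ => ers h σ = τ), c σ = 0 := by
  refine sum_eq_zero fun σ hσ => (hτ fun i => ?_).elim
  rw [← (mem_filter.1 hσ).2]
  by_cases e : σ i = some h <;> simp [ers, e]

end Core

end Pool.Agent.MP_c5bf7b_nt.H98
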