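import Pool.Agent.MP_c5bf7b_nt.H98.Core2

/-! The one dimensional weight and the estimates for it. -/

set_option autoImplicit false
set_option linter.unusedSectionVars false

namespace Pool.Agent.MP_c5bf7b_nt.H98

open Finset

namespace Core

variable {ι H : Type} [Fintype ι] [Fintype H] [DecidableEq ι] [DecidableEq H]

/-- the one dimensional weight -/
noncomputable def gg (l : ι → ℝ) (b Z : ℝ) (T : Finset ι) : ℝ :=
  if T = ∅ then 1 else if ∑ i ∈ T, l i ≤ Z then -(b / ∑ i ∈ T, l i) else 0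

/-- standing assumptions -/
structure Std (π l : ι → ℝ) (l0 b Z : ℝ) : Prop where
  p0 : ∀ i, 0 < π i
  p1 : ∀ i, π i ≤ 1 / 2
  l1 : ∀ i, l0 ≤ l i
  l0p : 0 < l0
  Zp : 0 < Z
  b0 : 0 < b
  b1 : b ≤ l0
  bS : b * Ssum π l Z = 1

namespace Std

variable {π l : ι → ℝ} {l0 b Z : ℝ} (h : Std π l l0 b Z)
include h

lemma q0 (i : ι) : 0 < 1 - π i := by linarith [h.p1 i]

lemma w0 (i : ι) : 0 < π i / (1 - π i) := div_pos (h.p0 i) (h.q0 i)

lemma w1 (i : ι) : π i / (1 - π i) ≤ 2 * π i := by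
  rw [div_le_iff₀ (h.q0 i)]
  nlinarith [h.p0 i, h.p1 i]

lemma wt0 (T : Finset ι) : 0 < wt π T := prod_pos fun i _ => h.w0 i

lemma len0 (T : Finset ι) : 0 ≤ ∑ i ∈ T, l i := sum_nonneg fun i _ => h.l0p.le.trans (h.l1 i)

lemma len1 {T : Finset ι} (hT : T ≠ ∅) : l0 ≤ ∑ i ∈ T, l i := by
  obtain ⟨i, hi⟩ := nonempty_iff_ne_empty.2 hT
  exact (h.l1 i).trans (single_le_sum (fun j _ => h.l0p.le.trans (h.l1 j)) hi)

lemma g1 (T : Finset ι) : |gg l b Z T| ≤ 1 := by
  unfold gg
  split_ifs with a1 a2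
  · simp
  · have := h.len1 a1
    have p := h.l0p
    rw [abs_neg, abs_of_pos (div_pos h.b0 (by linarith)), div_le_one (by linarith)]
    linarith [h.b1]
  · simp

lemma sumS (f : Finset ι → ℝ) (x y : ℝ) (hf : ∀ T, f T = (if T = ∅ then x else 0) +
    y * (b * if T ≠ ∅ ∧ ∑ i ∈ T, l i ≤ Z then wt π T / ∑ i ∈ T, l i else 0)) :
    ∑ T, f T = x + y := by
  rw [sum_congr rfl fun T _ => hf T, sum_add_distrib, ← mul_sum, ← mul_sum, ← sum_filter,
    ← sum_filter]
  have := h.bS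
  rw [Ssum] at this
  rw [this, filter_eq']
  simp

lemma sum0 : ∑ T, gg l b Z T * wt π T = 0 := by
  rw [h.sumS _ 1 (-1) fun T => ?_, add_neg_cancel]
  unfold gg
  by_cases a1 : T = ∅
  · simp [a1, wt]
  · by_cases a2 : ∑ i ∈ T, l i ≤ Z
    · simp only [a1, a2, if_true, if_false, ne_eq, not_false_eq_true, and_self]
      ring
    · simp [a1, a2]

lemma sum2 : ∑ T, |gg l b Z T| * wt π T = 2 := by
  rw [h.sumS _ 1 1 fun T => ?_, one_add_one_eq_two]
  unfold gg
  by_cases a1 : T = ∅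
  · simp [a1, wt]
  · by_cases a2 : ∑ i ∈ T, l i ≤ Z
    · simp only [a1, a2, if_true, if_false, ne_eq, not_false_eq_true, and_self]
      rw [abs_neg, abs_of_nonneg (div_nonneg h.b0.le (h.len0 T))]
      ring
    · simp [a1, a2]

lemma suml : ∑ T, gg l b Z T ^ 2 * wt π T * ∑ i ∈ T, l i = b := by
  rw [h.sumS _ 0 b fun T => ?_, zero_add]
  unfold gg
  by_cases a1 : T = ∅
  · simp [a1]
  · by_cases a2 : ∑ i ∈ T, l i ≤ Z
    · simp only [a1, a2, if_true, if_false, ne_eq, not_false_eq_true, and_self]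
      have := (h.l0p.trans_le (h.len1 a1)).ne'
      field_simp
      ring
    · simp [a1, a2]

lemma g_erase {T : Finset ι} {i : ι} (hi : i ∈ T) : |gg l b Z T| ≤ |gg l b Z (T.erase i)| := by
  by_cases a1 : T.erase i = ∅
  · rw [a1]
    simpa [gg] using h.g1 T
  · have e := add_sum_erase T l hi
    have p := h.l0p
    have p1 := h.l1 i
    have p2 := h.len1 a1
    unfold gg
    rw [if_neg a1, if_neg (ne_empty_of_mem hi)]
    split_ifs with a2 a3
    · rw [abs_neg, abs_neg, abs_of_nonneg (div_nonneg h.b0.le (h.len0 _)),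
        abs_of_nonneg (div_nonneg h.b0.le (h.len0 _))]
      exact div_le_div_of_nonneg_left h.b0.le (by linarith) (by linarith)
    · exact (a3 (by linarith)).elim
    · simp
    · simp

lemma del (i : ι) : ∑ T, (if i ∈ T then |gg l b Z T| * wt π T else 0) ≤ 4 * π i := by
  have k1 : ∀ T ∈ univ.filter (fun T : Finset ι => i ∈ T), |gg l b Z T| * wt π T ≤
      π i / (1 - π i) * (|gg l b Z (T.erase i)| * wt π (T.erase i)) := by
    intro T hT
    have hi := (mem_filter.1 hT).2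
    have : wt π T = π i / (1 - π i) * wt π (T.erase i) :=
      (mul_prod_erase T (fun i => π i / (1 - π i)) hi).symm
    rw [this, mul_left_comm]
    exact mul_le_mul_of_nonneg_left (mul_le_mul_of_nonneg_right (h.g_erase hi) (h.wt0 _).le)
      (h.w0 i).le
  rw [← sum_filter]
  refine (sum_le_sum k1).trans ?_
  rw [← mul_sum, ← sum_image (g := fun T : Finset ι => T.erase i)
    (f := fun T => |gg l b Z T| * wt π T) fun T hT T' hT' e => by
      rw [← insert_erase (mem_filter.1 hT).2, ← insert_erase (mem_filter.1 hT').2]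
      exact congrArg _ e]
  have k2 := sum_le_sum_of_subset_of_nonneg (f := fun T => |gg l b Z T| * wt π T)
    (subset_univ ((univ.filter fun T : Finset ι => i ∈ T).image fun T => T.erase i))
    fun T _ _ => mul_nonneg (abs_nonneg _) (h.wt0 T).le
  rw [h.sum2] at k2
  nlinarith [h.w0 i, h.w1 i]

lemma cnt {σ : ι → Option H} {L x : ℝ} (hσ : tot l σ ≤ L) (hx : 0 ≤ x) :
    (∑ i, if σ i = none then 0 else x) ≤ x * L / l0 := by
  rw [le_div_iff₀ h.l0p, sum_mul]
  refine le_trans ?_ (mul_le_mul_of_nonneg_left hσ hx)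
  rw [tot, mul_sum]
  refine sum_le_sum fun i _ => ?_
  split_ifs
  · simp
  · exact mul_le_mul_of_nonneg_left (h.l1 i) hx

lemma tot0 (σ : ι → Option H) : 0 ≤ tot l σ := sum_nonneg fun i _ => by
  split_ifs
  · exact le_rfl
  · exact h.l0p.le.trans (h.l1 i)

lemma u0 (T : Finset ι) : 0 ≤ gg l b Z T ^ 2 * wt π T := mul_nonneg (sq_nonneg _) (h.wt0 T).le

lemma u1 (T : Finset ι) : gg l b Z T ^ 2 * wt π T ≤ |gg l b Z T| * wt π T := by
  refine mul_le_mul_of_nonneg_right ?_ (h.wt0 T).le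
  rw [← sq_abs]
  nlinarith [h.g1 T, abs_nonneg (gg l b Z T)]

lemma Zu1 : 1 ≤ ∑ T, gg l b Z T ^ 2 * wt π T := by
  simpa [gg, wt] using single_le_sum (f := fun T => gg l b Z T ^ 2 * wt π T)
    (fun T _ => h.u0 T) (mem_univ ∅)

lemma tail (h4 : 32 * (Fintype.card H : ℝ) ^ 2 * ∑ i, π i ^ 2 ≤ 1) (L : ℝ) :
    ∑ σ : ι → Option H, (if L < tot l σ then ∏ k, gg l b Z (fib σ k) ^ 2 * wt π (fib σ k) else 0) ≤
      2 * Real.exp ((2 * Fintype.card H * b - L) / Z) *
        ∑ σ : ι → Option H, ∏ k, gg l b Z (fib σ k) ^ 2 * wt π (fib σ k) := by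
  set u : Finset ι → ℝ := fun T => gg l b Z T ^ 2 * wt π T with hu
  have Zp := h.Zp
  have k1 := low (H := H) u h.u0 h.Zu1
  have k2 : ∑ i, (∑ T, if i ∈ T then u T else 0) ^ 2 ≤ 16 * ∑ i, π i ^ 2 := by
    rw [mul_sum]
    refine sum_le_sum fun i _ => ?_
    have a1 : (∑ T, if i ∈ T then u T else 0) ≤ 4 * π i :=
      (sum_le_sum fun T _ => by
        split_ifs
        · exact h.u1 T
        · exact le_rfl).trans (h.del i)
    have a2 : 0 ≤ ∑ T, if i ∈ T then u T else 0 := sum_nonneg fun T _ => by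
      split_ifs
      · exact h.u0 T
      · exact le_rfl
    nlinarith
  have z0 : 0 ≤ ∑ T, u T := zero_le_one.trans h.Zu1
  have k3 : (∑ T, u T) ^ Fintype.card H ≤ 2 * ∑ σ : ι → Option H, ∏ k, u (fib σ k) := by
    have a1 := mul_le_mul_of_nonneg_left k2 (sq_nonneg (Fintype.card H : ℝ))
    have a2 := mul_le_mul_of_nonneg_left (show 1 / 2 ≤ 1 - (Fintype.card H : ℝ) ^ 2 *
      ∑ i, (∑ T, if i ∈ T then u T else 0) ^ 2 by linarith) (pow_nonneg z0 (Fintype.card H))
    linarith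
  have k4 : ∑ T, u T * Real.exp ((∑ i ∈ T, l i) / Z) ≤ (∑ T, u T) * Real.exp (2 * b / Z) := by
    have a1 : ∀ T, u T * Real.exp ((∑ i ∈ T, l i) / Z) ≤ u T + 2 / Z * (u T * ∑ i ∈ T, l i) := by
      intro T
      by_cases a2 : ∑ i ∈ T, l i ≤ Z
      · have x0 : 0 ≤ (∑ i ∈ T, l i) / Z := div_nonneg (h.len0 T) Zp.le
        have x1 : (∑ i ∈ T, l i) / Z ≤ 1 := (div_le_one Zp).2 a2
        have x2 := (abs_le.1 (Real.abs_exp_sub_one_le (x := (∑ i ∈ T, l i) / Z)
          (by rwa [abs_of_nonneg x0]))).2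
        rw [abs_of_nonneg x0] at x2
        have := mul_le_mul_of_nonneg_left x2 (h.u0 T)
        have e : 2 / Z * (u T * ∑ i ∈ T, l i) = u T * (2 * ((∑ i ∈ T, l i) / Z)) := by ring
        rw [e]
        simp only [hu]
        linarith
      · have : T ≠ ∅ := by
          rintro rfl
          exact a2 (by simpa using Zp.le)
        simp [hu, gg, this, a2]
    refine (sum_le_sum fun T _ => a1 T).trans ?_
    rw [sum_add_distrib, ← mul_sum, h.suml]
    have a2 := Real.add_one_le_exp (2 * b / Z)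
    have a3 : 0 ≤ 2 * b / Z := div_nonneg (by linarith [h.b0]) Zp.le
    have a4 := h.Zu1
    have e : 2 / Z * b = 2 * b / Z := by ring
    rw [e]
    nlinarith
  have k5 := up (H := H) (fun T => u T * Real.exp ((∑ i ∈ T, l i) / Z))
    fun T => mul_nonneg (h.u0 T) (Real.exp_pos _).le
  have k6 : ∀ σ : ι → Option H, (if L < tot l σ then ∏ k, u (fib σ k) else 0) ≤
      Real.exp (-L / Z) * ∏ k, u (fib σ k) * Real.exp ((∑ i ∈ fib σ k, l i) / Z) := by
    intro σ
    have a0 : 0 ≤ ∏ k, u (fib σ k) := prod_nonneg fun k _ => h.u0 _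
    rw [prod_mul_distrib (f := fun k => u (fib σ k)), ← Real.exp_sum, ← sum_div, sum_fib,
      mul_left_comm, ← Real.exp_add]
    split_ifs with a1
    · refine le_mul_of_one_le_right a0 (Real.one_le_exp ?_)
      rw [← add_div]
      exact div_nonneg (by linarith) Zp.le
    · positivity
  refine (sum_le_sum fun σ _ => k6 σ).trans ?_
  rw [← mul_sum]
  have k7 := k5.trans (pow_le_pow_left₀ (sum_nonneg fun T _ =>
    mul_nonneg (h.u0 T) (Real.exp_pos _).le) k4 (Fintype.card H))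
  rw [mul_pow, ← Real.exp_nat_mul] at k7
  have e : Real.exp ((2 * Fintype.card H * b - L) / Z) =
      Real.exp (-L / Z) * Real.exp (Fintype.card H * (2 * b / Z)) := by
    rw [← Real.exp_add]
    congr 1
    ring
  refine (mul_le_mul_of_nonneg_left (k7.trans (mul_le_mul_of_nonneg_right k3
    (Real.exp_pos _).le)) (Real.exp_pos _).le).trans (le_of_eq ?_)
  rw [e]
  ring

lemma gam2 (P : Finset ι → Prop) [DecidablePred P] :
    |∑ T, if P T then gg l b Z T * wt π T else 0| ≤ 2 := by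
  rw [← h.sum2]
  refine (abs_sum_le_sum_abs _ _).trans (sum_le_sum fun T _ => ?_)
  split_ifs
  · rw [abs_mul, abs_of_pos (h.wt0 T)]
  · simpa using mul_nonneg (abs_nonneg _) (h.wt0 T).le

lemma gam1 {τ : ι → Option H} {L w0 : ℝ} (hw : ∀ i, π i ≤ w0) (hw0 : 0 ≤ w0)
    (hτ : tot l τ ≤ L - Z) :
    |∑ T : Finset ι, if (∀ i ∈ T, τ i = none) ∧ tot l τ + ∑ i ∈ T, l i ≤ L then
      gg l b Z T * wt π T else 0| ≤ 4 * w0 * L / l0 := by
  have k1 : ∀ T : Finset ι, |(if (∀ i ∈ T, τ i = none) ∧ tot l τ + ∑ i ∈ T, l i ≤ L then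
      gg l b Z T * wt π T else 0) - gg l b Z T * wt π T| ≤
      ∑ i, if τ i = none then 0 else if i ∈ T then |gg l b Z T| * wt π T else 0 := by
    intro T
    have p0 : ∀ i, 0 ≤ if τ i = none then 0 else if i ∈ T then |gg l b Z T| * wt π T else 0 := by
      intro i
      split_ifs
      · exact le_rfl
      · exact mul_nonneg (abs_nonneg _) (h.wt0 T).le
      · exact le_rfl
    by_cases a1 : ∀ i ∈ T, τ i = none
    · refine le_trans (le_of_eq ?_) (sum_nonneg fun i _ => p0 i)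
      by_cases a2 : ∑ i ∈ T, l i ≤ Z
      · rw [if_pos ⟨a1, by linarith⟩, sub_self, abs_zero]
      · have : T ≠ ∅ := by
          rintro rfl
          exact a2 (by simpa using h.Zp.le)
        simp [gg, this, a2]
    · rw [if_neg fun x => a1 x.1]
      push Not at a1
      obtain ⟨i, b1, b2⟩ := a1
      refine le_trans (le_of_eq ?_) (single_le_sum (fun i _ => p0 i) (mem_univ i))
      rw [if_neg b2, if_pos b1, zero_sub, abs_neg, abs_mul, abs_of_pos (h.wt0 T)]
  have k2 := (abs_sum_le_sum_abs _ _).trans (sum_le_sum (s := univ) fun T _ => k1 T)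
  rw [sum_sub_distrib, h.sum0, sub_zero, sum_comm] at k2
  refine k2.trans (le_trans (sum_le_sum fun i _ => ?_)
    (h.cnt (σ := τ) (x := 4 * w0) (by linarith [h.Zp]) (by linarith)))
  split_ifs
  · simp
  · linarith [h.del i, hw i]

end Std

end Core

end Pool.Agent.MP_c5bf7b_nt.H98
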