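import Pool.Agent.MP_c5bf7b_nt.H98.FewB

/-! The least prime in a progression for moduli with few prime factors. -/

set_option autoImplicit false

namespace Pool.Agent.MP_c5bf7b_nt.H98

open Finset LeastA

namespace FewA

theorem lin_le_exp (ε K : ℝ) (hε : 0 < ε) : ∃ M : ℝ, ∀ m : ℝ, M ≤ m →
    K * (m + 1) ≤ Real.exp (ε * m) := by
  refine ⟨4 * |K| / ε ^ 2 + 1, fun m hm => ?_⟩
  have k0 : 0 ≤ 4 * |K| / ε ^ 2 := by positivity
  have m1 : 1 ≤ m := by linarith
  have h1 := Real.quadratic_le_exp_of_nonneg (x := ε * m) (by positivity)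
  have h2 : 4 * |K| ≤ m * ε ^ 2 := by
    rw [← div_le_iff₀ (by positivity)]
    linarith
  have h3 : K * (m + 1) ≤ |K| * (2 * m) :=
    mul_le_mul (le_abs_self K) (by linarith) (by linarith) (abs_nonneg K)
  have h4 : 0 ≤ ε * m := by positivity
  nlinarith [mul_le_mul_of_nonneg_right h2 (show 0 ≤ m by linarith)]

theorem num_main (δ c E α X L l m r N P1 Pw PP lY A : ℝ) (hc : 0 < c) (hE : 0 < E)
    (hcδ : 144 * c * E = δ) (hα : 3 / 8 ≤ α) (hX : 3 ≤ δ * X) (X0 : 0 < X) (L0 : 0 < L)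
    (l0 : 0 < l) (m0 : 0 < m) (N0 : 0 ≤ N) (P0 : 0 ≤ P1) (Pw1 : 1 ≤ Pw)
    (A0 : 0 ≤ A) (PP0 : 0 ≤ PP)
    (hN : N ≤ 2 * (c * r * X * (L ^ 2 * m / l ^ 2))) (hY : L / 2 ≤ lY)
    (hd : r * Pw * P1 ≤ E * (3 * l / (α * L * m / l))) (hA : L * (A * PP) ≤ 1) :
    1 + (Real.log 4 * N / lY * Pw + N * A * PP) * P1 ≤ δ * X := by
  have l4 : Real.log 4 ≤ 3 / 2 := by
    rw [show (4 : ℝ) = 2 ^ 2 by norm_num, Real.log_pow]
    have := Real.log_two_lt_d9
    push_cast
    linarith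
  have l40 : 0 < Real.log 4 := Real.log_pos (by norm_num)
  have α0 : 0 < α := by linarith
  have k1 : N * (Pw * P1) ≤ 16 * (c * E * X) * L := by
    have a1 : N * (Pw * P1) ≤ 2 * (c * r * X * (L ^ 2 * m / l ^ 2)) * (Pw * P1) :=
      mul_le_mul_of_nonneg_right hN (by positivity)
    have a2 : 2 * (c * r * X * (L ^ 2 * m / l ^ 2)) * (Pw * P1) =
        2 * (c * X * (L ^ 2 * m / l ^ 2)) * (r * Pw * P1) := by ring
    have a3 : 2 * (c * X * (L ^ 2 * m / l ^ 2)) * (r * Pw * P1) ≤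
        2 * (c * X * (L ^ 2 * m / l ^ 2)) * (E * (3 * l / (α * L * m / l))) :=
      mul_le_mul_of_nonneg_left hd (by positivity)
    have a4 : 2 * (c * X * (L ^ 2 * m / l ^ 2)) * (E * (3 * l / (α * L * m / l))) =
        6 / α * (c * E * X * L) := by field_simp; ring
    have a5 : 6 / α ≤ 16 := by rw [div_le_iff₀ α0]; linarith
    have a6 : 6 / α * (c * E * X * L) ≤ 16 * (c * E * X * L) :=
      mul_le_mul_of_nonneg_right a5 (by positivity)
    linarith
  have lY0 : 0 < lY := by linarith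
  have cEX : 0 < c * E * X := by positivity
  have k2 : Real.log 4 * N / lY * Pw * P1 ≤ 48 * (c * E * X) := by
    have a1 : Real.log 4 * N / lY * Pw * P1 = Real.log 4 * (N * (Pw * P1)) / lY := by ring
    rw [a1, div_le_iff₀ lY0]
    have a2 : Real.log 4 * (N * (Pw * P1)) ≤ 3 / 2 * (16 * (c * E * X) * L) :=
      mul_le_mul l4 k1 (by positivity) (by norm_num)
    nlinarith [mul_le_mul_of_nonneg_left hY cEX.le]
  have k3 : N * A * PP * P1 ≤ 16 * (c * E * X) := by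
    have a1 : N * P1 ≤ N * (Pw * P1) :=
      mul_le_mul_of_nonneg_left (le_mul_of_one_le_left P0 Pw1) N0
    have a2 : N * A * PP * P1 = N * P1 * (A * PP) := by ring
    have a3 : N * P1 * (A * PP) ≤ 16 * (c * E * X) * L * (A * PP) :=
      mul_le_mul_of_nonneg_right (a1.trans k1) (by positivity)
    have a4 : 16 * (c * E * X) * (L * (A * PP)) ≤ 16 * (c * E * X) * 1 :=
      mul_le_mul_of_nonneg_left hA (by positivity)
    linarith
  have k4 : δ * X = 144 * (c * E * X) := by rw [← hcδ]; ring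
  linarith

theorem num_rank (δ α θ X L l m N Z η : ℝ) (hδ : 0 < δ) (eX : Real.exp L = X)
    (eL : Real.exp l = L) (el : Real.exp m = l) (θ1 : θ ≤ 1) (θ0 : 0 ≤ θ)
    (m0 : 0 ≤ m) (η0 : 0 ≤ η) (η1 : η ≤ 1) (e1 : η * Z = θ * m) (e2 : η * L = θ / α * l)
    (hZ : 1 + Z ≤ L) (hN : δ * X ≤ N)
    (hm : (8 * Real.exp 1 + 7 + |Real.log δ|) * (m + 1) ≤
      (θ / α - 2) * Real.exp ((1 - θ) * m)) :
    L * (N ^ (-η) * ((1 + Z) * Real.exp (8 * ((η * Z + 1) * Real.exp (η * Z + 1)) + 7))) ≤ 1 := by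
  have X0 : 0 < X := eX ▸ Real.exp_pos _
  have L0 : 0 < L := eL ▸ Real.exp_pos _
  have a1 : N ^ (-η) ≤ Real.exp (|Real.log δ| - θ / α * l) := by
    refine (Real.rpow_le_rpow_of_nonpos (by positivity) hN (by linarith)).trans ?_
    rw [Real.rpow_def_of_pos (by positivity), Real.log_mul hδ.ne' X0.ne', ← eX, Real.log_exp,
      Real.exp_le_exp]
    have b1 := neg_abs_le (Real.log δ)
    have b2 := abs_nonneg (Real.log δ)
    nlinarith
  have t1 : 1 ≤ Real.exp (θ * m) := Real.one_le_exp (by positivity)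
  have a2 : 8 * ((η * Z + 1) * Real.exp (η * Z + 1)) + 7 + |Real.log δ| ≤ (θ / α - 2) * l := by
    rw [e1, Real.exp_add]
    have b1 : l = Real.exp ((1 - θ) * m) * Real.exp (θ * m) := by
      rw [← Real.exp_add, ← el]
      congr 1
      ring
    have b2 := mul_le_mul_of_nonneg_right hm (Real.exp_pos (θ * m)).le
    rw [mul_assoc (θ / α - 2), ← b1] at b2
    refine le_trans ?_ b2
    have b3 : θ * m + 1 ≤ m + 1 := by nlinarith
    have b4 : 1 ≤ (m + 1) * Real.exp (θ * m) := one_le_mul_of_one_le_of_one_le (by linarith) t1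
    have b5 : (θ * m + 1) * (Real.exp (θ * m) * Real.exp 1) ≤
        (m + 1) * (Real.exp (θ * m) * Real.exp 1) :=
      mul_le_mul_of_nonneg_right b3 (by positivity)
    have b6 := mul_le_mul_of_nonneg_left b4 (show 0 ≤ 7 + |Real.log δ| by positivity)
    nlinarith
  generalize 8 * ((η * Z + 1) * Real.exp (η * Z + 1)) + 7 = G at a2
  calc L * (N ^ (-η) * ((1 + Z) * Real.exp G))
      ≤ L * (Real.exp (|Real.log δ| - θ / α * l) * (L * Real.exp G)) := by
        refine mul_le_mul_of_nonneg_left ?_ L0.le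
        by_cases hz : 0 ≤ 1 + Z
        · exact mul_le_mul a1 (mul_le_mul_of_nonneg_right hZ (Real.exp_pos _).le)
            (by positivity) (Real.exp_pos _).le
        · have : 0 < N := lt_of_lt_of_le (by positivity) hN
          refine le_trans (mul_nonpos_of_nonneg_of_nonpos (by positivity)
            (mul_nonpos_of_nonpos_of_nonneg (not_le.1 hz).le (Real.exp_pos _).le)) (by positivity)
    _ = Real.exp (l + (|Real.log δ| - θ / α * l + (l + G))) := by
        rw [Real.exp_add, Real.exp_add, Real.exp_add, eL]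
    _ ≤ 1 := Real.exp_le_one_iff.2 (by linarith)

theorem num_par (k α θ L l m Z η : ℝ) (k2 : 1 / 4 ≤ k) (k3 : k < 1 / 2)
    (hα : α = (k + 1 / 2) / 2) (hθ : θ = α + 1 / 2) (m1 : 1 ≤ m) (ml : m ≤ l)
    (eL : Real.exp l = L) (s1 : (12 + 3 / (α - k)) * (l + 1) ≤ Real.exp (1 / 2 * l))
    (hZ : Z = α * L * m / l) (hη : η = θ * l / (α * L)) :
    0 ≤ η ∧ η * Z = θ * m ∧ η * L = θ / α * l ∧ η ≤ 1 / 4 ∧ k ≤ α * (1 - η) ∧ 3 * l ≤ Z ∧
      Z ≤ L / 2 := by
  have L0 : 0 < L := eL ▸ Real.exp_pos _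
  have l0 : 0 < l := by linarith
  have m0 : 0 < m := by linarith
  have α0 : 0 < α := by linarith
  have ak : 0 < α - k := by linarith
  have s2 : Real.exp (1 / 2 * l) * Real.exp (1 / 2 * l) = L := by
    rw [← Real.exp_add, ← eL]
    congr 1
    ring
  have s3 : 1 ≤ Real.exp (1 / 2 * l) := Real.one_le_exp (by positivity)
  have s4 : 0 < 3 / (α - k) := by positivity
  have s7 : 0 < 3 / (α - k) * l := by positivity
  have s8 : Real.exp (1 / 2 * l) ≤ L := by
    rw [← s2]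
    exact le_mul_of_one_le_left (by linarith) s3
  have s9 : 12 * l + 3 / (α - k) * l ≤ Real.exp (1 / 2 * l) := by linarith
  have s6 : 8 * l ^ 2 ≤ L := by
    have a1 : 12 * l * (12 * l) ≤ Real.exp (1 / 2 * l) * Real.exp (1 / 2 * l) :=
      mul_self_le_mul_self (by positivity) (by linarith)
    have a2 : 0 ≤ l ^ 2 := by positivity
    linarith
  have θ0 : 0 < θ := by linarith
  have η0 : 0 ≤ η := by rw [hη]; positivity
  have e1 : η * Z = θ * m := by rw [hη, hZ]; field_simp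
  have e2 : η * L = θ / α * l := by rw [hη]; field_simp
  have η1 : η * L ≤ 3 * l := by
    rw [e2]
    refine mul_le_mul_of_nonneg_right ?_ l0.le
    rw [div_le_iff₀ α0]
    linarith
  have η2 : η ≤ 1 / 4 := by
    refine le_of_mul_le_mul_right ?_ L0
    linarith
  have η3 : η ≤ α - k := by
    refine le_of_mul_le_mul_right ?_ L0
    have a1 : 3 / (α - k) * l ≤ L := by linarith
    have a2 := mul_le_mul_of_nonneg_left a1 ak.le
    have a3 : (α - k) * (3 / (α - k) * l) = 3 * l := by field_simp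
    linarith
  have η4 : α * η ≤ 1 * η := mul_le_mul_of_nonneg_right (by linarith) η0
  refine ⟨η0, e1, e2, η2, by linarith, ?_, ?_⟩
  · rw [hZ, le_div_iff₀ l0]
    have a1 : 3 / 8 * L ≤ α * L := mul_le_mul_of_nonneg_right (by linarith) L0.le
    have a2 : α * L * 1 ≤ α * L * m := mul_le_mul_of_nonneg_left m1 (by positivity)
    linarith
  · rw [hZ, div_le_iff₀ l0]
    have a1 : α * L ≤ 1 / 2 * L := mul_le_mul_of_nonneg_right (by linarith) L0.le
    exact mul_le_mul (by linarith) ml m0.le (by positivity)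

theorem num_size (c r X L l m N : ℝ) (hc : 0 < c) (r1 : r ≤ 1) (m1 : 1 ≤ m)
    (ml : m ≤ l) (hL : 32 * (c + 1) ≤ L) (eX : Real.exp L = X)
    (n2 : N ≤ c * r * X * (L ^ 2 * m / l ^ 2) + 1) :
    N ≤ X ^ 4 ∧ N ≤ X / 16 * (L ^ 3 / 2) ∧ Real.exp (L / 2) ≤ X / 16 := by
  have LX : L ≤ X := by have := Real.add_one_le_exp L; linarith
  have L0 : 0 < L := by linarith
  have X0 : 0 < X := by linarith
  have l0 : 0 < l := by linarith
  have F1 : L ^ 2 * m / l ^ 2 ≤ L ^ 2 := by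
    rw [div_le_iff₀ (by positivity)]
    exact mul_le_mul_of_nonneg_left (by nlinarith) (by positivity)
  have XL : 1 ≤ X * L ^ 2 :=
    one_le_mul_of_one_le_of_one_le (by linarith) (one_le_pow₀ (by linarith))
  have n3 : N ≤ (c + 1) * (X * L ^ 2) := by
    have : c * r * X * (L ^ 2 * m / l ^ 2) ≤ c * 1 * X * L ^ 2 := by gcongr
    have := mul_le_mul_of_nonneg_left XL zero_le_one
    linarith
  refine ⟨?_, ?_, ?_⟩
  · have : (c + 1) * (X * L ^ 2) ≤ X * (X * X ^ 2) := by gcongr; linarith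
    linarith
  · have a2 : (c + 1) * (X * L ^ 2) ≤ L / 32 * (X * L ^ 2) :=
      mul_le_mul_of_nonneg_right (by linarith) (by positivity)
    linarith
  · have hq := Real.add_one_le_exp (L / 2)
    have eh : Real.exp (L / 2) * Real.exp (L / 2) = X := by
      rw [← Real.exp_add, ← eX]
      congr 1
      ring
    have : 16 * Real.exp (L / 2) ≤ Real.exp (L / 2) * Real.exp (L / 2) :=
      mul_le_mul_of_nonneg_right (by linarith) (Real.exp_pos _).le
    linarith

end FewA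

open FewA in
theorem few (hT : STStmt) (hM : MertOneStmt) (hU : UnitStmt) (hG : GreedyStmt) (κ : ℝ)
    (hκ : κ < 1 / 2) :
    ∃ c : ℝ, 0 < c ∧ ∃ B : ℕ, ∀ b : ℕ, B ≤ b →
      (b.primeFactors.card : ℝ) ≤ Real.exp (κ * (Real.log (Real.log b) *
        Real.log (Real.log (Real.log (Real.log b))) / Real.log (Real.log (Real.log b)))) →
      ∃ a : ℕ, 1 ≤ a ∧ a < b ∧ Nat.Coprime a b ∧ ∀ p : ℕ, p.Prime → p ≡ a [MOD b] →
        c * (b.totient : ℝ) * Real.log b * (Real.log (Real.log b) ^ 2 *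
          Real.log (Real.log (Real.log (Real.log b))) /
            Real.log (Real.log (Real.log b)) ^ 2) < p := by
  obtain ⟨δ, X1, hδ, hR⟩ := red hT hM hU
  obtain ⟨C0, hM⟩ := hM
  have hE : 0 < Real.exp C0 := Real.exp_pos _
  obtain ⟨c, hc, hcδ⟩ : ∃ c : ℝ, 0 < c ∧ 144 * c * Real.exp C0 = δ :=
    ⟨δ / (144 * Real.exp C0), by positivity, by field_simp⟩
  obtain ⟨k, k1, k2, k3⟩ : ∃ k : ℝ, κ ≤ k ∧ 1 / 4 ≤ k ∧ k < 1 / 2 :=
    ⟨max κ (1 / 4), le_max_left _ _, le_max_right _ _, max_lt hκ (by norm_num)⟩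
  obtain ⟨α, hα⟩ : ∃ α : ℝ, α = (k + 1 / 2) / 2 := ⟨_, rfl⟩
  obtain ⟨θ, hθ⟩ : ∃ θ : ℝ, θ = α + 1 / 2 := ⟨_, rfl⟩
  have α0 : 0 < α := by linarith
  have γ0 : 0 < θ / α - 2 := by rw [sub_pos, lt_div_iff₀ α0]; linarith
  obtain ⟨M1, hM1⟩ := lin_le_exp (1 - θ) ((8 * Real.exp 1 + 7 + |Real.log δ|) / (θ / α - 2))
    (by linarith)
  obtain ⟨M2, hM2⟩ := lin_le_exp (1 / 2) (12 + 3 / (α - k)) (by norm_num)
  obtain ⟨M, m1, m2, m3, m4, m5, m6⟩ : ∃ M : ℝ, M1 ≤ M ∧ M2 ≤ M ∧ X1 ≤ M ∧ 32 ≤ M ∧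
      3 / δ ≤ M ∧ 32 * (c + 1) ≤ M := by
    refine ⟨|M1| + |M2| + |X1| + 3 / δ + 32 * (c + 1), ?_⟩
    have := le_abs_self M1
    have := le_abs_self M2
    have := le_abs_self X1
    have := abs_nonneg M1
    have := abs_nonneg M2
    have := abs_nonneg X1
    have : 0 < 3 / δ := by positivity
    refine ⟨?_, ?_, ?_, ?_, ?_, ?_⟩ <;> linarith
  refine ⟨c, hc, ⌈Real.exp (Real.exp (Real.exp (Real.exp M)))⌉₊, fun b hb hω => ?_⟩
  have hb1 := Nat.ceil_le.1 hb
  have hbpos : (0 : ℝ) < b := (Real.exp_pos _).trans_le hb1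
  have hb0 : 0 < b := by exact_mod_cast hbpos
  have g1 := (Real.le_log_iff_exp_le hbpos).2 hb1
  have hR := hR b hb0
  generalize Real.log b = X at g1 hR hω ⊢
  have X0 : 0 < X := (Real.exp_pos _).trans_le g1
  have g2 := (Real.le_log_iff_exp_le X0).2 g1
  have eX := Real.exp_log X0
  generalize hL : Real.log X = L at g2 eX hω ⊢
  have L0 : 0 < L := (Real.exp_pos _).trans_le g2
  have g3 := (Real.le_log_iff_exp_le L0).2 g2
  have eL := Real.exp_log L0
  generalize hl : Real.log L = l at g3 eL hω ⊢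
  have l0 : 0 < l := (Real.exp_pos _).trans_le g3
  have g4 := (Real.le_log_iff_exp_le l0).2 g3
  have el := Real.exp_log l0
  generalize Real.log l = m at g4 el hω ⊢
  clear g1 g2 g3
  have ml : m ≤ l := by have := Real.add_one_le_exp m; linarith
  have lL : l ≤ L := by have := Real.add_one_le_exp l; linarith
  have LX : L ≤ X := by have := Real.add_one_le_exp L; linarith
  have m0 : 0 < m := by linarith
  obtain ⟨Z, hZ⟩ : ∃ Z : ℝ, Z = α * L * m / l := ⟨_, rfl⟩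
  obtain ⟨η, hη⟩ : ∃ η : ℝ, η = θ * l / (α * L) := ⟨_, rfl⟩
  have θ0 : 0 < θ := by linarith
  obtain ⟨η0, e1, e2, η2, η3, Z1, Z2⟩ := num_par k α θ L l m Z η k2 k3 hα hθ (by linarith) ml eL
    (hM2 l (by linarith)) hZ hη
  have hω' : (b.primeFactors.card : ℝ) ≤ Real.exp (Z * (1 - η)) := by
    refine hω.trans (Real.exp_le_exp.2 ?_)
    have a1 : Z * (1 - η) = α * (1 - η) * (L * m / l) := by rw [hZ]; ring
    rw [a1]
    exact mul_le_mul_of_nonneg_right (k1.trans η3) (by positivity)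
  set r := ∏ p ∈ b.primeFactors, (1 - (1 : ℝ) / p) with hr
  have r0 : 0 ≤ r := prod_nonneg fun p _ => fac_nonneg p
  have r1 : r ≤ 1 := prod_le_one (fun p _ => fac_nonneg p) fun p _ => fac_le_one p
  set N := ⌈c * r * X * (L ^ 2 * m / l ^ 2)⌉₊ with hN
  have n0 : 0 ≤ c * r * X * (L ^ 2 * m / l ^ 2) := by positivity
  have n1 : c * r * X * (L ^ 2 * m / l ^ 2) ≤ N := Nat.le_ceil _
  have n2 : (N : ℝ) ≤ c * r * X * (L ^ 2 * m / l ^ 2) + 1 := (Nat.ceil_lt_add_one n0).le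
  obtain ⟨n4, n3, zX⟩ := num_size c r X L l m N hc r1 (by linarith) ml (by linarith) eX n2
  have y1 : X / 16 ≤ (⌊X / 8⌋₊ : ℝ) := by
    have := Nat.lt_floor_add_one (X / 8)
    linarith
  have wz : L ^ 3 ≤ Real.exp Z := by
    rw [← eL, ← Real.exp_nat_mul]
    exact Real.exp_le_exp.2 (by push_cast; linarith)
  have zY : ⌊Real.exp Z⌋₊ ≤ ⌊X / 8⌋₊ :=
    Nat.floor_mono ((Real.exp_le_exp.2 Z2).trans (by linarith))
  have L2 : 32 ≤ L := by linarith
  have w1 : L ≤ L ^ 3 := le_self_pow₀ (by linarith) (by norm_num)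
  have w2 : L ^ 3 / 2 ≤ (⌊L ^ 3⌋₊ : ℝ) := by
    have := Nat.lt_floor_add_one (L ^ 3)
    linarith
  have d1 := dens_mid C0 hM b ⌊X / 8⌋₊ hb0.ne' (L ^ 3) (Real.exp Z) (by linarith) wz zY
  have d2 := rankin b (Z := Z) (η := η) (by linarith) η0 η2 hω'
  rw [Real.log_exp, Real.log_pow, hl, Nat.cast_ofNat, ← hr] at d1
  have n5 : N ≤ ⌊X / 8⌋₊ * ⌊L ^ 3⌋₊ := by
    have a1 : X / 16 * (L ^ 3 / 2) ≤ (⌊X / 8⌋₊ : ℝ) * ⌊L ^ 3⌋₊ :=
      mul_le_mul y1 w2 (by positivity) (Nat.cast_nonneg _)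
    exact_mod_cast n3.trans a1
  have Y2 : 2 ≤ ⌊X / 8⌋₊ := Nat.le_floor (by push_cast; linarith)
  have δX : 3 ≤ δ * X := by
    rw [div_le_iff₀ hδ] at m5
    exact m5.trans ((mul_le_mul_of_nonneg_right (by linarith) hδ.le).trans (mul_comm X δ).le)
  obtain ⟨a0, ha0⟩ := sieve hG b N ⌊X / 8⌋₊ ⌊L ^ 3⌋₊ ⌊Real.exp Z⌋₊ hb0.ne' Y2
    ((Nat.floor_mono wz).trans zY) n5 (σ := 1 - η) (by linarith)
  obtain ⟨a, a1, a2, a3, a4⟩ := hR (by linarith) N a0 n4 (by
    rcases le_total (N : ℝ) (δ * X) with hs | hs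
    · refine le_trans ?_ hs
      exact_mod_cast (card_filter_le _ _).trans (card_range N).le
    refine ha0.trans ?_
    have N0 : (0 : ℝ) < N := by linarith
    rw [sub_eq_add_neg 1 η, Real.rpow_add N0, Real.rpow_one, ← sub_eq_add_neg 1 η]
    refine num_main δ c (Real.exp C0) α X L l m r N _ _ _ _ _ hc hE hcδ (by linarith) δX X0 L0 l0
      m0 N0.le (prod_nonneg fun p _ => fac_nonneg p) ?_ (by positivity) ?_ (by linarith) ?_
      (hZ ▸ d1) ?_
    · refine le_trans (prod_const_one (s := b.primeFactors.filter (· ≤ ⌊L ^ 3⌋₊))).ge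
        (prod_le_prod (fun _ _ => zero_le_one) fun p hp => ?_)
      have : (1 : ℝ) < p := by
        exact_mod_cast (Nat.prime_of_mem_primeFactors (mem_filter.1 hp).1).one_lt
      refine (one_le_inv₀ ?_).2 (fac_le_one p)
      rw [sub_pos, div_lt_one (by linarith)]
      exact this
    · refine prod_nonneg fun p hp => inv_nonneg.2 (sub_nonneg.2 ?_)
      have pp : p.Prime := by
        rcases mem_union.1 hp with e | e
        · exact (mem_filter.1 e).2
        · exact Nat.prime_of_mem_primeFactors e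
      exact Real.rpow_le_one_of_one_le_of_nonpos (by exact_mod_cast pp.one_le) (by linarith)
    · rw [Real.le_log_iff_exp_le (by linarith)]
      linarith
    · refine le_trans (mul_le_mul_of_nonneg_left
        (mul_le_mul_of_nonneg_left d2 (by positivity)) L0.le) ?_
      refine num_rank δ α θ X L l m N Z η hδ eX eL el (by linarith) θ0.le m0.le η0
        (by linarith) e1 e2 (by linarith) hs ?_
      have := mul_le_mul_of_nonneg_left (hM1 m (by linarith)) γ0.le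
      rwa [← mul_assoc, mul_div_cancel₀ _ γ0.ne'] at this)
  refine ⟨a, a1, a2, a3, fun p hp hpa => ?_⟩
  have e3 : (N : ℝ) * b < p := by exact_mod_cast a4 p hp hpa
  rw [totient_eq, ← hr]
  have e4 := mul_le_mul_of_nonneg_right n1 hbpos.le
  calc c * (b * r) * X * (L ^ 2 * m / l ^ 2) = c * r * X * (L ^ 2 * m / l ^ 2) * b := by ring
    _ < (p : ℝ) := e4.trans_lt e3

end Pool.Agent.MP_c5bf7b_nt.H98
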