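import Pool.Agent.MP_c5bf7b_nt.H98.Least
import Pool.Agent.MP_c5bf7b_nt.H98.MRoot

/-! Rankin's bound and the count of the integers that survive the zero classes. -/

set_option autoImplicit false

namespace Pool.Agent.MP_c5bf7b_nt.H98

open Finset

namespace FewA

/-- the power function as a multiplicative map -/
noncomputable def pw (σ : ℝ) : ℕ →* ℝ where
  toFun n := (n : ℝ) ^ (-σ)
  map_one' := by simp
  map_mul' m n := by
    rw [Nat.cast_mul, Real.mul_rpow (Nat.cast_nonneg _) (Nat.cast_nonneg _)]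

theorem pw_lt {σ : ℝ} (hσ : 0 < σ) {p : ℕ} (hp : p.Prime) : ‖pw σ p‖ < 1 := by
  have h1 : (1 : ℝ) < p := by exact_mod_cast hp.one_lt
  change ‖(p : ℝ) ^ (-σ)‖ < 1
  rw [Real.norm_of_nonneg (by positivity)]
  exact Real.rpow_lt_one_of_one_lt_of_neg h1 (by linarith)

theorem euler (S T : Finset ℕ) {σ : ℝ} (hσ : 0 < σ) (hS : ∀ p ∈ S, p.Prime)
    (hT : ∀ m ∈ T, m ∈ Nat.factoredNumbers S) :
    ∑ m ∈ T, (m : ℝ) ^ (-σ) ≤ ∏ p ∈ S, (1 - (p : ℝ) ^ (-σ))⁻¹ := by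
  have h := (EulerProduct.summable_and_hasSum_factoredNumbers_prod_filter_prime_geometric
    (f := pw σ) (fun hp => pw_lt hσ hp) S).2
  rw [filter_true_of_mem hS] at h
  have h2 := sum_le_hasSum (T.subtype (· ∈ Nat.factoredNumbers S))
    (fun m _ => (show (0 : ℝ) ≤ ((m : ℕ) : ℝ) ^ (-σ) by positivity)) h
  rw [← sum_subtype_of_mem (fun m : ℕ => (m : ℝ) ^ (-σ)) hT]
  exact h2

theorem zeta_bd (S : Finset ℕ) {ε : ℝ} (hε : 0 < ε) (hS : ∀ p ∈ S, p.Prime) :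
    ∏ p ∈ S, (1 - (p : ℝ) ^ (-(1 + ε)))⁻¹ ≤ 1 + 1 / ε := by
  have h := (EulerProduct.summable_and_hasSum_factoredNumbers_prod_filter_prime_geometric
    (f := pw (1 + ε)) (fun hp => pw_lt (by linarith) hp) S).2
  rw [filter_true_of_mem hS] at h
  have hs : Summable fun n : ℕ => (n : ℝ) ^ (-(1 + ε)) :=
    Real.summable_nat_rpow.2 (by linarith)
  have h1 : ∏ p ∈ S, (1 - (p : ℝ) ^ (-(1 + ε)))⁻¹ ≤ ∑' n : ℕ, (n : ℝ) ^ (-(1 + ε)) := by
    refine le_of_eq_of_le h.tsum_eq.symm ?_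
    exact hs.tsum_subtype_le (fun n : ℕ => (n : ℝ) ^ (-(1 + ε))) _ (fun n => by positivity)
  refine h1.trans ?_
  rw [hs.tsum_eq_zero_add]
  have h2 := ZetaAsymptotics.zeta_limit_aux1 (s := 1 + ε) (by linarith)
  have h3 : 0 ≤ ZetaAsymptotics.termTSum (1 + ε) := tsum_nonneg fun n => ZetaAsymptotics.term_nonneg _ _
  have h4 : ∑' n : ℕ, (((n + 1 : ℕ) : ℝ)) ^ (-(1 + ε)) =
      ∑' n : ℕ, 1 / ((n : ℝ) + 1) ^ (1 + ε) := by
    refine tsum_congr fun n => ?_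
    rw [Real.rpow_neg (Nat.cast_nonneg _), one_div]
    push_cast
    rfl
  rw [h4, Nat.cast_zero, Real.zero_rpow (by linarith), zero_add]
  have h5 : 1 + ε - 1 = ε := by ring
  rw [h5] at h2
  nlinarith

theorem psum_zeta (S : Finset ℕ) {ε : ℝ} (hε : 0 < ε) (hS : ∀ p ∈ S, p.Prime) :
    ∑ p ∈ S, (p : ℝ) ^ (-(1 + ε)) ≤ Real.log (1 + 1 / ε) := by
  rw [Real.le_log_iff_exp_le (by positivity), Real.exp_sum]
  refine le_trans (prod_le_prod (fun _ _ => (Real.exp_pos _).le) fun p hp => ?_) (zeta_bd S hε hS)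
  have h1 : (1 : ℝ) < p := by exact_mod_cast (hS p hp).one_lt
  have h2 : (p : ℝ) ^ (-(1 + ε)) < 1 := Real.rpow_lt_one_of_one_lt_of_neg h1 (by linarith)
  generalize (p : ℝ) ^ (-(1 + ε)) = x at h2
  have h3 := Real.add_one_le_exp (-x)
  rw [le_inv_comm₀ (Real.exp_pos _) (by linarith), ← Real.exp_neg]
  linarith

theorem psum (S : Finset ℕ) {Z η : ℝ} (hZ : 1 ≤ Z) (hη : 0 ≤ η)
    (hS : ∀ p ∈ S, p.Prime ∧ Real.log p ≤ Z) :
    ∑ p ∈ S, (p : ℝ) ^ (-(1 - η)) ≤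
      Real.log (1 + Z) + 8 * ((η * Z + 1) * Real.exp (η * Z + 1)) := by
  have hZ0 : 0 < Z := by linarith
  have hε : 0 < 1 / Z := by positivity
  have h1 := psum_zeta S hε fun p hp => (hS p hp).1
  rw [one_div_one_div] at h1
  have h2 := MR.log_sum hε (by rw [div_le_one hZ0]; exact hZ) S fun p hp => (hS p hp).1
  have h3 : ∀ p ∈ S, (p : ℝ) ^ (-(1 - η)) ≤ (p : ℝ) ^ (-(1 + 1 / Z)) +
      (η * Z + 1) * Real.exp (η * Z + 1) * (1 / Z * (Real.log p * (p : ℝ) ^ (-(1 + 1 / Z)))) := by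
    intro p hp
    obtain ⟨pp, pl⟩ := hS p hp
    have p0 : (0 : ℝ) < p := by exact_mod_cast pp.pos
    have l0 : 0 ≤ Real.log p := Real.log_natCast_nonneg p
    set y := (η + 1 / Z) * Real.log p with hy
    have y0 : 0 ≤ y := by positivity
    have y1 : y ≤ η * Z + 1 := by
      have : (η + 1 / Z) * Z = η * Z + 1 := by field_simp
      rw [← this]
      exact mul_le_mul_of_nonneg_left pl (by positivity)
    have e1 : (p : ℝ) ^ (-(1 - η)) = (p : ℝ) ^ (-(1 + 1 / Z)) * Real.exp y := by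
      rw [Real.rpow_def_of_pos p0, Real.rpow_def_of_pos p0, ← Real.exp_add, hy]
      congr 1
      ring
    have e2 : Real.exp y ≤ 1 + y * Real.exp (η * Z + 1) := by
      have a1 := Real.add_one_le_exp (-y)
      have a2 : Real.exp (-y) * Real.exp y = 1 := by rw [← Real.exp_add]; simp
      have a3 : Real.exp y ≤ Real.exp (η * Z + 1) := Real.exp_le_exp.2 y1
      have a4 := Real.exp_pos y
      have a5 : (-y + 1) * Real.exp y ≤ 1 :=
        (mul_le_mul_of_nonneg_right a1 a4.le).trans a2.le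
      nlinarith [mul_le_mul_of_nonneg_left a3 y0]
    have e3 : y = (η * Z + 1) * (1 / Z * Real.log p) := by rw [hy]; field_simp
    have x0 : 0 ≤ (p : ℝ) ^ (-(1 + 1 / Z)) := by positivity
    rw [e1]
    calc (p : ℝ) ^ (-(1 + 1 / Z)) * Real.exp y
        ≤ (p : ℝ) ^ (-(1 + 1 / Z)) * (1 + y * Real.exp (η * Z + 1)) :=
          mul_le_mul_of_nonneg_left e2 x0
      _ = _ := by rw [e3]; ring
  refine (sum_le_sum h3).trans ?_
  rw [sum_add_distrib, ← mul_sum, ← mul_sum]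
  have h4 : 0 ≤ (η * Z + 1) * Real.exp (η * Z + 1) := by positivity
  nlinarith [mul_le_mul_of_nonneg_left h2 h4]

theorem prod_bd (S : Finset ℕ) {σ : ℝ} (hσ : 3 / 4 ≤ σ) (hS : ∀ p ∈ S, p.Prime) :
    ∏ p ∈ S, (1 - (p : ℝ) ^ (-σ))⁻¹ ≤ Real.exp (∑ p ∈ S, (p : ℝ) ^ (-σ) + 6) := by
  have h1 := psum_zeta S (ε := 1 / 2) (by norm_num) hS
  have h2 : Real.log (1 + 1 / (1 / 2 : ℝ)) ≤ 2 :=
    (Real.log_le_sub_one_of_pos (by norm_num)).trans (by norm_num)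
  have h3 : ∀ p ∈ S, (1 - (p : ℝ) ^ (-σ))⁻¹ ≤
      Real.exp ((p : ℝ) ^ (-σ) + 3 * (p : ℝ) ^ (-(1 + 1 / 2 : ℝ))) := by
    intro p hp
    have p2 : (2 : ℝ) ≤ p := by exact_mod_cast (hS p hp).two_le
    have a1 : (p : ℝ) ^ (-σ) ≤ (p : ℝ) ^ (-(3 / 4 : ℝ)) :=
      Real.rpow_le_rpow_of_exponent_le (by linarith) (by linarith)
    have a2 : ((p : ℝ) ^ (-(3 / 4 : ℝ))) ^ 2 = (p : ℝ) ^ (-(1 + 1 / 2 : ℝ)) := by
      rw [← Real.rpow_natCast, ← Real.rpow_mul (by linarith)]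
      norm_num
    have a3 : (p : ℝ) ^ (-(3 / 4 : ℝ)) ≤ (2 : ℝ) ^ (-(3 / 4 : ℝ)) :=
      Real.rpow_le_rpow_of_nonpos (by norm_num) p2 (by norm_num)
    have a4 : (2 : ℝ) ^ (-(3 / 4 : ℝ)) ≤ 2 / 3 := by
      refine le_of_pow_le_pow_left₀ (n := 4) (by norm_num) (by norm_num) ?_
      rw [← Real.rpow_natCast, ← Real.rpow_mul (by norm_num)]
      norm_num
    have x0 : 0 ≤ (p : ℝ) ^ (-σ) := by positivity
    rw [← a2]
    generalize (p : ℝ) ^ (-σ) = x at a1 x0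
    generalize (p : ℝ) ^ (-(3 / 4 : ℝ)) = y at a1 a3
    have b1 := Real.add_one_le_exp (x + 3 * y ^ 2)
    refine le_trans ?_ b1
    have x1 : x ≤ 2 / 3 := by linarith
    rw [inv_le_iff_one_le_mul₀ (by linarith)]
    have b2 : x ^ 2 ≤ y ^ 2 := by gcongr
    nlinarith [mul_nonneg (sub_nonneg.2 b2) (show 0 ≤ 1 - x by linarith), sq_nonneg x,
      mul_nonneg (sq_nonneg x) (show 0 ≤ 2 / 3 - x by linarith)]
  refine (prod_le_prod (fun p hp => ?_) h3).trans ?_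
  · have p1 : (1 : ℝ) < p := by exact_mod_cast (hS p hp).one_lt
    have := Real.rpow_lt_one_of_one_lt_of_neg p1 (show -σ < 0 by linarith)
    exact inv_nonneg.2 (by linarith)
  · rw [← Real.exp_sum, sum_add_distrib, ← mul_sum]
    exact Real.exp_le_exp.2 (by linarith)

theorem cnt2 (S : Finset ℕ) (N : ℕ) {σ : ℝ} (hσ : 0 < σ) (hS : ∀ p ∈ S, p.Prime) :
    (((range N).filter fun h => h ∈ Nat.factoredNumbers S).card : ℝ) ≤
      (N : ℝ) ^ σ * ∏ p ∈ S, (1 - (p : ℝ) ^ (-σ))⁻¹ := by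
  refine le_trans ?_ (mul_le_mul_of_nonneg_left
    (euler S ((range N).filter fun h => h ∈ Nat.factoredNumbers S) hσ hS
      fun m hm => (mem_filter.1 hm).2) (by positivity))
  rw [mul_sum, card_eq_sum_ones, Nat.cast_sum]
  refine sum_le_sum fun m hm => ?_
  obtain ⟨m1, m2⟩ := mem_filter.1 hm
  have m0 : (0 : ℝ) < m := by
    exact_mod_cast Nat.pos_of_ne_zero (Nat.ne_zero_of_mem_factoredNumbers m2)
  have m3 : (m : ℝ) ≤ N := by exact_mod_cast (mem_range.1 m1).le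
  rw [Real.rpow_neg m0.le, ← div_eq_mul_inv, Nat.cast_one, one_le_div (by positivity)]
  exact Real.rpow_le_rpow m0.le m3 hσ.le

theorem cnt_primes (Y : ℕ) (t : ℝ) (hY : 2 ≤ Y) (ht : 0 ≤ t) :
    (((Ioc Y ⌊t⌋₊).filter Nat.Prime).card : ℝ) ≤ Real.log 4 * t / Real.log Y := by
  have Y2 : (2 : ℝ) ≤ Y := by exact_mod_cast hY
  have lY : 0 < Real.log Y := Real.log_pos (by linarith)
  rw [le_div_iff₀ lY]
  refine le_trans ?_ (Chebyshev.theta_le_log4_mul_x ht)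
  rw [← nsmul_eq_mul, ← sum_const]
  refine (sum_le_sum (g := fun p : ℕ => Real.log p) fun p hp => ?_).trans ?_
  · have : (Y : ℝ) ≤ p := by exact_mod_cast (mem_Ioc.1 (mem_filter.1 hp).1).1.le
    exact Real.log_le_log (by linarith) this
  · refine sum_le_sum_of_subset_of_nonneg (fun p hp => ?_) fun p _ _ => Real.log_natCast_nonneg p
    obtain ⟨p1, p2⟩ := mem_filter.1 hp
    exact mem_filter.2 ⟨mem_Ioc.2 ⟨p2.pos, (mem_Ioc.1 p1).2⟩, p2⟩

theorem cnt1 (S : Finset ℕ) (N Y : ℕ) (hY : 2 ≤ Y) (hS : ∀ p ∈ S, p.Prime) (H : Finset ℕ)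
    (hH : ∀ h ∈ H, h < N ∧ ∃ m q, m ∈ Nat.factoredNumbers S ∧ q.Prime ∧ Y < q ∧ h = m * q) :
    (H.card : ℝ) ≤ Real.log 4 * N / Real.log Y * ∏ p ∈ S, (1 - 1 / (p : ℝ))⁻¹ := by
  have Y2 : (2 : ℝ) ≤ Y := by exact_mod_cast hY
  have lY : 0 < Real.log Y := Real.log_pos (by linarith)
  have l4 : 0 < Real.log 4 := Real.log_pos (by norm_num)
  set M := (range N).filter fun m => m ∈ Nat.factoredNumbers S with hM
  have sub : H ⊆ M.biUnion fun m =>
      ((Ioc Y ⌊(N : ℝ) / m⌋₊).filter Nat.Prime).image fun q => m * q := by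
    intro h hh
    obtain ⟨h1, m, q, m1, q1, q2, e⟩ := hH h hh
    have m0 : 0 < m := Nat.pos_of_ne_zero (Nat.ne_zero_of_mem_factoredNumbers m1)
    have m2 : m < N := lt_of_le_of_lt (e ▸ Nat.le_mul_of_pos_right m q1.pos) h1
    refine mem_biUnion.2 ⟨m, mem_filter.2 ⟨mem_range.2 m2, m1⟩,
      mem_image.2 ⟨q, mem_filter.2 ⟨mem_Ioc.2 ⟨q2, Nat.le_floor ?_⟩, q1⟩, e.symm⟩⟩
    rw [le_div_iff₀ (by exact_mod_cast m0)]
    have : q * m ≤ N := by rw [mul_comm, ← e]; exact h1.le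
    exact_mod_cast this
  have c1 : (H.card : ℝ) ≤ ∑ m ∈ M, (((Ioc Y ⌊(N : ℝ) / m⌋₊).filter Nat.Prime).card : ℝ) := by
    have := (card_le_card sub).trans (card_biUnion_le.trans (sum_le_sum fun m _ => card_image_le))
    exact_mod_cast this
  have c2 := euler S M one_pos hS fun m hm => (mem_filter.1 hm).2
  simp only [Real.rpow_neg_one] at c2
  simp only [one_div]
  refine c1.trans (le_trans ?_ (mul_le_mul_of_nonneg_left c2 (by positivity)))
  rw [mul_sum]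
  refine sum_le_sum fun m _ => (cnt_primes Y _ hY (by positivity)).trans (le_of_eq ?_)
  ring

end FewA

end Pool.Agent.MP_c5bf7b_nt.H98
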