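import Pool.Agent.MP_c5bf7b_nt.H98.FewA

/-! The choice of the classes at the small primes, and the reduction to that choice. -/

set_option autoImplicit false

namespace Pool.Agent.MP_c5bf7b_nt.H98

open Finset LeastA

namespace FewA

theorem mem_QQ {b Y p : ℕ} : p ∈ QQ b Y ↔ p ≤ Y ∧ p.Prime ∧ ¬p ∣ b := by
  rw [QQ, mem_filter, mem_range, Nat.lt_succ_iff]

theorem sieve (hG : GreedyStmt) (b N Y w z : ℕ) (hb : b ≠ 0) (hY : 2 ≤ Y) (hw : w ≤ Y)
    (hN : N ≤ Y * w) {σ : ℝ} (hσ : 0 < σ) :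
    ∃ a0 : ℕ, (((range N).filter fun h => ∀ p ∈ QQ b Y, a0 % p ∉ AA b p h).card : ℝ) ≤
      1 + (Real.log 4 * N / Real.log Y *
          ∏ p ∈ b.primeFactors.filter (· ≤ w), (1 - 1 / (p : ℝ))⁻¹ +
        (N : ℝ) ^ σ * ∏ p ∈ (range (z + 1)).filter Nat.Prime ∪ b.primeFactors,
          (1 - (p : ℝ) ^ (-σ))⁻¹) *
        ∏ p ∈ (QQ b Y).filter (fun p => w < p ∧ p ≤ z), (1 - 1 / (p : ℝ)) := by
  classical
  set Bw := b.primeFactors.filter (· ≤ w) with hBw
  set P := (range (z + 1)).filter Nat.Prime ∪ b.primeFactors with hP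
  set Q1 := (QQ b Y).filter (fun p => w < p ∧ p ≤ z) with hQ1
  set Q0 := (QQ b Y).filter (fun p => ¬(w < p ∧ p ≤ z)) with hQ0
  set H1 := (range N).filter fun h =>
    ∃ m q, m ∈ Nat.factoredNumbers Bw ∧ q.Prime ∧ Y < q ∧ h = m * q with hH1
  set H2 := (range N).filter fun h => h ∈ Nat.factoredNumbers P with hH2
  have q1 : ∀ p ∈ Q1, p.Prime := fun p hp => (mem_QQ.1 (mem_filter.1 hp).1).2.1
  have q0 : ∀ p ∈ Q0, p.Prime := fun p hp => (mem_QQ.1 (mem_filter.1 hp).1).2.1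
  obtain ⟨a1, ha1⟩ := hG Q1 (H1 ∪ H2) (fun _ => 1) (AA b) q1
    fun p hp h _ => ⟨filter_subset _ _, card_AA b p h (q1 p hp).pos⟩
  have cop : Nat.Coprime (∏ p ∈ Q1, p) (∏ p ∈ Q0, p) :=
    Nat.Coprime.prod_left fun p hp => Nat.Coprime.prod_right fun q hq =>
      (Nat.coprime_primes (q1 p hp) (q0 q hq)).2 fun e =>
        (mem_filter.1 hq).2 (e ▸ (mem_filter.1 hp).2)
  obtain ⟨a0, e1, e0⟩ := Nat.chineseRemainder cop a1 0
  refine ⟨a0, ?_⟩
  have sub : ((range N).filter fun h => ∀ p ∈ QQ b Y, a0 % p ∉ AA b p h) ⊆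
      insert 0 ((H1 ∪ H2).filter fun h => ∀ p ∈ Q1, a1 % p ∉ AA b p h) := by
    intro h hh
    obtain ⟨h1, h2⟩ := mem_filter.1 hh
    rcases eq_or_ne h 0 with rfl | h0
    · exact mem_insert_self _ _
    refine mem_insert_of_mem (mem_filter.2 ⟨?_, fun p hp => ?_⟩)
    · have nd : ∀ p ∈ Q0, ¬p ∣ h := fun p hp hd => by
        have a : a0 % p = 0 := by
          have : a0 % p = 0 % p := Nat.ModEq.of_dvd (dvd_prod_of_mem _ hp) e0
          rw [this, Nat.zero_mod]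
        refine h2 p (mem_filter.1 hp).1 ?_
        rw [a]
        exact mem_filter.2 ⟨mem_range.2 (q0 p hp).pos, by rw [zero_add]; exact hd.mul_right _⟩
      by_cases f : h ∈ Nat.factoredNumbers P
      · exact mem_union_right _ (mem_filter.2 ⟨h1, f⟩)
      rw [Nat.mem_factoredNumbers'] at f
      push Not at f
      obtain ⟨q, qp, qd, qn⟩ := f
      have qb : ¬q ∣ b := fun e => qn (mem_union_right _ (Nat.mem_primeFactors.2 ⟨qp, e, hb⟩))
      have qz : ¬q ≤ z := fun e =>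
        qn (mem_union_left _ (mem_filter.2 ⟨mem_range.2 (Nat.lt_succ_of_le e), qp⟩))
      have qY : Y < q := by
        by_contra e
        exact nd q (mem_filter.2 ⟨mem_QQ.2 ⟨not_lt.1 e, qp, qb⟩, fun e => qz e.2⟩) qd
      obtain ⟨m, rfl⟩ := qd
      have m0 : 0 < m := Nat.pos_of_ne_zero fun e => h0 (by rw [e, mul_zero])
      have mw : m < w := by
        have a1 : Y * m ≤ q * m := Nat.mul_le_mul_right m qY.le
        have a2 := mem_range.1 h1
        exact lt_of_mul_lt_mul_left (a := Y) (by omega) (Nat.zero_le _)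
      refine mem_union_left _ (mem_filter.2 ⟨h1, m, q, ?_, qp, qY, mul_comm _ _⟩)
      rw [Nat.mem_factoredNumbers']
      intro p pp pd
      have pw : p ≤ w := (Nat.le_of_dvd m0 pd).trans mw.le
      refine mem_filter.2 ⟨Nat.mem_primeFactors.2 ⟨pp, ?_, hb⟩, pw⟩
      by_contra pb
      exact nd p (mem_filter.2 ⟨mem_QQ.2 ⟨pw.trans hw, pp, pb⟩, fun e => by omega⟩)
        (pd.mul_left _)
    · have a : a0 % p = a1 % p := Nat.ModEq.of_dvd (dvd_prod_of_mem _ hp) e1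
      rw [← a]
      exact h2 p (mem_filter.1 hp).1
  have c1 := (card_le_card sub).trans (card_insert_le _ _)
  have c2 : (((range N).filter fun h => ∀ p ∈ QQ b Y, a0 % p ∉ AA b p h).card : ℝ) ≤
      (((H1 ∪ H2).filter fun h => ∀ p ∈ Q1, a1 % p ∉ AA b p h).card : ℝ) + 1 := by
    exact_mod_cast c1
  have c3 : ((H1 ∪ H2).card : ℝ) ≤ H1.card + H2.card := by exact_mod_cast card_union_le _ _
  have c4 := cnt1 Bw N Y hY (fun p hp => Nat.prime_of_mem_primeFactors (mem_filter.1 hp).1) H1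
    fun h hh => ⟨mem_range.1 (mem_filter.1 hh).1, (mem_filter.1 hh).2⟩
  have c5 := cnt2 P N hσ fun p hp => by
    rcases mem_union.1 hp with e | e
    · exact (mem_filter.1 e).2
    · exact Nat.prime_of_mem_primeFactors e
  have c6 : 0 ≤ ∏ p ∈ Q1, (1 - 1 / (p : ℝ)) := prod_nonneg fun p _ => fac_nonneg p
  simp only [Nat.cast_one] at ha1
  have c7 := mul_le_mul_of_nonneg_right (c3.trans (add_le_add c4 c5)) c6
  linarith

theorem red (hT : STStmt) (hM : MertOneStmt) (hU : UnitStmt) :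
    ∃ δ X1 : ℝ, 0 < δ ∧ ∀ b : ℕ, 0 < b → X1 ≤ Real.log b → ∀ N a0 : ℕ,
      (N : ℝ) ≤ Real.log b ^ 4 →
      (((range N).filter fun h =>
        ∀ p ∈ QQ b ⌊Real.log b / 8⌋₊, a0 % p ∉ AA b p h).card : ℝ) ≤ δ * Real.log b →
      ∃ a : ℕ, 1 ≤ a ∧ a < b ∧ Nat.Coprime a b ∧
        ∀ p : ℕ, p.Prime → p ≡ a [MOD b] → N * b < p := by
  obtain ⟨C0, hM⟩ := hM
  obtain ⟨δ, X0, hδ, hT⟩ := hT 1 C0
  obtain ⟨K, hK, hω⟩ := two_omega
  refine ⟨δ, |X0| + 256 + 4 * (K * (K + 2)), hδ, fun b hb0 hX N a0 n3 hcard => ?_⟩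
  have hbpos : (0 : ℝ) < b := by exact_mod_cast hb0
  have hbX : Real.exp (Real.log b) = b := Real.exp_log hbpos
  have hω' := hω b hb0.ne'
  generalize hXb : Real.log b = X at hX hbX hω' n3 hcard ⊢
  have p2 : 0 ≤ 4 * (K * (K + 2)) := by positivity
  have p3 := abs_nonneg X0
  have p4 := le_abs_self X0
  have x1 : 256 ≤ X := by linarith
  have x4 : 4 * (K * (K + 2)) ≤ X := by linarith
  have x5 : X0 ≤ X := by linarith
  have X4 : X ≤ X ^ 4 := le_self_pow₀ (by linarith) (by norm_num)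
  have W1 := num_W b X x1
  set Y := ⌊X / 8⌋₊ with hY
  have y1 : (Y : ℝ) ≤ X / 8 := Nat.floor_le (by linarith)
  set z := ⌊Real.exp (Real.sqrt X)⌋₊ with hz
  have z1 : (z : ℝ) ≤ Real.exp (Real.sqrt X) := Nat.floor_le (Real.exp_pos _).le
  have z2 : (z : ℝ) ≤ Real.exp (X / 16) := z1.trans (Real.exp_le_exp.2 (num_z X x1).1)
  have yz : Y ≤ z := Nat.floor_mono (num_z X x1).2
  have hQ : ∀ p ∈ QQ b Y, p ≤ Y ∧ p.Prime ∧ ¬p ∣ b := fun p hp => mem_QQ.1 hp
  set H := (range N).filter fun h => ∀ p ∈ QQ b Y, a0 % p ∉ AA b p h with hH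
  set W := ∏ p ∈ QQ b Y, p with hW
  have W0 : 0 < W := prod_pos fun p hp => (hQ p hp).2.1.pos
  have Wb : Nat.Coprime W b :=
    Nat.Coprime.prod_left fun p hp => (Nat.Prime.coprime_iff_not_dvd (hQ p hp).2.1).2 (hQ p hp).2.2
  obtain ⟨n, hn, hcov⟩ := hT X x5 (fun _ => 1) b H
    ((range b).filter fun n => z < n ∧ n % W = a0 % W ∧ Nat.Coprime n b) (AA b)
    ((b.totient : ℝ) / W) (2 ^ b.primeFactors.card + z + 1) hM hb0.ne'
    (by rw [hXb]; exact le_self_pow₀ (by linarith) (by norm_num)) hcard (fun _ _ _ => le_rfl)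
    (fun p hp hp4 hpb => by
      have hlt : ∀ h ∈ H, h < p := fun h hh => by
        have a1 : h < N := mem_range.1 (mem_filter.1 hh).1
        have a2 : (N : ℝ) < p := n3.trans_lt hp4
        exact a1.trans (by exact_mod_cast a2)
      exact ⟨fun h _ => ⟨filter_subset _ _, card_AA b p h hp.pos⟩, fun h hh h' hh' hne =>
        disj_AA b p h h' hp hpb (hlt h hh) (hlt h' hh') hne⟩)
    (fun q e hq hqp => by
      refine count hU b W z a0 q e hb0 W0 hq ?_ Wb ?_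
      · refine Nat.Coprime.prod_left fun p hp =>
          (Nat.Prime.coprime_iff_not_dvd (hQ p hp).2.1).2 fun hd => ?_
        have a1 := (hqp p (hQ p hp).2.1 hd).1
        have a2 : (p : ℝ) ≤ Y := by exact_mod_cast (hQ p hp).1
        linarith
      · exact Nat.coprime_of_dvd fun p hp hd => (hqp p hp hd).2)
    (small K X _ z W _ hK x4 (by linarith) (by positivity) hω' z2
      (by exact_mod_cast W0) W1 (by rw [hbX]; exact le_totient b))
  obtain ⟨m1, m2, m3, m4⟩ := mem_filter.1 hn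
  have m1' : n < b := mem_range.1 m1
  refine ⟨n, by omega, m1', m4, fun p hp hpn => ?_⟩
  have e1 : n + p / b * b = p := by
    have a1 : p % b = n := by
      have : p % b = n % b := hpn
      rw [this, Nat.mod_eq_of_lt m1']
    rw [← a1]
    exact Nat.mod_add_div' p b
  have hNp : N ≤ p / b := by
    by_contra hlt
    have hlt : p / b < N := not_le.1 hlt
    have : ∃ l : ℕ, l.Prime ∧ l ≤ z ∧ l ∣ n + p / b * b := by
      by_cases hh : p / b ∈ H
      · obtain ⟨l, l1, -, -, l2, l3⟩ := hcov _ hh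
        exact ⟨l, l1, Nat.le_floor l2, dvd_of_AA b l _ n l3⟩
      · have : ¬∀ l ∈ QQ b Y, a0 % l ∉ AA b l (p / b) := fun h =>
          hh (mem_filter.2 ⟨mem_range.2 hlt, h⟩)
        push Not at this
        obtain ⟨l, l1, l2⟩ := this
        refine ⟨l, (hQ l l1).2.1, (hQ l l1).1.trans yz, dvd_of_AA b l _ n ?_⟩
        have a1 : n % l = a0 % l := Nat.ModEq.of_dvd (dvd_prod_of_mem _ l1) m3
        rw [a1]
        exact l2
    obtain ⟨l, l1, l2, l3⟩ := this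
    rw [e1] at l3
    have := (Nat.prime_dvd_prime_iff_eq l1 hp).1 l3
    omega
  have := Nat.mul_le_mul_right b hNp
  omega

/-- the density left by the middle primes -/
theorem dens_mid (C0 : ℝ) (hM : MLow (fun _ => 1) C0) (b Y : ℕ) (hb : b ≠ 0) (w z : ℝ)
    (hw : 2 ≤ w) (hwz : w ≤ z) (hz : ⌊z⌋₊ ≤ Y) :
    (∏ p ∈ b.primeFactors, (1 - (1 : ℝ) / p)) *
        (∏ p ∈ b.primeFactors.filter (· ≤ ⌊w⌋₊), (1 - 1 / (p : ℝ))⁻¹) *
        ∏ p ∈ (QQ b Y).filter (fun p => ⌊w⌋₊ < p ∧ p ≤ ⌊z⌋₊), (1 - 1 / (p : ℝ)) ≤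
      Real.exp C0 * (Real.log w / Real.log z) := by
  have e1 : (∏ p ∈ b.primeFactors, (1 - (1 : ℝ) / p)) *
      (∏ p ∈ b.primeFactors.filter (· ≤ ⌊w⌋₊), (1 - 1 / (p : ℝ))⁻¹) =
      ∏ p ∈ b.primeFactors.filter (fun p => ¬p ≤ ⌊w⌋₊), (1 - 1 / (p : ℝ)) := by
    rw [← prod_filter_mul_prod_filter_not b.primeFactors (· ≤ ⌊w⌋₊), mul_right_comm,
      ← prod_mul_distrib, prod_eq_one, one_mul]
    intro p hp
    have : (1 : ℝ) < p := by
      exact_mod_cast (Nat.prime_of_mem_primeFactors (mem_filter.1 hp).1).one_lt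
    refine mul_inv_cancel₀ (ne_of_gt ?_)
    rw [sub_pos, div_lt_one (by linarith)]
    exact this
  rw [e1]
  have hd : Disjoint (b.primeFactors.filter (fun p => ¬p ≤ ⌊w⌋₊))
      ((QQ b Y).filter (fun p => ⌊w⌋₊ < p ∧ p ≤ ⌊z⌋₊)) := by
    rw [disjoint_left]
    intro p hp hq
    exact (mem_QQ.1 (mem_filter.1 hq).1).2.2 (Nat.dvd_of_mem_primeFactors (mem_filter.1 hp).1)
  rw [← prod_union hd]
  have hsub : (Ioc ⌊w⌋₊ ⌊z⌋₊).filter Nat.Prime ⊆ b.primeFactors.filter (fun p => ¬p ≤ ⌊w⌋₊) ∪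
      (QQ b Y).filter (fun p => ⌊w⌋₊ < p ∧ p ≤ ⌊z⌋₊) := by
    intro p hp
    obtain ⟨h1, h2⟩ := mem_filter.1 hp
    obtain ⟨h3, h4⟩ := mem_Ioc.1 h1
    by_cases h : p ∣ b
    · exact mem_union_left _ (mem_filter.2 ⟨Nat.mem_primeFactors.2 ⟨h2, h, hb⟩, not_le.2 h3⟩)
    · exact mem_union_right _ (mem_filter.2 ⟨mem_QQ.2 ⟨h4.trans hz, h2, h⟩, h3, h4⟩)
  have h1 := prod_le_prod_of_subset_of_le_one hsub (f := fun p : ℕ => 1 - (1 : ℝ) / p)
    (fun p _ => fac_nonneg p) (fun p _ _ => fac_le_one p)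
  refine h1.trans ?_
  have h2 : ∏ p ∈ (Ioc ⌊w⌋₊ ⌊z⌋₊).filter Nat.Prime, (1 - (1 : ℝ) / p) ≤
      Real.exp (-∑ p ∈ (Ioc ⌊w⌋₊ ⌊z⌋₊).filter Nat.Prime, ((1 : ℕ) : ℝ) / p) := by
    rw [← sum_neg_distrib, Real.exp_sum]
    refine prod_le_prod (fun p _ => fac_nonneg p) fun p _ => ?_
    have := Real.add_one_le_exp (-(((1 : ℕ) : ℝ) / p))
    rw [Nat.cast_one] at this ⊢
    linarith
  refine h2.trans ?_
  have h3 := hM w z hw hwz
  have lw : 0 < Real.log w := Real.log_pos (by linarith)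
  have lz : 0 < Real.log z := Real.log_pos (by linarith)
  calc Real.exp (-∑ p ∈ (Ioc ⌊w⌋₊ ⌊z⌋₊).filter Nat.Prime, ((1 : ℕ) : ℝ) / p)
      ≤ Real.exp (C0 - Real.log (Real.log z / Real.log w)) := Real.exp_le_exp.2 (by linarith)
    _ = Real.exp C0 * (Real.log w / Real.log z) := by
        rw [Real.exp_sub, Real.exp_log (by positivity)]
        field_simp

/-- the Euler product in Rankin's bound -/
theorem rankin (b : ℕ) {Z η : ℝ} (hZ : 1 ≤ Z) (hη : 0 ≤ η) (hη' : η ≤ 1 / 4)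
    (hω : (b.primeFactors.card : ℝ) ≤ Real.exp (Z * (1 - η))) :
    ∏ p ∈ (range (⌊Real.exp Z⌋₊ + 1)).filter Nat.Prime ∪ b.primeFactors,
        (1 - (p : ℝ) ^ (-(1 - η)))⁻¹ ≤
      (1 + Z) * Real.exp (8 * ((η * Z + 1) * Real.exp (η * Z + 1)) + 7) := by
  set S := (range (⌊Real.exp Z⌋₊ + 1)).filter Nat.Prime with hS
  refine (prod_bd _ (by linarith) fun p hp => ?_).trans ?_
  · rcases mem_union.1 hp with e | e
    · exact (mem_filter.1 e).2
    · exact Nat.prime_of_mem_primeFactors e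
  rw [← union_sdiff_self_eq_union, sum_union disjoint_sdiff]
  have h1 := psum S hZ hη fun p hp => by
    obtain ⟨p1, p2⟩ := mem_filter.1 hp
    refine ⟨p2, ?_⟩
    rw [Real.log_le_iff_le_exp (by exact_mod_cast p2.pos)]
    exact (Nat.le_floor_iff (Real.exp_pos _).le).1 (Nat.lt_succ_iff.1 (mem_range.1 p1))
  have h2 : ∑ p ∈ b.primeFactors \ S, (p : ℝ) ^ (-(1 - η)) ≤ 1 := by
    have a1 : ∀ p ∈ b.primeFactors \ S, (p : ℝ) ^ (-(1 - η)) ≤ Real.exp (-(Z * (1 - η))) := by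
      intro p hp
      obtain ⟨p1, p2⟩ := mem_sdiff.1 hp
      have p3 : Real.exp Z ≤ p := by
        by_contra e
        exact p2 (mem_filter.2 ⟨mem_range.2 (Nat.lt_succ_of_le (Nat.le_floor (not_le.1 e).le)),
          Nat.prime_of_mem_primeFactors p1⟩)
      refine (Real.rpow_le_rpow_of_nonpos (Real.exp_pos _) p3 (by linarith)).trans (le_of_eq ?_)
      rw [← Real.exp_mul]
      congr 1
      ring
    refine (sum_le_card_nsmul _ _ _ a1).trans ?_
    have a2 : ((b.primeFactors \ S).card : ℝ) ≤ b.primeFactors.card := by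
      exact_mod_cast card_le_card sdiff_subset
    rw [nsmul_eq_mul, Real.exp_neg, ← div_eq_mul_inv, div_le_one (Real.exp_pos _)]
    exact a2.trans hω
  rw [← Real.exp_log (show 0 < 1 + Z by linarith), ← Real.exp_add, Real.exp_le_exp]
  linarith

end FewA

end Pool.Agent.MP_c5bf7b_nt.H98
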