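import Pool.Agent.MP_c5bf7b_nt.H98.Spec

/-! For every large modulus some reduced class has a large least prime. -/

set_option autoImplicit false

namespace Pool.Agent.MP_c5bf7b_nt.H98

open Finset

namespace LeastA

theorem pow_omega (m : ℕ) (hm : 1 ≤ m) :
    ∃ K : ℕ, 1 ≤ K ∧ ∀ b : ℕ, b ≠ 0 → m ^ b.primeFactors.card ≤ K * b := by
  refine ⟨m ^ m, Nat.one_le_pow _ _ hm, fun b hb => ?_⟩
  rw [← card_filter_add_card_filter_not (s := b.primeFactors) (fun p => p < m), pow_add]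
  refine Nat.mul_le_mul (Nat.pow_le_pow_right hm ?_) ?_
  · calc (b.primeFactors.filter fun p => p < m).card ≤ (range m).card :=
          card_le_card fun p hp => mem_range.2 (mem_filter.1 hp).2
      _ = m := card_range m
  · calc m ^ (b.primeFactors.filter fun p => ¬p < m).card
        ≤ ∏ p ∈ b.primeFactors.filter (fun p => ¬p < m), p :=
          pow_card_le_prod _ _ _ fun p hp => not_lt.1 (mem_filter.1 hp).2
      _ ≤ ∏ p ∈ b.primeFactors, p :=
          prod_le_prod_of_subset_of_one_le' (filter_subset _ _) fun p hp _ =>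
            (Nat.prime_of_mem_primeFactors hp).one_le
      _ ≤ b := Nat.le_of_dvd (Nat.pos_of_ne_zero hb) (Nat.prod_primeFactors_dvd b)

theorem two_omega : ∃ K : ℝ, 1 ≤ K ∧ ∀ b : ℕ, b ≠ 0 →
    (2 : ℝ) ^ b.primeFactors.card ≤ K * Real.exp (Real.log b / 16) := by
  obtain ⟨K, hK, h⟩ := pow_omega (2 ^ 16) Nat.one_le_two_pow
  have hK' : (1 : ℝ) ≤ K := by exact_mod_cast hK
  refine ⟨K, hK', fun b hb => ?_⟩
  have hb' : (0 : ℝ) < b := by exact_mod_cast Nat.pos_of_ne_zero hb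
  refine le_of_pow_le_pow_left₀ (n := 16) (by norm_num) (by positivity) ?_
  have h1 : (((2 ^ 16) ^ b.primeFactors.card : ℕ) : ℝ) ≤ ((K * b : ℕ) : ℝ) := by
    exact_mod_cast h b hb
  rw [Nat.cast_pow, Nat.cast_pow, Nat.cast_mul, Nat.cast_ofNat, ← pow_mul, mul_comm 16,
    pow_mul] at h1
  have h2 : Real.exp (Real.log b / 16) ^ 16 = b := by
    rw [← Real.exp_nat_mul]
    have : ((16 : ℕ) : ℝ) * (Real.log b / 16) = Real.log b := by push_cast; ring
    rw [this, Real.exp_log hb']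
  rw [mul_pow, h2]
  exact h1.trans (mul_le_mul_of_nonneg_right (le_self_pow₀ hK' (by norm_num)) hb'.le)

theorem totient_eq (b : ℕ) :
    (b.totient : ℝ) = b * ∏ p ∈ b.primeFactors, (1 - (1 : ℝ) / p) := by
  have h := congrArg (fun q : ℚ => (q : ℝ)) (Nat.totient_eq_mul_prod_factors b)
  simp only [one_div]
  simpa using h

theorem fac_nonneg (p : ℕ) : (0 : ℝ) ≤ 1 - 1 / p := by
  rcases Nat.eq_zero_or_pos p with rfl | hp
  · simp
  · have : (1 : ℝ) ≤ p := by exact_mod_cast hp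
    rw [sub_nonneg, div_le_one (by linarith)]
    exact this

theorem fac_le_one (p : ℕ) : (1 : ℝ) - 1 / p ≤ 1 := by
  have : (0 : ℝ) ≤ 1 / p := by positivity
  linarith

theorem le_totient (b : ℕ) : (b : ℝ) ≤ b.totient * 2 ^ b.primeFactors.card := by
  rw [totient_eq, mul_assoc, ← prod_const, ← prod_mul_distrib]
  refine le_mul_of_one_le_right (Nat.cast_nonneg _) ?_
  refine le_trans (prod_const_one (s := b.primeFactors)).ge
    (prod_le_prod (fun _ _ => zero_le_one) fun p hp => ?_)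
  have h2 : (2 : ℝ) ≤ p := by exact_mod_cast (Nat.prime_of_mem_primeFactors hp).two_le
  have : (1 : ℝ) / p ≤ 1 / 2 := one_div_le_one_div_of_le (by norm_num) h2
  linarith

/-- The primes up to `Y` that do not divide `b`. -/
def QQ (b Y : ℕ) : Finset ℕ := (range (Y + 1)).filter fun p => p.Prime ∧ ¬p ∣ b

theorem prod_QQ_le (b Y : ℕ) : ∏ p ∈ QQ b Y, p ≤ 4 ^ Y := by
  refine le_trans ?_ (primorial_le_four_pow Y)
  rw [primorial]
  refine prod_le_prod_of_subset_of_one_le' (fun p hp => ?_) fun p hp _ =>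
    (mem_filter.1 hp).2.one_le
  exact mem_filter.2 ⟨(mem_filter.1 hp).1, (mem_filter.1 hp).2.1⟩

theorem dens (C0 : ℝ) (hM : MLow (fun _ => 1) C0) (b : ℕ) (hb : b ≠ 0) (y : ℝ) (hy : 2 ≤ y) :
    (∏ p ∈ b.primeFactors, (1 - (1 : ℝ) / p)) * ∏ p ∈ QQ b ⌊y⌋₊, (1 - (1 : ℝ) / p) ≤
      Real.exp C0 / Real.log y := by
  have hd : Disjoint b.primeFactors (QQ b ⌊y⌋₊) := by
    rw [disjoint_left]
    intro p hp hq
    exact (mem_filter.1 hq).2.2 (Nat.dvd_of_mem_primeFactors hp)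
  rw [← prod_union hd]
  have hsub : (Ioc ⌊(2 : ℝ)⌋₊ ⌊y⌋₊).filter Nat.Prime ⊆ b.primeFactors ∪ QQ b ⌊y⌋₊ := by
    intro p hp
    obtain ⟨h1, h2⟩ := mem_filter.1 hp
    by_cases h : p ∣ b
    · exact mem_union_left _ (Nat.mem_primeFactors.2 ⟨h2, h, hb⟩)
    · exact mem_union_right _
        (mem_filter.2 ⟨mem_range.2 (Nat.lt_succ_of_le (mem_Ioc.1 h1).2), h2, h⟩)
  have h1 := prod_le_prod_of_subset_of_le_one hsub (f := fun p : ℕ => 1 - (1 : ℝ) / p)
    (fun p _ => fac_nonneg p) (fun p _ _ => fac_le_one p)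
  refine h1.trans ?_
  have h2 : ∏ p ∈ (Ioc ⌊(2 : ℝ)⌋₊ ⌊y⌋₊).filter Nat.Prime, (1 - (1 : ℝ) / p) ≤
      Real.exp (-∑ p ∈ (Ioc ⌊(2 : ℝ)⌋₊ ⌊y⌋₊).filter Nat.Prime, ((1 : ℕ) : ℝ) / p) := by
    rw [← sum_neg_distrib, Real.exp_sum]
    refine prod_le_prod (fun p _ => fac_nonneg p) fun p _ => ?_
    have := Real.add_one_le_exp (-(((1 : ℕ) : ℝ) / p))
    rw [Nat.cast_one] at this ⊢
    linarith
  refine h2.trans ?_
  have h3 := hM 2 y le_rfl hy
  have l2 : 0 < Real.log 2 := Real.log_pos (by norm_num)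
  have ly : 0 < Real.log y := Real.log_pos (by linarith)
  have l3 : Real.log 2 ≤ 1 := by have := Real.log_two_lt_d9; linarith
  calc Real.exp (-∑ p ∈ (Ioc ⌊(2 : ℝ)⌋₊ ⌊y⌋₊).filter Nat.Prime, ((1 : ℕ) : ℝ) / p)
      ≤ Real.exp (C0 - Real.log (Real.log y / Real.log 2)) := Real.exp_le_exp.2 (by linarith)
    _ = Real.exp C0 * Real.log 2 / Real.log y := by
        rw [Real.exp_sub, Real.exp_log (by positivity)]
        field_simp
    _ ≤ Real.exp C0 / Real.log y := by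
        refine div_le_div_of_nonneg_right ?_ ly.le
        exact mul_le_of_le_one_right (Real.exp_pos _).le l3

/-- The residue class that makes `x + h b` divisible by `p`. -/
def AA (b p h : ℕ) : Finset ℕ := (range p).filter fun x => p ∣ x + h * b

theorem card_AA (b p h : ℕ) (hp : 0 < p) : (AA b p h).card = 1 := by
  rw [card_eq_one]
  refine ⟨(p - h * b % p) % p, ?_⟩
  have key : (p - h * b % p) % p + h * b ≡ 0 [MOD p] := by
    have h1 : (p - h * b % p) % p + h * b ≡ (p - h * b % p) + h * b % p [MOD p] :=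
      (Nat.mod_modEq _ _).add (Nat.mod_modEq _ _).symm
    rw [Nat.sub_add_cancel (Nat.mod_lt _ hp).le] at h1
    exact h1.trans (Nat.modEq_zero_iff_dvd.2 dvd_rfl)
  ext x
  rw [AA, mem_filter, mem_range, mem_singleton]
  constructor
  · rintro ⟨h1, h2⟩
    have h3 : x ≡ (p - h * b % p) % p [MOD p] :=
      Nat.ModEq.add_right_cancel' (h * b) ((Nat.modEq_zero_iff_dvd.2 h2).trans key.symm)
    exact Nat.ModEq.eq_of_lt_of_lt h3 h1 (Nat.mod_lt _ hp)
  · rintro rfl
    exact ⟨Nat.mod_lt _ hp, Nat.modEq_zero_iff_dvd.1 key⟩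

theorem disj_AA (b p h h' : ℕ) (hp : p.Prime) (hb : ¬p ∣ b) (h1 : h < p) (h2 : h' < p)
    (hne : h ≠ h') : Disjoint (AA b p h) (AA b p h') := by
  rw [disjoint_left]
  intro x hx hx'
  have e1 := Nat.modEq_zero_iff_dvd.2 (mem_filter.1 hx).2
  have e2 := Nat.modEq_zero_iff_dvd.2 (mem_filter.1 hx').2
  have e3 : h * b ≡ h' * b [MOD p] := Nat.ModEq.add_left_cancel' x (e1.trans e2.symm)
  have e4 : h ≡ h' [MOD p] :=
    Nat.ModEq.cancel_right_of_coprime ((Nat.Prime.coprime_iff_not_dvd hp).2 hb) e3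
  exact hne (Nat.ModEq.eq_of_lt_of_lt e4 h1 h2)

theorem dvd_of_AA (b p h n : ℕ) (hn : n % p ∈ AA b p h) : p ∣ n + h * b := by
  have e1 := Nat.modEq_zero_iff_dvd.2 (mem_filter.1 hn).2
  exact Nat.modEq_zero_iff_dvd.1 (((Nat.mod_modEq n p).symm.add_right _).trans e1)

theorem count (hU : UnitStmt) (b W z a q c : ℕ) (hb : 0 < b) (hW : 0 < W) (hq : 0 < q)
    (h1 : Nat.Coprime W q) (h2 : Nat.Coprime W b) (h3 : Nat.Coprime q b) :
    |(((((range b).filter fun n => z < n ∧ n % W = a % W ∧ Nat.Coprime n b).filter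
        fun n => n % q = c % q).card : ℝ)) - (b.totient : ℝ) / W / q| ≤
      2 ^ b.primeFactors.card + z + 1 := by
  obtain ⟨e, e1, e2⟩ := Nat.chineseRemainder h1 a c
  have h := hU b (W * q) e b hb (Nat.mul_pos hW hq) (Nat.Coprime.mul_left h2 h3)
  have hb' : (b : ℝ) ≠ 0 := by exact_mod_cast hb.ne'
  have e3 : (b : ℝ) * b.totient / (b * ((W * q : ℕ) : ℝ)) = (b.totient : ℝ) / W / q := by
    push_cast
    rw [mul_div_mul_left _ _ hb', div_div]
  rw [e3] at h
  have hiff : ∀ n, n % (W * q) = e % (W * q) ↔ n % W = a % W ∧ n % q = c % q := fun n => by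
    have := Nat.modEq_and_modEq_iff_modEq_mul (a := n) (b := e) h1
    constructor
    · intro hn
      obtain ⟨u, v⟩ := this.2 hn
      exact ⟨u.trans e1, v.trans e2⟩
    · rintro ⟨u, v⟩
      exact this.1 ⟨Eq.trans u e1.symm, Eq.trans v e2.symm⟩
  set S := (((range b).filter fun n => z < n ∧ n % W = a % W ∧ Nat.Coprime n b).filter
    fun n => n % q = c % q) with hS
  set T := (range b).filter fun n => n % (W * q) = e % (W * q) ∧ Nat.Coprime n b with hT
  have s1 : S ⊆ T := fun n hn => by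
    obtain ⟨u, v⟩ := mem_filter.1 hn
    obtain ⟨u1, -, u3, u4⟩ := mem_filter.1 u
    exact mem_filter.2 ⟨u1, (hiff n).2 ⟨u3, v⟩, u4⟩
  have s2 : T ⊆ S ∪ range (z + 1) := fun n hn => by
    obtain ⟨u1, u2, u3⟩ := mem_filter.1 hn
    by_cases hz : z < n
    · exact mem_union_left _
        (mem_filter.2 ⟨mem_filter.2 ⟨u1, hz, ((hiff n).1 u2).1, u3⟩, ((hiff n).1 u2).2⟩)
    · exact mem_union_right _ (mem_range.2 (by omega))
  have c1 : (S.card : ℝ) ≤ T.card := by exact_mod_cast card_le_card s1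
  have c2 : (T.card : ℝ) ≤ S.card + (z + 1) := by
    have := (card_le_card s2).trans (card_union_le _ _)
    rw [card_range] at this
    exact_mod_cast this
  have hz : (0 : ℝ) ≤ z := Nat.cast_nonneg z
  rw [abs_le] at h ⊢
  constructor <;> linarith [h.1, h.2]

theorem small (K X t z W φ : ℝ) (hK : 1 ≤ K) (hX : 4 * (K * (K + 2)) ≤ X) (hX0 : 0 ≤ X)
    (ht0 : 0 < t) (ht : t ≤ K * Real.exp (X / 16)) (hz : z ≤ Real.exp (X / 16))
    (hW0 : 0 < W) (hW : W ≤ Real.exp (X / 4)) (hφ : Real.exp X ≤ φ * t) :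
    (t + z + 1) * Real.exp (X / 3) < φ / W := by
  rw [lt_div_iff₀ hW0]
  refine lt_of_mul_lt_mul_right ?_ ht0.le
  refine lt_of_lt_of_le ?_ hφ
  have h1 : 1 ≤ Real.exp (X / 16) := Real.one_le_exp (by positivity)
  have h2 : t + z + 1 ≤ (K + 2) * Real.exp (X / 16) := by linarith
  have h3 : K * (K + 2) < Real.exp (7 * X / 24) := by
    have := Real.add_one_le_exp (7 * X / 24)
    linarith
  have h4 : Real.exp X = Real.exp (7 * X / 24) *
      (Real.exp (X / 16) * Real.exp (X / 3) * Real.exp (X / 4) * Real.exp (X / 16)) := by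
    rw [← Real.exp_add, ← Real.exp_add, ← Real.exp_add, ← Real.exp_add]
    congr 1
    ring
  calc (t + z + 1) * Real.exp (X / 3) * W * t
      ≤ ((K + 2) * Real.exp (X / 16)) * Real.exp (X / 3) * Real.exp (X / 4) *
          (K * Real.exp (X / 16)) := by gcongr
    _ = K * (K + 2) *
        (Real.exp (X / 16) * Real.exp (X / 3) * Real.exp (X / 4) * Real.exp (X / 16)) := by ring
    _ < Real.exp X := by
        rw [h4]
        exact mul_lt_mul_of_pos_right h3 (by positivity)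

theorem num_N (c r X N : ℝ) (hc : 0 < c) (r1 : r ≤ 1) (x1 : 256 ≤ X)
    (x3 : c + 1 ≤ X) (n2 : N ≤ c * r * X * Real.log X + 1) : N ≤ X ^ 4 := by
  have hX0 : 0 ≤ X := by linarith
  have lX : 0 < Real.log X := Real.log_pos (by linarith)
  have lX' : Real.log X ≤ X := (Real.log_le_sub_one_of_pos (by linarith)).trans (by linarith)
  have a1 : c * r * X * Real.log X ≤ c * 1 * X * X := by gcongr
  have a2 : 1 ≤ X ^ 2 := one_le_pow₀ (by linarith)
  have a3 : (c + 1) * X ^ 2 ≤ X * X ^ 2 := by gcongr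
  have a4 : X ^ 3 ≤ X ^ 4 := pow_le_pow_right₀ (by linarith) (by norm_num)
  nlinarith

theorem num_z (X : ℝ) (x1 : 256 ≤ X) :
    Real.sqrt X ≤ X / 16 ∧ X / 8 ≤ Real.exp (Real.sqrt X) := by
  have sq : Real.sqrt X ^ 2 = X := Real.sq_sqrt (by linarith)
  have s16 : 16 ≤ Real.sqrt X := Real.le_sqrt_of_sq_le (by linarith)
  have := Real.quadratic_le_exp_of_nonneg (Real.sqrt_nonneg X)
  exact ⟨by nlinarith, by linarith⟩

theorem num_H (c r s X N E δ : ℝ) (hc : 0 < c) (hδ : 0 < δ) (r0 : 0 ≤ r) (s0 : 0 ≤ s)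
    (s1 : s ≤ 1) (x1 : 256 ≤ X) (x2 : 2 / δ ≤ X) (hcδ : 4 * c * E = δ)
    (n2 : N ≤ c * r * X * Real.log X + 1) (d1 : r * s ≤ E / Real.log (X / 8)) :
    N * s ≤ δ * X := by
  have lX : 0 < Real.log X := Real.log_pos (by linarith)
  have l1 : Real.log X ≤ 2 * Real.log (X / 8) := by
    have : Real.log ((X / 8) ^ 2) = 2 * Real.log (X / 8) := by
      rw [Real.log_pow]; norm_num
    rw [← this]
    exact Real.log_le_log (by linarith) (by nlinarith)
  have l2 : 0 < Real.log (X / 8) := by linarith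
  rw [le_div_iff₀ l2] at d1
  have rs : 0 ≤ r * s := mul_nonneg r0 s0
  have d2 : r * s * Real.log X ≤ 2 * E := by nlinarith
  have hX0 : 0 ≤ X := by linarith
  have d3 : c * X * (r * s * Real.log X) ≤ c * X * (2 * E) :=
    mul_le_mul_of_nonneg_left d2 (by positivity)
  have d4 : N * s ≤ (c * r * X * Real.log X + 1) * s := mul_le_mul_of_nonneg_right n2 s0
  have d5 : 2 ≤ δ * X := by
    rw [div_le_iff₀ hδ] at x2
    linarith
  have d6 : c * X * (2 * E) = δ * X / 2 := by rw [← hcδ]; ring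
  have d7 : (c * r * X * Real.log X + 1) * s = c * X * (r * s * Real.log X) + s := by ring
  linarith

theorem num_W (b : ℕ) (X : ℝ) (x1 : 256 ≤ X) :
    ((∏ p ∈ QQ b ⌊X / 8⌋₊, p : ℕ) : ℝ) ≤ Real.exp (X / 4) := by
  have y1 : (⌊X / 8⌋₊ : ℝ) ≤ X / 8 := Nat.floor_le (by linarith)
  generalize ⌊X / 8⌋₊ = Y at y1
  have a1 : ((∏ p ∈ QQ b Y, p : ℕ) : ℝ) ≤ 4 ^ Y := by exact_mod_cast prod_QQ_le b Y
  have a2 : (4 : ℝ) ≤ Real.exp 2 := by
    have := Real.quadratic_le_exp_of_nonneg (x := 2) (by norm_num)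
    linarith
  calc ((∏ p ∈ QQ b Y, p : ℕ) : ℝ) ≤ Real.exp 2 ^ Y :=
        a1.trans (pow_le_pow_left₀ (by norm_num) a2 Y)
    _ = Real.exp (Y * 2) := (Real.exp_nat_mul 2 Y).symm
    _ ≤ Real.exp (X / 4) := Real.exp_le_exp.2 (by linarith)

end LeastA

open LeastA in
theorem least (hT : STStmt) (hM : MertOneStmt) (hU : UnitStmt) (hG : GreedyStmt) :
    LeastStmt := by
  obtain ⟨C0, hM⟩ := hM
  obtain ⟨δ, X0, hδ, hT⟩ := hT 1 C0
  obtain ⟨K, hK, hω⟩ := two_omega
  have hE : 0 < Real.exp C0 := Real.exp_pos _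
  obtain ⟨c, hc, hcδ⟩ : ∃ c : ℝ, 0 < c ∧ 4 * c * Real.exp C0 = δ :=
    ⟨δ / (4 * Real.exp C0), by positivity, by field_simp⟩
  refine ⟨c, hc, ⌈Real.exp (|X0| + 256 + 2 / δ + c + 4 * (K * (K + 2)))⌉₊, fun b hb => ?_⟩
  have hb1 := Nat.ceil_le.1 hb
  have hbpos : (0 : ℝ) < b := (Real.exp_pos _).trans_le hb1
  have hb0 : 0 < b := by exact_mod_cast hbpos
  have hX := (Real.le_log_iff_exp_le hbpos).2 hb1
  have hbX : Real.exp (Real.log b) = b := Real.exp_log hbpos
  have hω' := hω b hb0.ne'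
  generalize hXb : Real.log b = X at hX hbX hω' ⊢
  have p1 : 0 < 2 / δ := by positivity
  have p2 : 0 ≤ 4 * (K * (K + 2)) := by positivity
  have p3 := abs_nonneg X0
  have p4 := le_abs_self X0
  have x1 : 256 ≤ X := by linarith
  have x2 : 2 / δ ≤ X := by linarith
  have x3 : c + 1 ≤ X := by linarith
  have x4 : 4 * (K * (K + 2)) ≤ X := by linarith
  have x5 : X0 ≤ X := by linarith
  have lX : 0 < Real.log X := Real.log_pos (by linarith)
  set r := ∏ p ∈ b.primeFactors, (1 - (1 : ℝ) / p) with hr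
  have r0 : 0 ≤ r := prod_nonneg fun p _ => fac_nonneg p
  have r1 : r ≤ 1 := prod_le_one (fun p _ => fac_nonneg p) fun p _ => fac_le_one p
  set N := ⌈c * r * X * Real.log X⌉₊ with hN
  have n0 : 0 ≤ c * r * X * Real.log X := by
    have : 0 ≤ X := by linarith
    positivity
  have n1 : c * r * X * Real.log X ≤ N := Nat.le_ceil _
  have n2 : (N : ℝ) ≤ c * r * X * Real.log X + 1 := (Nat.ceil_lt_add_one n0).le
  have X4 : X ≤ X ^ 4 := le_self_pow₀ (by linarith) (by norm_num)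
  have n3 : (N : ℝ) ≤ X ^ 4 := num_N c r X N hc r1 x1 x3 n2
  have W1 := num_W b X x1
  have d1 := dens C0 hM b hb0.ne' (X / 8) (by linarith)
  rw [← hr] at d1
  set Y := ⌊X / 8⌋₊ with hY
  have y1 : (Y : ℝ) ≤ X / 8 := Nat.floor_le (by linarith)
  set z := ⌊Real.exp (Real.sqrt X)⌋₊ with hz
  have z1 : (z : ℝ) ≤ Real.exp (Real.sqrt X) := Nat.floor_le (Real.exp_pos _).le
  have z2 : (z : ℝ) ≤ Real.exp (X / 16) := z1.trans (Real.exp_le_exp.2 (num_z X x1).1)
  have yz : Y ≤ z := Nat.floor_mono (num_z X x1).2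
  have hQ : ∀ p ∈ QQ b Y, p ≤ Y ∧ p.Prime ∧ ¬p ∣ b := fun p hp =>
    ⟨Nat.lt_succ_iff.1 (mem_range.1 (mem_filter.1 hp).1), (mem_filter.1 hp).2⟩
  obtain ⟨a0, ha0⟩ := hG (QQ b Y) (range N) (fun _ => 1) (AA b) (fun p hp => (hQ p hp).2.1)
    fun p hp h _ => ⟨filter_subset _ _, card_AA b p h (hQ p hp).2.1.pos⟩
  simp only [card_range, Nat.cast_one] at ha0
  set H := (range N).filter fun h => ∀ p ∈ QQ b Y, a0 % p ∉ AA b p h with hH
  have hcard : (H.card : ℝ) ≤ δ * X :=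
    ha0.trans (num_H c r _ X N _ δ hc hδ r0 (prod_nonneg fun p _ => fac_nonneg p)
      (prod_le_one (fun p _ => fac_nonneg p) fun p _ => fac_le_one p) x1 x2 hcδ n2 d1)
  set W := ∏ p ∈ QQ b Y, p with hW
  have W0 : 0 < W := prod_pos fun p hp => (hQ p hp).2.1.pos
  have Wb : Nat.Coprime W b :=
    Nat.Coprime.prod_left fun p hp => (Nat.Prime.coprime_iff_not_dvd (hQ p hp).2.1).2 (hQ p hp).2.2
  obtain ⟨n, hn, hcov⟩ := hT X x5 (fun _ => 1) b H
    ((range b).filter fun n => z < n ∧ n % W = a0 % W ∧ Nat.Coprime n b) (AA b)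
    ((b.totient : ℝ) / W) (2 ^ b.primeFactors.card + z + 1) hM hb0.ne'
    (by rw [hXb]; exact le_self_pow₀ (by linarith) (by norm_num)) hcard (fun _ _ _ => le_rfl)
    (fun p hp hp4 hpb => by
      have hlt : ∀ h ∈ H, h < p := fun h hh => by
        have a1 : h < N := mem_range.1 (mem_filter.1 hh).1
        have a2 : (N : ℝ) < p := n3.trans_lt hp4
        exact a1.trans (by exact_mod_cast a2)
      exact ⟨fun h _ => ⟨filter_subset _ _, card_AA b p h hp.pos⟩, fun h hh h' hh' hne =>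
        disj_AA b p h h' hp hpb (hlt h hh) (hlt h' hh') hne⟩)
    (fun q e hq hqp => by
      refine count hU b W z a0 q e hb0 W0 hq ?_ Wb ?_
      · refine Nat.Coprime.prod_left fun p hp =>
          (Nat.Prime.coprime_iff_not_dvd (hQ p hp).2.1).2 fun hd => ?_
        have a1 := (hqp p (hQ p hp).2.1 hd).1
        have a2 : (p : ℝ) ≤ Y := by exact_mod_cast (hQ p hp).1
        linarith
      · exact Nat.coprime_of_dvd fun p hp hd => (hqp p hp hd).2)
    (small K X _ z W _ hK x4 (by linarith) (by positivity) hω' z2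
      (by exact_mod_cast W0) W1 (by rw [hbX]; exact le_totient b))
  obtain ⟨m1, m2, m3, m4⟩ := mem_filter.1 hn
  have m1' : n < b := mem_range.1 m1
  refine ⟨n, by omega, m1', m4, fun p hp hpn => ?_⟩
  have e1 : n + p / b * b = p := by
    have a1 : p % b = n := by
      have : p % b = n % b := hpn
      rw [this, Nat.mod_eq_of_lt m1']
    rw [← a1]
    exact Nat.mod_add_div' p b
  have hNp : N ≤ p / b := by
    by_contra hlt
    have hlt : p / b < N := not_le.1 hlt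
    have : ∃ l : ℕ, l.Prime ∧ l ≤ z ∧ l ∣ n + p / b * b := by
      by_cases hh : p / b ∈ H
      · obtain ⟨l, l1, -, -, l2, l3⟩ := hcov _ hh
        exact ⟨l, l1, Nat.le_floor l2, dvd_of_AA b l _ n l3⟩
      · have : ¬∀ l ∈ QQ b Y, a0 % l ∉ AA b l (p / b) := fun h =>
          hh (mem_filter.2 ⟨mem_range.2 hlt, h⟩)
        push Not at this
        obtain ⟨l, l1, l2⟩ := this
        refine ⟨l, (hQ l l1).2.1, (hQ l l1).1.trans yz, dvd_of_AA b l _ n ?_⟩
        have a1 : n % l = a0 % l := Nat.ModEq.of_dvd (dvd_prod_of_mem _ l1) m3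
        rw [a1]
        exact l2
    obtain ⟨l, l1, l2, l3⟩ := this
    rw [e1] at l3
    have := (Nat.prime_dvd_prime_iff_eq l1 hp).1 l3
    omega
  have e2 : N * b < p := by
    have := Nat.mul_le_mul_right b hNp
    omega
  have e3 : (N : ℝ) * b < p := by exact_mod_cast e2
  rw [totient_eq, ← hr]
  have e4 : c * r * X * Real.log X * b ≤ N * b := mul_le_mul_of_nonneg_right n1 hbpos.le
  calc c * (b * r) * X * Real.log X = c * r * X * Real.log X * b := by ring
    _ < p := e4.trans_lt e3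

end Pool.Agent.MP_c5bf7b_nt.H98
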