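import Pool.Agent.MP_c5bf7b_nt.H98.Spec

/-! The abstract sieve applied to residue classes modulo primes. -/

set_option autoImplicit false

namespace Pool.Agent.MP_c5bf7b_nt.H98

open Finset

namespace ST

open ArithmeticFunction

lemma upp {N : ℕ} (hN : 1 ≤ N) : ∑ d ∈ Icc 1 N, vonMangoldt d / d ≤ Real.log N + 6 := by
  have hN0 : (0 : ℝ) < N := by exact_mod_cast hN
  have h2 : ∑ n ∈ Icc 1 N, Real.log n =
      ∑ d ∈ Icc 1 N, vonMangoldt d * (((Ioc 0 N).filter fun n => d ∣ n).card : ℝ) := by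
    have : ∀ n ∈ Icc 1 N, Real.log n = ∑ d ∈ Icc 1 N, if d ∣ n then vonMangoldt d else 0 := by
      intro n hn
      rw [mem_Icc] at hn
      rw [← vonMangoldt_sum, ← sum_filter]
      congr 1
      ext d
      simp only [Nat.mem_divisors, mem_filter, mem_Icc]
      constructor
      · rintro ⟨h, h0⟩
        exact ⟨⟨Nat.pos_of_dvd_of_pos h hn.1, (Nat.le_of_dvd hn.1 h).trans hn.2⟩, h⟩
      · rintro ⟨_, h⟩
        exact ⟨h, by omega⟩
    rw [sum_congr rfl this, sum_comm]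
    refine sum_congr rfl fun d _ => ?_
    rw [← sum_filter, sum_const, nsmul_eq_mul, mul_comm]
    rfl
  have h3 : N * ∑ d ∈ Icc 1 N, vonMangoldt d / d - ∑ d ∈ Icc 1 N, vonMangoldt d ≤
      ∑ d ∈ Icc 1 N, vonMangoldt d * (((Ioc 0 N).filter fun n => d ∣ n).card : ℝ) := by
    rw [mul_sum, ← sum_sub_distrib]
    refine sum_le_sum fun d hd => ?_
    rw [Nat.Ioc_filter_dvd_card_eq_div]
    have hd0 : (0 : ℝ) < d := by exact_mod_cast (mem_Icc.1 hd).1
    have h5 : (N : ℝ) / d - 1 ≤ ((N / d : ℕ) : ℝ) := by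
      have := Nat.lt_floor_add_one ((N : ℝ) / d)
      rw [Nat.floor_div_eq_div] at this
      linarith
    calc N * (vonMangoldt d / d) - vonMangoldt d = vonMangoldt d * ((N : ℝ) / d - 1) := by ring
      _ ≤ _ := mul_le_mul_of_nonneg_left h5 vonMangoldt_nonneg
  have h4 : ∑ n ∈ Icc 1 N, Real.log n ≤ N * Real.log N := by
    calc ∑ n ∈ Icc 1 N, Real.log n ≤ ∑ _n ∈ Icc 1 N, Real.log N := by
          refine sum_le_sum fun n hn => ?_
          rw [mem_Icc] at hn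
          exact Real.log_le_log (by exact_mod_cast hn.1) (by exact_mod_cast hn.2)
      _ = _ := by simp
  have h5 : ∑ d ∈ Icc 1 N, vonMangoldt d ≤ 6 * N := by
    have h6 := Chebyshev.psi_le_const_mul_self hN0.le
    have h7 : Chebyshev.psi N = ∑ d ∈ Icc 1 N, vonMangoldt d := by
      simp [Chebyshev.psi, ← Icc_add_one_left_eq_Ioc]
    have h8 : Real.log 4 ≤ 2 := by
      rw [show (4 : ℝ) = 2 ^ 2 by norm_num, Real.log_pow]
      push_cast
      linarith [Real.log_two_lt_d9]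
    rw [← h7]
    nlinarith
  have : N * ∑ d ∈ Icc 1 N, vonMangoldt d / d ≤ N * (Real.log N + 6) := by linarith
  exact le_of_mul_le_mul_left this hN0

/-- upper bound for the sum of `log p / p` over any set of primes below `exp x` -/
lemma mert (S : Finset ℕ) (x : ℝ) (hx : 0 ≤ x) (hS : ∀ p ∈ S, p.Prime ∧ Real.log p ≤ x) :
    ∑ p ∈ S, Real.log p / p ≤ x + 6 := by
  have h1 : (1 : ℝ) ≤ Real.exp x := Real.one_le_exp hx
  have hN : 1 ≤ ⌊Real.exp x⌋₊ := Nat.le_floor (by simpa using h1)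
  have hN0 : (0 : ℝ) < ⌊Real.exp x⌋₊ := by exact_mod_cast hN
  have h2 := upp hN
  have h3 : Real.log ⌊Real.exp x⌋₊ ≤ x := by
    have := Real.log_le_log hN0 (Nat.floor_le (Real.exp_pos x).le)
    rwa [Real.log_exp] at this
  have h4 : ∑ p ∈ S, Real.log p / p = ∑ p ∈ S, vonMangoldt p / (p : ℝ) :=
    sum_congr rfl fun p hp => by rw [vonMangoldt_apply_prime (hS p hp).1]
  have h5 : S ⊆ Icc 1 ⌊Real.exp x⌋₊ := by
    intro p hp
    have hp0 : (0 : ℝ) < p := by exact_mod_cast (hS p hp).1.pos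
    refine mem_Icc.2 ⟨(hS p hp).1.pos, Nat.le_floor ?_⟩
    rw [← Real.exp_log hp0]
    exact Real.exp_le_exp.2 (hS p hp).2
  have h6 : ∑ p ∈ S, vonMangoldt p / (p : ℝ) ≤ ∑ d ∈ Icc 1 ⌊Real.exp x⌋₊, vonMangoldt d / d :=
    sum_le_sum_of_subset_of_nonneg h5 fun d _ _ =>
      div_nonneg vonMangoldt_nonneg (Nat.cast_nonneg _)
  linarith

/-- tail of the sum of inverse squares -/
lemma sqs (S : Finset ℕ) (y : ℝ) (hy : 0 < y) (hS : ∀ p ∈ S, y < p) :
    ∑ p ∈ S, ((p : ℝ) ^ 2)⁻¹ ≤ 2 / y := by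
  have h1 : S ⊆ Ioo ⌊y⌋₊ (S.sup id + 1) := by
    intro p hp
    refine mem_Ioo.2 ⟨(Nat.floor_lt hy.le).2 (hS p hp), Nat.lt_succ_of_le ?_⟩
    exact le_sup (f := id) hp
  have h2 : ∑ p ∈ S, ((p : ℝ) ^ 2)⁻¹ ≤ ∑ p ∈ Ioo ⌊y⌋₊ (S.sup id + 1), ((p : ℝ) ^ 2)⁻¹ :=
    sum_le_sum_of_subset_of_nonneg h1 fun d _ _ => by positivity
  have h3 := sum_Ioo_inv_sq_le (α := ℝ) ⌊y⌋₊ (S.sup id + 1)
  have h4 : 2 / ((⌊y⌋₊ : ℝ) + 1) ≤ 2 / y :=
    div_le_div_of_nonneg_left (by norm_num) hy (Nat.lt_floor_add_one y).le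
  linarith

lemma omeg {D : ℕ} (hD : D ≠ 0) : (D.primeFactors.card : ℝ) ≤ 2 * Real.log D := by
  have h1 : 2 ^ D.primeFactors.card ≤ ∏ p ∈ D.primeFactors, p :=
    pow_card_le_prod _ _ _ fun p hp => (Nat.prime_of_mem_primeFactors hp).two_le
  have h2 : 2 ^ D.primeFactors.card ≤ D :=
    h1.trans (Nat.le_of_dvd (Nat.pos_of_ne_zero hD) (Nat.prod_primeFactors_dvd D))
  have h3 : (2 : ℝ) ^ D.primeFactors.card ≤ D := by exact_mod_cast h2
  have h4 := Real.log_le_log (by positivity) h3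
  rw [Real.log_pow] at h4
  have h5 : (0 : ℝ) ≤ D.primeFactors.card := Nat.cast_nonneg _
  nlinarith [Real.log_two_gt_d9]

/-- counting with several residue conditions -/
lemma crt {ι : Type} [DecidableEq ι] (pr : ι → ℕ) (hinj : Function.Injective pr)
    (good : ℕ → Prop) (Ω : Finset ℕ) (M E : ℝ)
    (hΩ : ∀ q c : ℕ, 0 < q → (∀ p : ℕ, p.Prime → p ∣ q → good p) →
      |((Ω.filter fun n => n % q = c % q).card : ℝ) - M / q| ≤ E)
    (B : ι → Finset ℕ) (S : Finset ι)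
    (hS : ∀ i ∈ S, (pr i).Prime ∧ good (pr i) ∧ B i ⊆ range (pr i)) :
    ∀ q c : ℕ, 0 < q → (∀ p : ℕ, p.Prime → p ∣ q → good p) → (∀ i ∈ S, ¬pr i ∣ q) →
      |((Ω.filter fun n => n % q = c % q ∧ ∀ i ∈ S, n % pr i ∈ B i).card : ℝ) -
        M / q * ∏ i ∈ S, ((B i).card : ℝ) / pr i| ≤ E * ∏ i ∈ S, ((B i).card : ℝ) := by
  induction S using Finset.induction_on with
  | empty =>
    intro q c hq hg _
    simpa using hΩ q c hq hg
  | insert a S ha ih =>
    intro q c hq hg hn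
    have hS' : ∀ i ∈ S, (pr i).Prime ∧ good (pr i) ∧ B i ⊆ range (pr i) :=
      fun i hi => hS i (mem_insert_of_mem hi)
    obtain ⟨hpa, hga, hBa⟩ := hS a (mem_insert_self _ _)
    have hco : Nat.Coprime q (pr a) :=
      ((Nat.Prime.coprime_iff_not_dvd hpa).2 (hn a (mem_insert_self _ _))).symm
    have hq0 : (0 : ℝ) < q := by exact_mod_cast hq
    have hp0 : (0 : ℝ) < pr a := by exact_mod_cast hpa.pos
    have key : ∀ r ∈ B a,
        |(((Ω.filter fun n => n % q = c % q ∧ ∀ i ∈ insert a S, n % pr i ∈ B i).filter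
            fun n => n % pr a = r).card : ℝ) -
          M / (q * pr a) * ∏ i ∈ S, ((B i).card : ℝ) / pr i| ≤
          E * ∏ i ∈ S, ((B i).card : ℝ) := by
      intro r hr
      have hr' : r < pr a := mem_range.1 (hBa hr)
      obtain ⟨k, hk1, hk2⟩ := Nat.chineseRemainder hco c r
      have h1 := ih hS' (q * pr a) k (Nat.mul_pos hq hpa.pos) (fun p hp hd => by
        rcases (Nat.Prime.dvd_mul hp).1 hd with h | h
        · exact hg p hp h
        · rw [(Nat.prime_dvd_prime_iff_eq hp hpa).1 h]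
          exact hga) (fun i hi hd => by
        rcases (Nat.Prime.dvd_mul (hS' i hi).1).1 hd with h | h
        · exact hn i (mem_insert_of_mem hi) h
        · have := hinj ((Nat.prime_dvd_prime_iff_eq (hS' i hi).1 hpa).1 h)
          exact ha (this ▸ hi))
      have h2 : ((Ω.filter fun n => n % q = c % q ∧ ∀ i ∈ insert a S, n % pr i ∈ B i).filter
            fun n => n % pr a = r) =
          Ω.filter fun n => n % (q * pr a) = k % (q * pr a) ∧ ∀ i ∈ S, n % pr i ∈ B i := by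
        rw [filter_filter]
        refine filter_congr fun n _ => ?_
        have h3 : n % (q * pr a) = k % (q * pr a) ↔ n % q = c % q ∧ n % pr a = r := by
          have h4 := Nat.modEq_and_modEq_iff_modEq_mul (a := n) (b := k) hco
          unfold Nat.ModEq at h4 hk1 hk2
          rw [← h4, hk1, hk2, Nat.mod_eq_of_lt hr']
        rw [h3, forall_mem_insert]
        constructor
        · rintro ⟨⟨h5, _, h6⟩, h7⟩
          exact ⟨⟨h5, h7⟩, h6⟩
        · rintro ⟨⟨h5, h7⟩, h6⟩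
          exact ⟨⟨h5, h7 ▸ hr, h6⟩, h7⟩
      rw [h2]
      rw [Nat.cast_mul] at h1
      exact h1
    have hcard := card_eq_sum_card_fiberwise (f := fun n => n % pr a)
      (s := Ω.filter fun n => n % q = c % q ∧ ∀ i ∈ insert a S, n % pr i ∈ B i) (t := B a)
      (fun n hn => (mem_filter.1 (mem_coe.1 hn)).2.2 a (mem_insert_self _ _))
    rw [hcard, prod_insert ha, prod_insert ha, Nat.cast_sum]
    have h8 : M / q * (((B a).card : ℝ) / pr a * ∏ i ∈ S, ((B i).card : ℝ) / pr i) =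
        ∑ _r ∈ B a, M / (q * pr a) * ∏ i ∈ S, ((B i).card : ℝ) / pr i := by
      rw [sum_const, nsmul_eq_mul]
      field_simp
    have h9 : E * (((B a).card : ℝ) * ∏ i ∈ S, ((B i).card : ℝ)) =
        ∑ _r ∈ B a, E * ∏ i ∈ S, ((B i).card : ℝ) := by
      rw [sum_const, nsmul_eq_mul]
      ring
    rw [h8, h9, ← sum_sub_distrib]
    exact (abs_sum_le_sum_abs _ _).trans (sum_le_sum key)

open Classical in
/-- the translate hit by `n` at the prime `p` -/
noncomputable def stt (H : Finset ℕ) (A : ℕ → ℕ → Finset ℕ) (n p : ℕ) : Option H :=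
  if hx : ∃ h : H, n % p ∈ A p h then some hx.choose else none

lemma stt_iff (H : Finset ℕ) (A : ℕ → ℕ → Finset ℕ) (n p : ℕ)
    (hd : ∀ h ∈ H, ∀ h' ∈ H, h ≠ h' → Disjoint (A p h) (A p h')) (h : H) :
    stt H A n p = some h ↔ n % p ∈ A p h := by
  unfold stt
  split_ifs with hx
  · have h1 := hx.choose_spec
    constructor
    · intro h2
      rw [← Option.some.inj h2]
      exact h1
    · intro h2
      congr 1
      by_contra h3
      exact disjoint_left.1 (hd _ hx.choose.2 _ h.2 fun h4 => h3 (Subtype.ext h4)) h1 h2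
  · constructor
    · intro h2
      cases h2
    · intro h2
      exact absurd ⟨h, h2⟩ hx

lemma eqd (P H Ω : Finset ℕ) (ρ : ℕ → ℕ) (A : ℕ → ℕ → Finset ℕ) (good : ℕ → Prop) (M E : ℝ)
    (hP : ∀ p ∈ P, p.Prime ∧ good p)
    (hA : ∀ p ∈ P, (∀ h ∈ H, A p h ⊆ range p ∧ (A p h).card = ρ p) ∧
      ∀ h ∈ H, ∀ h' ∈ H, h ≠ h' → Disjoint (A p h) (A p h'))
    (hΩ : ∀ q c : ℕ, 0 < q → (∀ p : ℕ, p.Prime → p ∣ q → good p) →
      |((Ω.filter fun n => n % q = c % q).card : ℝ) - M / q| ≤ E) (σ : P → Option H) :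
    |(((univ : Finset Ω).filter fun n : Ω => ∀ i : P, σ i = none ∨ stt H A n i = σ i).card : ℝ) -
        M * ∏ i : P, (if σ i = none then 1 else (ρ i : ℝ) / (i : ℕ))| ≤
      E * ∏ i : P, (if σ i = none then 1 else (ρ i : ℝ)) := by
  have h1 := crt (ι := P) Subtype.val Subtype.val_injective good Ω M E hΩ
    (fun i => (σ i).elim ∅ fun h => A i h) (univ.filter fun i => ¬σ i = none) (fun i hi => by
      refine ⟨(hP i i.2).1, (hP i i.2).2, ?_⟩
      obtain ⟨h, hh⟩ := Option.ne_none_iff_exists'.1 (mem_filter.1 hi).2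
      rw [hh]
      exact ((hA i i.2).1 h h.2).1) 1 0 one_pos
    (fun p hp hd => absurd (Nat.dvd_one.1 hd) hp.ne_one)
    (fun i _ hd => absurd (Nat.dvd_one.1 hd) (hP i i.2).1.ne_one)
  have hc : ∀ i ∈ univ.filter fun i : P => ¬σ i = none,
      (((σ i).elim ∅ fun h => A i h).card : ℝ) = ρ i := by
    intro i hi
    obtain ⟨h, hh⟩ := Option.ne_none_iff_exists'.1 (mem_filter.1 hi).2
    rw [hh]
    exact_mod_cast ((hA i i.2).1 h h.2).2
  have h2 : ∏ i : P, (if σ i = none then 1 else (ρ i : ℝ) / (i : ℕ)) =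
      ∏ i ∈ univ.filter fun i : P => ¬σ i = none,
        (((σ i).elim ∅ fun h => A i h).card : ℝ) / (i : ℕ) := by
    rw [prod_ite, prod_const_one, one_mul]
    exact prod_congr rfl fun i hi => by rw [hc i hi]
  have h3 : ∏ i : P, (if σ i = none then 1 else (ρ i : ℝ)) =
      ∏ i ∈ univ.filter fun i : P => ¬σ i = none,
        (((σ i).elim ∅ fun h => A i h).card : ℝ) := by
    rw [prod_ite, prod_const_one, one_mul]
    exact prod_congr rfl fun i hi => by rw [hc i hi]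
  have h4 : ((univ : Finset Ω).filter fun n : Ω => ∀ i : P, σ i = none ∨ stt H A n i = σ i).card =
      (Ω.filter fun n => n % 1 = 0 % 1 ∧ ∀ i ∈ univ.filter fun i : P => ¬σ i = none,
        n % (i : ℕ) ∈ (σ i).elim ∅ fun h => A i h).card := by
    have h5 : ∀ n : ℕ, (∀ i : P, σ i = none ∨ stt H A n i = σ i) ↔
        (n % 1 = 0 % 1 ∧ ∀ i ∈ univ.filter fun i : P => ¬σ i = none,
          n % (i : ℕ) ∈ (σ i).elim ∅ fun h => A i h) := by
      intro n
      constructor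
      · intro h
        refine ⟨by omega, fun i hi => ?_⟩
        obtain ⟨a, ha⟩ := Option.ne_none_iff_exists'.1 (mem_filter.1 hi).2
        rcases h i with h6 | h6
        · exact absurd h6 (mem_filter.1 hi).2
        · rw [ha] at h6 ⊢
          exact (stt_iff H A n i (hA i i.2).2 a).1 h6
      · intro h i
        by_cases h6 : σ i = none
        · exact Or.inl h6
        · obtain ⟨a, ha⟩ := Option.ne_none_iff_exists'.1 h6
          have h7 := h.2 i (mem_filter.2 ⟨mem_univ _, h6⟩)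
          rw [ha] at h7 ⊢
          exact Or.inr ((stt_iff H A n i (hA i i.2).2 a).2 h7)
    refine card_bij (fun n _ => (n : ℕ)) (fun n hn => ?_) (fun a _ b _ h => Subtype.ext h)
      (fun n hn => ?_)
    · exact mem_filter.2 ⟨n.2, (h5 n).1 (mem_filter.1 hn).2⟩
    · exact ⟨⟨n, (mem_filter.1 hn).1⟩, mem_filter.2 ⟨mem_univ _, (h5 n).2 (mem_filter.1 hn).2⟩, rfl⟩
  rw [h2, h3, h4]
  simpa using h1

lemma numA {X : ℝ} (hX : 4 * 10 ^ 16 ≤ X) :
    128 * (X + 1) * Real.exp (1 - Real.sqrt X / 32) ≤ 1 := by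
  have hs : Real.sqrt X ^ 2 = X := Real.sq_sqrt (by linarith)
  have hs1 : 2 * 10 ^ 8 ≤ Real.sqrt X := Real.le_sqrt_of_sq_le (by linarith)
  set s := Real.sqrt X
  have h1 := Real.pow_div_factorial_le_exp (s / 32) (by linarith) 3
  have h2 : Real.exp 1 ≤ 3 := by linarith [Real.exp_one_lt_d9]
  have h3 : ((Nat.factorial 3 : ℕ) : ℝ) = 6 := by norm_num [Nat.factorial]
  rw [h3] at h1
  rw [Real.exp_sub, mul_div_assoc', div_le_one (Real.exp_pos _)]
  have h4 : 128 * (X + 1) * Real.exp 1 ≤ 128 * (2 * s ^ 2) * 3 :=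
    mul_le_mul (by linarith) h2 (Real.exp_pos _).le (by positivity)
  have h5 : 768 * s ^ 2 ≤ (s / 32) ^ 3 / 6 := by
    have h6 : (s / 32) ^ 3 / 6 = s / 196608 * s ^ 2 := by ring
    rw [h6]
    exact mul_le_mul_of_nonneg_right (by linarith) (by positivity)
  linarith

lemma numB {X : ℝ} (hX : 4 * 10 ^ 16 ≤ X) :
    8 * (X + 1) * Real.exp (X / 4 + 2) ≤ Real.exp (X / 3) := by
  have h1 := Real.quadratic_le_exp_of_nonneg (x := X / 12) (by linarith)
  have h2 : Real.exp 1 ≤ 3 := by linarith [Real.exp_one_lt_d9]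
  have h3 : Real.exp 2 ≤ 9 := by
    rw [show (2 : ℝ) = 1 + 1 by norm_num, Real.exp_add]
    nlinarith [Real.exp_pos 1]
  have h4 : Real.exp (X / 3) = Real.exp (X / 12) * Real.exp (X / 4) := by
    rw [← Real.exp_add]
    congr 1
    ring
  have h5 : 8 * (X + 1) * Real.exp 2 ≤ Real.exp (X / 12) := by
    have h6 : 8 * (X + 1) * Real.exp 2 ≤ 8 * (2 * X) * 9 :=
      mul_le_mul (by linarith) h3 (Real.exp_pos _).le (by linarith)
    nlinarith
  rw [h4, Real.exp_add]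
  nlinarith [Real.exp_pos (X / 4)]

lemma numC {X G : ℝ} (hG : 1 < G) (hX : 0 < X) (h : 128 * G ≤ Real.log X) :
    4 * Real.log X * G ^ ⌈Real.log X / (4 * Real.log G)⌉₊ ≤ Real.sqrt X := by
  have hl : 0 < Real.log G := Real.log_pos hG
  set t := Real.log X with ht
  have ht0 : 0 < t := by linarith
  have h1 : (⌈t / (4 * Real.log G)⌉₊ : ℝ) < t / (4 * Real.log G) + 1 :=
    Nat.ceil_lt_add_one (by positivity)
  have h2 : G ^ ⌈t / (4 * Real.log G)⌉₊ ≤ Real.exp (t / 4) * G := by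
    rw [← Real.exp_log (by linarith : 0 < G), ← Real.exp_nat_mul, ← Real.exp_add, Real.log_exp]
    refine Real.exp_le_exp.2 ?_
    have h3 : (t / (4 * Real.log G) + 1) * Real.log G = t / 4 + Real.log G := by
      field_simp
    nlinarith
  have h4 : Real.sqrt X = Real.exp (t / 4) * Real.exp (t / 4) := by
    rw [← Real.exp_add, Real.sqrt_eq_iff_mul_self_eq hX.le (Real.exp_pos _).le, ← Real.exp_add,
      show t / 4 + t / 4 + (t / 4 + t / 4) = t by ring, ht, Real.exp_log hX]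
  have h5 := Real.quadratic_le_exp_of_nonneg (x := t / 4) (by linarith)
  have h6 : 4 * t * G ≤ Real.exp (t / 4) := by nlinarith
  rw [h4]
  calc 4 * t * G ^ ⌈t / (4 * Real.log G)⌉₊ ≤ 4 * t * (Real.exp (t / 4) * G) :=
        mul_le_mul_of_nonneg_left h2 (by linarith)
    _ = Real.exp (t / 4) * (4 * t * G) := by ring
    _ ≤ _ := mul_le_mul_of_nonneg_left h6 (Real.exp_pos _).le

/-- the primes used -/
noncomputable def PP (ρ : ℕ → ℕ) (D : ℕ) (X : ℝ) : Finset ℕ :=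
  (range (⌊Real.exp (Real.sqrt X)⌋₊ + 1)).filter
    fun p => p.Prime ∧ X ^ 4 < p ∧ ¬p ∣ D ∧ 1 ≤ ρ p

lemma mem_PP {ρ : ℕ → ℕ} {D : ℕ} {X : ℝ} {p : ℕ} : p ∈ PP ρ D X ↔
    (p : ℝ) ≤ Real.exp (Real.sqrt X) ∧ p.Prime ∧ X ^ 4 < p ∧ ¬p ∣ D ∧ 1 ≤ ρ p := by
  unfold PP
  rw [mem_filter, mem_range, Nat.lt_succ_iff, Nat.le_floor_iff (Real.exp_pos _).le]

lemma sub_sum (P : Finset ℕ) (q : ℕ → Prop) [DecidablePred q] (f : ℕ → ℝ) :
    ∑ i ∈ univ.filter (fun i : P => q i), f i = ∑ p ∈ P.filter q, f p := by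
  rw [sum_filter, sum_filter]
  exact sum_coe_sort P fun p => if q p then f p else 0

lemma low {ρ : ℕ → ℕ} {D d : ℕ} {X C0 : ℝ} (hM : MLow ρ C0) (hD : D ≠ 0)
    (hl : Real.log D ≤ X ^ 3) (hd : 2 * (d : ℝ) ≤ X) (hX : 2 ≤ X)
    (hρ : ∀ p : ℕ, p.Prime → X ^ 4 < p → ρ p ≤ d) {x y : ℝ} (hx : 4 * Real.log X ≤ x)
    (hxy : x ≤ y) (hy : y ≤ Real.sqrt X) :
    Real.log (y / x) - (C0 + 1) ≤
      ∑ p ∈ (PP ρ D X).filter (fun p : ℕ => x < Real.log p ∧ Real.log p ≤ y), (ρ p : ℝ) / p := by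
  have hX0 : 0 < X := by linarith
  have h4 : X ^ 4 ≤ Real.exp x := by
    have h1 : X ^ 4 = Real.exp (4 * Real.log X) := by
      rw [show (4 : ℝ) * Real.log X = Real.log (X ^ 4) by rw [Real.log_pow]; norm_num,
        Real.exp_log (by positivity)]
    rw [h1]
    exact Real.exp_le_exp.2 hx
  have h2 : 2 ≤ X ^ 4 := hX.trans (le_self_pow₀ (by linarith) (by norm_num))
  have h1 := hM (Real.exp x) (Real.exp y) (h2.trans h4) (Real.exp_le_exp.2 hxy)
  rw [Real.log_exp, Real.log_exp] at h1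
  set T := (Ioc ⌊Real.exp x⌋₊ ⌊Real.exp y⌋₊).filter Nat.Prime with hT
  have hmem : ∀ p ∈ T, p.Prime ∧ Real.exp x < p ∧ (p : ℝ) ≤ Real.exp y := by
    intro p hp
    obtain ⟨h5, h6⟩ := mem_filter.1 hp
    obtain ⟨h7, h8⟩ := mem_Ioc.1 h5
    exact ⟨h6, (Nat.floor_lt (Real.exp_pos _).le).1 h7,
      (Nat.le_floor_iff (Real.exp_pos _).le).1 h8⟩
  rw [← sum_filter_add_sum_filter_not T fun p => p ∣ D] at h1
  have h5 : ∑ p ∈ T.filter fun p => p ∣ D, (ρ p : ℝ) / p ≤ 1 := by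
    have h6 : ∑ p ∈ T.filter fun p => p ∣ D, (ρ p : ℝ) / p ≤
        (T.filter fun p => p ∣ D).card • ((d : ℝ) / X ^ 4) := by
      refine sum_le_card_nsmul _ _ _ fun p hp => ?_
      obtain ⟨h7, h8, _⟩ := hmem p (mem_filter.1 hp).1
      have h9 : X ^ 4 < p := h4.trans_lt h8
      exact div_le_div₀ (Nat.cast_nonneg _) (by exact_mod_cast hρ p h7 h9) (by positivity) h9.le
    have h7 : (T.filter fun p => p ∣ D).card ≤ D.primeFactors.card :=
      card_le_card fun p hp =>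
        Nat.mem_primeFactors.2 ⟨(hmem p (mem_filter.1 hp).1).1, (mem_filter.1 hp).2, hD⟩
    have h8 : ((T.filter fun p => p ∣ D).card : ℝ) ≤ 2 * X ^ 3 := by
      have h9 : ((T.filter fun p => p ∣ D).card : ℝ) ≤ D.primeFactors.card := by
        exact_mod_cast h7
      linarith [omeg hD]
    rw [nsmul_eq_mul] at h6
    refine h6.trans ((mul_le_mul_of_nonneg_right h8 (by positivity)).trans ?_)
    rw [mul_div_assoc', div_le_one (by positivity)]
    have h9 : 0 < X ^ 3 := by positivity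
    nlinarith
  have h6 : ∑ p ∈ T.filter fun p => ¬p ∣ D, (ρ p : ℝ) / p ≤
      ∑ p ∈ (PP ρ D X).filter (fun p : ℕ => x < Real.log p ∧ Real.log p ≤ y), (ρ p : ℝ) / p := by
    rw [← sum_filter_ne_zero (T.filter fun p => ¬p ∣ D)]
    refine sum_le_sum_of_subset_of_nonneg (fun p hp => ?_) fun p _ _ => by positivity
    obtain ⟨h7, h8⟩ := mem_filter.1 hp
    obtain ⟨h9, h10⟩ := mem_filter.1 h7
    obtain ⟨h11, h12, h13⟩ := hmem p h9
    have hp0 : (0 : ℝ) < p := by exact_mod_cast h11.pos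
    refine mem_filter.2 ⟨mem_PP.2 ⟨h13.trans (Real.exp_le_exp.2 hy), h11, h4.trans_lt h12, h10,
      Nat.one_le_iff_ne_zero.2 fun h14 => h8 (by simp [h14])⟩, ?_, ?_⟩
    · exact (Real.lt_log_iff_exp_lt hp0).2 h12
    · exact (Real.log_le_iff_le_exp hp0).2 h13
  linarith

end ST

open ST in
theorem st (hC : CoreStmt) (hS : SumStmt) : STStmt := by
  intro d C0
  obtain ⟨κ, G, hκ, hG, hsum⟩ := hS (C0 + 1) (2 * d)
  have hlG : 0 < Real.log G := Real.log_pos hG
  obtain ⟨β, hβ⟩ : ∃ β : ℝ, β = 16 * Real.log G / κ := ⟨_, rfl⟩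
  have hβ0 : 0 < β := by rw [hβ]; positivity
  refine ⟨min 1 (1 / (64 * β)), Real.exp (128 * G + β + 6) + 8 * d + 4 * 10 ^ 16,
    lt_min one_pos (by positivity), ?_⟩
  intro X hX ρ D H Ω A M E hM hD hl hH hρ hA hΩ hE
  have hd0 : (0 : ℝ) ≤ d := Nat.cast_nonneg _
  have he0 := Real.exp_pos (128 * G + β + 6)
  have hX1 : 4 * 10 ^ 16 ≤ X := by linarith
  have hX0 : 0 < X := by linarith
  have hXd : 8 * (d : ℝ) ≤ X := by linarith
  have hlX : 128 * G + β + 6 ≤ Real.log X := (Real.le_log_iff_exp_le hX0).2 (by linarith)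
  have hK0 : (0 : ℝ) ≤ H.card := Nat.cast_nonneg _
  have hK1 : (H.card : ℝ) ≤ X :=
    hH.trans ((mul_le_mul_of_nonneg_right (min_le_left _ _) hX0.le).trans (by linarith))
  have hK2 : 2 * (H.card : ℝ) * β ≤ X / 32 := by
    have h1 : (H.card : ℝ) ≤ 1 / (64 * β) * X :=
      hH.trans (mul_le_mul_of_nonneg_right (min_le_right _ _) hX0.le)
    have h2 : 1 / (64 * β) * X * β = X / 64 := by field_simp
    nlinarith
  have hE0 : 0 ≤ E := (abs_nonneg _).trans
    (hΩ 1 0 one_pos fun p hp hd => absurd (Nat.dvd_one.1 hd) hp.ne_one)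
  have hX4 : 0 < X ^ 4 := by positivity
  have hsq : 0 < Real.sqrt X := Real.sqrt_pos.2 hX0
  have hP : ∀ i : PP ρ D X, ((i : ℕ) : ℝ) ≤ Real.exp (Real.sqrt X) ∧ (i : ℕ).Prime ∧
      X ^ 4 < (i : ℕ) ∧ ¬(i : ℕ) ∣ D ∧ 1 ≤ ρ i := fun i => mem_PP.1 i.2
  have hp0 : ∀ i : PP ρ D X, (0 : ℝ) < (i : ℕ) := fun i => hX4.trans (hP i).2.2.1
  have hr1 : ∀ i : PP ρ D X, (1 : ℝ) ≤ ρ i := fun i => by exact_mod_cast (hP i).2.2.2.2
  have hrd : ∀ i : PP ρ D X, (ρ i : ℝ) ≤ d := fun i => by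
    exact_mod_cast hρ i (hP i).2.1 (hP i).2.2.1
  have hpi0 : ∀ i : PP ρ D X, 0 < (ρ i : ℝ) / (i : ℕ) := fun i =>
    div_pos (by linarith [hr1 i]) (hp0 i)
  have hpi1 : ∀ i : PP ρ D X, (ρ i : ℝ) / (i : ℕ) ≤ d / X ^ 4 := fun i =>
    div_le_div₀ hd0 (hrd i) hX4 (hP i).2.2.1.le
  have hXX : X ≤ X ^ 4 := le_self_pow₀ (by linarith) (by norm_num)
  have hw : (d : ℝ) / X ^ 4 ≤ 1 / 2 := by
    rw [div_le_iff₀ hX4]
    linarith
  have hl0 : ∀ i : PP ρ D X, 4 * Real.log X < Real.log (i : ℕ) := fun i => by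
    have h1 := Real.log_lt_log hX4 (hP i).2.2.1
    rw [Real.log_pow] at h1
    exact_mod_cast h1
  have hl1 : 0 < 4 * Real.log X := by linarith
  have hsq2 : ∑ i : PP ρ D X, (((i : ℕ) : ℝ) ^ 2)⁻¹ ≤ 2 / X ^ 4 := by
    rw [sum_coe_sort (PP ρ D X) fun p : ℕ => ((p : ℝ) ^ 2)⁻¹]
    exact sqs _ _ hX4 fun p hp => (mem_PP.1 hp).2.2.1
  have hSs := hsum (PP ρ D X) (fun i => (ρ i : ℝ) / (i : ℕ)) (fun i => Real.log (i : ℕ))
    (4 * Real.log X) (Real.sqrt X) ⌈Real.log X / (4 * Real.log G)⌉₊ hpi0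
    (fun i => (hpi1 i).trans hw) hl0 hl1 (fun x y hx hxy hy => by
      rw [sub_sum (PP ρ D X) (fun p : ℕ => x < Real.log p ∧ Real.log p ≤ y)
        fun p : ℕ => (ρ p : ℝ) / p]
      exact low hM hD hl (by linarith) (by linarith) hρ hx hxy hy) (fun x hx => by
      have h1 : ∑ i ∈ univ.filter (fun i : PP ρ D X => Real.log (i : ℕ) ≤ x),
          (ρ i : ℝ) / (i : ℕ) * Real.log (i : ℕ) ≤
          ∑ i ∈ univ.filter (fun i : PP ρ D X => Real.log (i : ℕ) ≤ x),
            d * (Real.log (i : ℕ) / (i : ℕ)) := by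
        refine sum_le_sum fun i _ => ?_
        rw [div_mul_eq_mul_div, mul_div_assoc]
        exact mul_le_mul_of_nonneg_right (hrd i)
          (div_nonneg (by linarith [hl0 i]) (hp0 i).le)
      rw [← mul_sum, sub_sum (PP ρ D X) (fun p : ℕ => Real.log p ≤ x)
        fun p : ℕ => Real.log p / p] at h1
      have h2 := mert ((PP ρ D X).filter fun p : ℕ => Real.log p ≤ x) x (by linarith)
        fun p hp => ⟨(mem_PP.1 (mem_filter.1 hp).1).2.1, (mem_filter.1 hp).2⟩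
      have h3 : x + 6 ≤ 2 * x := by linarith
      calc _ ≤ _ := h1
        _ ≤ d * (2 * x) := mul_le_mul_of_nonneg_left (h2.trans h3) hd0
        _ = _ := by ring) (numC hG hX0 (by linarith))
  obtain ⟨n, hn⟩ := hC (PP ρ D X) H Ω (fun i => (ρ i : ℝ) / (i : ℕ)) (fun i => (ρ i : ℝ))
    (fun i => Real.log (i : ℕ)) (fun n i => stt H A n i) M E (4 * Real.log X) (d / X ^ 4) β
    (Real.sqrt X) (X / 16) hpi0 hpi1 (by positivity) hw hr1 (fun i => (hl0 i).le) hl1 hsq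
    (by positivity)
    (eqd (PP ρ D X) H Ω ρ A (fun p => X ^ 4 < p ∧ ¬p ∣ D) M E
      (fun p hp => ⟨(mem_PP.1 hp).2.1, (mem_PP.1 hp).2.2.1, (mem_PP.1 hp).2.2.2.1⟩)
      (fun p hp => hA p (mem_PP.1 hp).2.1 (mem_PP.1 hp).2.2.1 (mem_PP.1 hp).2.2.2.1) hΩ)
    hβ0 (by linarith) (by
      refine le_trans ?_ (mul_le_mul_of_nonneg_left hSs hβ0.le)
      have h1 := Nat.le_ceil (Real.log X / (4 * Real.log G))
      have h2 : β * (κ * (Real.log X / (4 * Real.log G)) / (4 * Real.log X)) = 1 := by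
        rw [hβ]
        have h3 : Real.log X ≠ 0 := by linarith
        field_simp
        norm_num
      rw [← h2]
      gcongr) (by
      rw [Fintype.card_coe]
      have h1 : 16 * (((H.card : ℝ) + 1) * (d / X ^ 4) * (X / 16)) ≤ 1 := by
        have h2 : 16 * (((H.card : ℝ) + 1) * (d / X ^ 4) * (X / 16)) =
            (H.card + 1) * d / X ^ 3 := by
          field_simp
        rw [h2, div_le_one (by positivity)]
        have h3 : ((H.card : ℝ) + 1) * d ≤ (2 * X) * (X / 8) :=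
          mul_le_mul (by linarith) (by linarith) hd0 (by linarith)
        nlinarith [mul_pos hX0 hX0]
      linarith) (by
      rw [Fintype.card_coe]
      have h1 : ∑ i : PP ρ D X, ((ρ i : ℝ) / (i : ℕ)) ^ 2 ≤
          ∑ i : PP ρ D X, (d : ℝ) ^ 2 * (((i : ℕ) : ℝ) ^ 2)⁻¹ := by
        refine sum_le_sum fun i _ => ?_
        rw [div_pow, div_eq_mul_inv]
        exact mul_le_mul_of_nonneg_right (pow_le_pow_left₀ (Nat.cast_nonneg _) (hrd i) 2)
          (by positivity)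
      rw [← mul_sum] at h1
      have h2 : (d : ℝ) ^ 2 * ∑ i : PP ρ D X, (((i : ℕ) : ℝ) ^ 2)⁻¹ ≤
          (X / 8) ^ 2 * (2 / X ^ 4) :=
        mul_le_mul (pow_le_pow_left₀ hd0 (by linarith) 2) hsq2
          (sum_nonneg fun i _ => by positivity) (by positivity)
      have h3 : 32 * (H.card : ℝ) ^ 2 * ∑ i : PP ρ D X, ((ρ i : ℝ) / (i : ℕ)) ^ 2 ≤
          32 * X ^ 2 * ((X / 8) ^ 2 * (2 / X ^ 4)) :=
        mul_le_mul (by gcongr) (h1.trans h2) (sum_nonneg fun i _ => by positivity)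
          (by positivity)
      refine h3.trans (le_of_eq ?_)
      field_simp
      norm_num) (by
      rw [Fintype.card_coe]
      refine le_trans ?_ (numA hX1)
      have h1 : (2 * (H.card : ℝ) * β + Real.sqrt X - X / 16) / Real.sqrt X ≤
          1 - Real.sqrt X / 32 := by
        rw [div_le_iff₀ hsq]
        have h2 := Real.mul_self_sqrt hX0.le
        nlinarith
      gcongr) (by
      rw [Fintype.card_coe]
      have h1 : ∑ i : PP ρ D X, (ρ i : ℝ) * Real.exp (-(2 * Real.log (i : ℕ))) ≤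
          ∑ i : PP ρ D X, (d : ℝ) * (((i : ℕ) : ℝ) ^ 2)⁻¹ := by
        refine sum_le_sum fun i _ => ?_
        have h2 : Real.exp (-(2 * Real.log (i : ℕ))) = (((i : ℕ) : ℝ) ^ 2)⁻¹ := by
          rw [Real.exp_neg, show (2 : ℝ) * Real.log (i : ℕ) = Real.log (((i : ℕ) : ℝ) ^ 2) by
            rw [Real.log_pow]; norm_num, Real.exp_log (pow_pos (hp0 i) 2)]
        rw [h2]
        exact mul_le_mul_of_nonneg_right (hrd i) (by positivity)
      rw [← mul_sum] at h1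
      have h2 : (d : ℝ) * ∑ i : PP ρ D X, (((i : ℕ) : ℝ) ^ 2)⁻¹ ≤ (X / 8) * (2 / X ^ 4) :=
        mul_le_mul (by linarith) hsq2 (sum_nonneg fun i _ => by positivity) (by positivity)
      have h3 : 4 * (H.card : ℝ) * ∑ i : PP ρ D X, (ρ i : ℝ) *
          Real.exp (-(2 * Real.log (i : ℕ))) ≤ 4 * X * ((X / 8) * (2 / X ^ 4)) :=
        mul_le_mul (by gcongr) (h1.trans h2) (sum_nonneg fun i _ => by positivity)
          (by positivity)
      refine h3.trans ?_
      have h4 : 4 * X * ((X / 8) * (2 / X ^ 4)) = 1 / X ^ 2 := by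
        field_simp
        norm_num
      rw [h4, div_le_one (by positivity)]
      nlinarith) (by
      rw [Fintype.card_coe]
      refine lt_of_le_of_lt ?_ hE
      have h1 := numB hX1
      have h2 : 4 * (X / 16) + 2 = X / 4 + 2 := by ring
      rw [h2]
      have h3 : 8 * ((H.card : ℝ) + 1) * Real.exp (X / 4 + 2) ≤ Real.exp (X / 3) :=
        le_trans (by gcongr) h1
      calc _ = E * (8 * ((H.card : ℝ) + 1) * Real.exp (X / 4 + 2)) := by ring
        _ ≤ _ := mul_le_mul_of_nonneg_left h3 hE0)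
  refine ⟨n, n.2, fun h hh => ?_⟩
  obtain ⟨i, hi⟩ := hn ⟨h, hh⟩
  obtain ⟨h1, h2, h3, h4, _⟩ := hP i
  exact ⟨i, h2, h3, h4, h1, (stt_iff H A n i (hA i h2 h3 h4).2 ⟨h, hh⟩).1 hi⟩

end Pool.Agent.MP_c5bf7b_nt.H98
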