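import Mathlib

/-! Statements for the sieve that makes many translates composite at once. -/

set_option autoImplicit false

namespace Pool.Agent.MP_c5bf7b_nt.H98

open Finset Polynomial

/-- multiplicative weight of a set of indices -/
noncomputable def wt {ι : Type} (π : ι → ℝ) (T : Finset ι) : ℝ := ∏ i ∈ T, π i / (1 - π i)

/-- the sum of `wt T / len T` over nonempty sets of length at most `Z` -/
noncomputable def Ssum {ι : Type} [Fintype ι] [DecidableEq ι] (π l : ι → ℝ) (Z : ℝ) : ℝ :=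
  ∑ T ∈ (univ : Finset (Finset ι)).filter (fun T => T ≠ ∅ ∧ ∑ i ∈ T, l i ≤ Z),
    wt π T / ∑ i ∈ T, l i

/-- the abstract sieve -/
def CoreStmt : Prop :=
  ∀ (ι H Ω : Type) [Fintype ι] [Fintype H] [Fintype Ω] [DecidableEq ι] [DecidableEq H]
    (π ρ l : ι → ℝ) (st : Ω → ι → Option H) (M E l0 w0 β Z L : ℝ),
    (∀ i, 0 < π i) → (∀ i, π i ≤ w0) → 0 ≤ w0 → w0 ≤ 1 / 2 → (∀ i, 1 ≤ ρ i) → (∀ i, l0 ≤ l i) →
    0 < l0 → 0 < Z → 0 ≤ L →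
    (∀ σ : ι → Option H,
      |(((univ : Finset Ω).filter fun n => ∀ i, σ i = none ∨ st n i = σ i).card : ℝ) -
          M * ∏ i, (if σ i = none then 1 else π i)| ≤
        E * ∏ i, (if σ i = none then 1 else ρ i)) →
    0 < β → β ≤ l0 → 1 ≤ β * Ssum π l Z →
    16 * ((Fintype.card H + 1) * w0 * L) ≤ l0 →
    32 * (Fintype.card H : ℝ) ^ 2 * ∑ i, π i ^ 2 ≤ 1 →
    128 * (Fintype.card H + 1) * Real.exp ((2 * Fintype.card H * β + Z - L) / Z) ≤ 1 →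
    4 * (Fintype.card H : ℝ) * ∑ i, ρ i * Real.exp (-(2 * l i)) ≤ 1 →
    8 * (Fintype.card H + 1) * E * Real.exp (4 * L + 2) < M →
    ∃ n : Ω, ∀ h : H, ∃ i, st n i = some h

/-- lower bound for `Ssum` from Mertens type estimates -/
def SumStmt : Prop :=
  ∀ C0 C1 : ℝ, ∃ κ Λ : ℝ, 0 < κ ∧ 1 < Λ ∧
    ∀ (ι : Type) [Fintype ι] [DecidableEq ι] (π l : ι → ℝ) (l0 Z : ℝ) (J : ℕ),
      (∀ i, 0 < π i) → (∀ i, π i ≤ 1 / 2) → (∀ i, l0 < l i) → 0 < l0 →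
      (∀ x y : ℝ, l0 ≤ x → x ≤ y → y ≤ Z →
        Real.log (y / x) - C0 ≤ ∑ i ∈ univ.filter (fun i => x < l i ∧ l i ≤ y), π i) →
      (∀ x : ℝ, l0 ≤ x → ∑ i ∈ univ.filter (fun i => l i ≤ x), π i * l i ≤ C1 * x) →
      l0 * Λ ^ J ≤ Z → κ * J / l0 ≤ Ssum π l Z

/-- lower bound of Mertens type on every range of primes -/
def MLow (ρ : ℕ → ℕ) (C0 : ℝ) : Prop :=
  ∀ a b : ℝ, 2 ≤ a → a ≤ b → Real.log (Real.log b / Real.log a) - C0 ≤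
    ∑ p ∈ (Ioc ⌊a⌋₊ ⌊b⌋₊).filter Nat.Prime, (ρ p : ℝ) / p

/-- `δ X` translates can be hit at once -/
def STStmt : Prop :=
  ∀ (d : ℕ) (C0 : ℝ), ∃ δ X0 : ℝ, 0 < δ ∧ ∀ X : ℝ, X0 ≤ X →
    ∀ (ρ : ℕ → ℕ) (D : ℕ) (H Ω : Finset ℕ) (A : ℕ → ℕ → Finset ℕ) (M E : ℝ),
      MLow ρ C0 → D ≠ 0 → Real.log D ≤ X ^ 3 → (H.card : ℝ) ≤ δ * X →
      (∀ p : ℕ, p.Prime → X ^ 4 < p → ρ p ≤ d) →
      (∀ p : ℕ, p.Prime → X ^ 4 < p → ¬p ∣ D →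
        (∀ h ∈ H, A p h ⊆ range p ∧ (A p h).card = ρ p) ∧
          ∀ h ∈ H, ∀ h' ∈ H, h ≠ h' → Disjoint (A p h) (A p h')) →
      (∀ q c : ℕ, 0 < q → (∀ p : ℕ, p.Prime → p ∣ q → X ^ 4 < p ∧ ¬p ∣ D) →
        |((Ω.filter fun n => n % q = c % q).card : ℝ) - M / q| ≤ E) →
      E * Real.exp (X / 3) < M →
      ∃ n ∈ Ω, ∀ h ∈ H, ∃ p : ℕ, p.Prime ∧ X ^ 4 < p ∧ ¬p ∣ D ∧
        (p : ℝ) ≤ Real.exp (Real.sqrt X) ∧ n % p ∈ A p h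

/-- number of roots modulo `p` -/
noncomputable def nroots (g : ℤ[X]) (p : ℕ) : ℕ :=
  ((range p).filter fun x : ℕ => (p : ℤ) ∣ g.eval (x : ℤ)).card

/-- Mertens for the primes -/
def MertOneStmt : Prop := ∃ C0 : ℝ, MLow (fun _ => 1) C0

/-- Mertens for the roots of an irreducible polynomial -/
def MertRootStmt : Prop :=
  ∀ g : ℤ[X], Irreducible (g.map (Int.castRingHom ℚ)) → ∃ C0 : ℝ, MLow (nroots g) C0

/-- common prime divisors of values at two translates -/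
def BadStmt : Prop :=
  ∀ g : ℤ[X], Irreducible (g.map (Int.castRingHom ℚ)) → ∃ C : ℕ, ∀ t : ℕ, 1 ≤ t →
    ∃ D : ℕ, 1 ≤ D ∧ D ≤ (t + 1) ^ C ∧
      ∀ (p : ℕ) (x : ℤ), (p : ℤ) ∣ g.eval x → (p : ℤ) ∣ g.eval (x + t) → p ∣ D

/-- integers prime to `k` in a residue class -/
def UnitStmt : Prop :=
  ∀ k q c x : ℕ, 0 < k → 0 < q → Nat.Coprime q k →
    |(((range x).filter fun n => n % q = c % q ∧ Nat.Coprime n k).card : ℝ) -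
        (x : ℝ) * k.totient / (k * q)| ≤ 2 ^ k.primeFactors.card

/-- greedy choice of residues at the small primes -/
def GreedyStmt : Prop :=
  ∀ (Q H : Finset ℕ) (ρ : ℕ → ℕ) (A : ℕ → ℕ → Finset ℕ), (∀ p ∈ Q, p.Prime) →
    (∀ p ∈ Q, ∀ h ∈ H, A p h ⊆ range p ∧ (A p h).card = ρ p) →
    ∃ a : ℕ, ((H.filter fun h => ∀ p ∈ Q, a % p ∉ A p h).card : ℝ) ≤
      H.card * ∏ p ∈ Q, (1 - (ρ p : ℝ) / p)

/-- the least prime in a progression is large for some class, for every modulus -/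
def LeastStmt : Prop :=
  ∃ c : ℝ, 0 < c ∧ ∃ B : ℕ, ∀ b : ℕ, B ≤ b → ∃ a : ℕ, 1 ≤ a ∧ a < b ∧ Nat.Coprime a b ∧
    ∀ p : ℕ, p.Prime → p ≡ a [MOD b] →
      c * (b.totient : ℝ) * Real.log b * Real.log (Real.log b) < p

/-- long strings without prime values -/
def PolyStmt : Prop :=
  ∀ f : ℤ[X], 0 < f.natDegree → ∃ c : ℝ, 0 < c ∧ ∃ B : ℕ, ∀ x : ℕ, B ≤ x →
    ∃ n : ℕ, x ≤ n ∧ n < 2 * x ∧ ∀ h : ℕ, (h : ℝ) ≤ c * Real.log x * Real.log (Real.log x) →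
      ¬Prime (f.eval ((n + h : ℕ) : ℤ))

end Pool.Agent.MP_c5bf7b_nt.H98
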