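import Pool.Agent.MP_c5bf7b_nt.H98.Spec

/-! Lower bound for the sum over sets of bounded length. -/

set_option autoImplicit false

namespace Pool.Agent.MP_c5bf7b_nt.H98

open Finset

namespace SumAux

variable {ι : Type} [DecidableEq ι] {π l : ι → ℝ}

omit [DecidableEq ι] in
theorem wt_nonneg (h0 : ∀ i, 0 < π i) (h1 : ∀ i, π i ≤ 1 / 2) (T : Finset ι) : 0 ≤ wt π T :=
  prod_nonneg fun i _ => div_nonneg (h0 i).le (by linarith [h1 i])

omit [DecidableEq ι] in
theorem sum_wt (s : Finset ι) : ∑ T ∈ s.powerset, wt π T = ∏ i ∈ s, (1 + π i / (1 - π i)) := by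
  classical
  rw [prod_one_add]
  rfl

theorem sum_len (h1 : ∀ i, π i ≤ 1 / 2) (s : Finset ι) :
    ∑ T ∈ s.powerset, wt π T * ∑ i ∈ T, l i =
      (∑ T ∈ s.powerset, wt π T) * ∑ i ∈ s, π i * l i := by
  induction s using Finset.induction_on with
  | empty => simp
  | insert a s ha ih =>
    have e1 : ∀ T ∈ s.powerset, wt π (insert a T) = π a / (1 - π a) * wt π T := fun T hT =>
      prod_insert fun h => ha (mem_powerset.mp hT h)
    have e2 : ∀ T ∈ s.powerset, wt π (insert a T) * ∑ i ∈ insert a T, l i =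
        π a / (1 - π a) * l a * wt π T + π a / (1 - π a) * (wt π T * ∑ i ∈ T, l i) :=
      fun T hT => by
        rw [e1 T hT, sum_insert fun h => ha (mem_powerset.mp hT h)]
        ring
    rw [sum_powerset_insert ha, sum_powerset_insert ha, sum_congr rfl e2, sum_congr rfl e1,
      sum_add_distrib, ← mul_sum, ← mul_sum, ← mul_sum, ih, sum_insert ha]
    have : 1 - π a ≠ 0 := by linarith [h1 a]
    field_simp
    ring

omit [DecidableEq ι] in
theorem exp_le (h1 : ∀ i, π i ≤ 1 / 2) (s : Finset ι) :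
    Real.exp (∑ i ∈ s, π i) ≤ ∏ i ∈ s, (1 + π i / (1 - π i)) := by
  rw [Real.exp_sum]
  refine prod_le_prod (fun i _ => (Real.exp_pos _).le) fun i _ => ?_
  have h2 : 0 < 1 - π i := by linarith [h1 i]
  have h3 : 1 + π i / (1 - π i) = 1 / (1 - π i) := by field_simp; ring
  rw [h3, le_div_iff₀ h2]
  have h4 := Real.add_one_le_exp (-π i)
  have h5 : Real.exp (π i) * Real.exp (-π i) = 1 := by rw [← Real.exp_add]; simp
  nlinarith [Real.exp_pos (π i)]

variable [Fintype ι]

theorem step (h0 : ∀ i, 0 < π i) (h1 : ∀ i, π i ≤ 1 / 2) {x y : ℝ} (hx : 0 < x) (hxy : x ≤ y) :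
    Ssum π l x + (∑ T ∈ (univ : Finset (Finset ι)).filter
      (fun T => x < ∑ i ∈ T, l i ∧ ∑ i ∈ T, l i ≤ y), wt π T) / y ≤ Ssum π l y := by
  unfold Ssum
  rw [sum_div, sum_filter, sum_filter, sum_filter, ← sum_add_distrib]
  refine sum_le_sum fun T _ => ?_
  have hw := wt_nonneg h0 h1 T
  by_cases h2 : x < ∑ i ∈ T, l i
  · rw [if_neg fun h => absurd h.2 (not_le.mpr h2), zero_add]
    have hT : T ≠ ∅ := by
      rintro rfl
      rw [sum_empty] at h2
      linarith
    by_cases h3 : ∑ i ∈ T, l i ≤ y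
    · rw [if_pos ⟨h2, h3⟩, if_pos ⟨hT, h3⟩]
      exact div_le_div_of_nonneg_left hw (hx.trans h2) h3
    · rw [if_neg fun h => h3 h.2, if_neg fun h => h3 h.2]
  · rw [if_neg (c := x < _ ∧ _) fun h => h2 h.1, add_zero]
    have h4 := not_lt.mp h2
    by_cases hT : T ≠ ∅
    · rw [if_pos ⟨hT, h4⟩, if_pos ⟨hT, h4.trans hxy⟩]
    · rw [if_neg fun h => hT h.1, if_neg fun h => hT h.1]

theorem mono (h0 : ∀ i, 0 < π i) (h1 : ∀ i, π i ≤ 1 / 2) {x y : ℝ} (hx : 0 < x) (hxy : x ≤ y) :
    Ssum π l x ≤ Ssum π l y := by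
  have := step (l := l) h0 h1 hx hxy
  have h2 : 0 ≤ (∑ T ∈ (univ : Finset (Finset ι)).filter
      (fun T => x < ∑ i ∈ T, l i ∧ ∑ i ∈ T, l i ≤ y), wt π T) / y :=
    div_nonneg (sum_nonneg fun T _ => wt_nonneg h0 h1 T) (hx.le.trans hxy)
  linarith

theorem mass (h0 : ∀ i, 0 < π i) (h1 : ∀ i, π i ≤ 1 / 2) (hl : ∀ i, 0 < l i) (s : Finset ι)
    {x y : ℝ} (hy : 0 < y) :
    ∑ T ∈ s.powerset, wt π T ≤ ∑ T ∈ (univ.filter fun i => l i ≤ x).powerset, wt π T +
      (∑ T ∈ s.powerset, wt π T * ∑ i ∈ T, l i) / y +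
      ∑ T ∈ (univ : Finset (Finset ι)).filter
        (fun T => x < ∑ i ∈ T, l i ∧ ∑ i ∈ T, l i ≤ y), wt π T := by
  have hw := wt_nonneg h0 h1
  calc _ ≤ ∑ T ∈ s.powerset, ((if T ⊆ univ.filter (fun i => l i ≤ x) then wt π T else 0) +
        wt π T * (∑ i ∈ T, l i) / y +
        if x < ∑ i ∈ T, l i ∧ ∑ i ∈ T, l i ≤ y then wt π T else 0) := by
        refine sum_le_sum fun T _ => ?_
        have h2 : 0 ≤ ∑ i ∈ T, l i := sum_nonneg fun i _ => (hl i).le
        have h3 : 0 ≤ wt π T * (∑ i ∈ T, l i) / y := div_nonneg (mul_nonneg (hw T) h2) hy.le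
        have h6 := hw T
        by_cases hT : T ⊆ univ.filter (fun i => l i ≤ x)
        · rw [if_pos hT]
          split_ifs <;> linarith
        · rw [if_neg hT]
          obtain ⟨i, hi, hi'⟩ := not_subset.mp hT
          have h4 : x < ∑ i ∈ T, l i := by
            have h5 : x < l i := by simpa using hi'
            exact h5.trans_le (single_le_sum (fun j _ => (hl j).le) hi)
          by_cases h5 : ∑ i ∈ T, l i ≤ y
          · rw [if_pos ⟨h4, h5⟩]; linarith
          · rw [if_neg fun h => h5 h.2, zero_add, add_zero, le_div_iff₀ hy]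
            exact mul_le_mul_of_nonneg_left (not_le.mp h5).le h6
    _ ≤ _ := by
        rw [sum_add_distrib, sum_add_distrib, ← sum_div, ← sum_filter, ← sum_filter]
        refine add_le_add (add_le_add ?_ le_rfl) ?_
        · exact sum_le_sum_of_subset_of_nonneg
            (fun T hT => mem_powerset.mpr (mem_filter.mp hT).2) fun T _ _ => hw T
        · exact sum_le_sum_of_subset_of_nonneg
            (fun T hT => mem_filter.mpr ⟨mem_univ _, (mem_filter.mp hT).2⟩) fun T _ _ => hw T

end SumAux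

open SumAux in
theorem sum : SumStmt := by
  intro C0 C1
  set a := max C0 0 with ha
  set b := max C1 1 with hb
  have ha0 : 0 ≤ a := le_max_right _ _
  have ha1 : C0 ≤ a := le_max_left _ _
  have hb0 : 1 ≤ b := le_max_right _ _
  have hb1 : C1 ≤ b := le_max_left _ _
  set C := Real.exp (a + 1) with hC
  have hC1 : 1 ≤ C := Real.one_le_exp (by linarith)
  have hΛ : 1 < 4 * b * C := by nlinarith
  refine ⟨Real.exp (-a) / (12 * b), 4 * b * C, by positivity, hΛ, ?_⟩
  intro ι _ _ π l l0 Z J h0 h1 hl hl0 hM hU hJ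
  have hl' : ∀ i, 0 < l i := fun i => hl0.trans (hl i)
  have key : ∀ x, l0 ≤ x → 4 * b * C * x ≤ Z →
      Ssum π l x + Real.exp (-a) / (12 * b) / l0 ≤ Ssum π l (4 * b * C * x) := by
    intro x hx hZ
    have hx0 : 0 < x := hl0.trans_le hx
    have hy0 : 0 < 4 * b * C * x := by positivity
    have hxx : x ≤ C * x := by nlinarith
    have hxy : C * x ≤ 4 * b * C * x := by nlinarith [mul_pos (zero_lt_one.trans_le hC1) hx0]
    refine le_trans ?_ (step h0 h1 hx0 (hxx.trans hxy))
    have hm := mass h0 h1 hl' (univ.filter fun i => l i ≤ C * x) (x := x) hy0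
    rw [sum_len h1] at hm
    set F := ∑ T ∈ (univ.filter fun i => l i ≤ C * x).powerset, wt π T with hF
    set F0 := ∑ T ∈ (univ.filter fun i => l i ≤ x).powerset, wt π T with hF0
    set B := ∑ T ∈ (univ : Finset (Finset ι)).filter
      (fun T => x < ∑ i ∈ T, l i ∧ ∑ i ∈ T, l i ≤ 4 * b * C * x), wt π T
    have hFn : 0 ≤ F := sum_nonneg fun T _ => wt_nonneg h0 h1 T
    have hF0n : 0 ≤ F0 := sum_nonneg fun T _ => wt_nonneg h0 h1 T
    have h2 : F * (∑ i ∈ univ.filter (fun i => l i ≤ C * x), π i * l i) / (4 * b * C * x) ≤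
        F / 4 := by
      rw [div_le_iff₀ hy0]
      have h3 := hU (C * x) (hx.trans hxx)
      have h4 : C1 * (C * x) ≤ b * (C * x) := mul_le_mul_of_nonneg_right hb1 (by linarith)
      calc _ ≤ F * (b * (C * x)) := mul_le_mul_of_nonneg_left (h3.trans h4) hFn
        _ = _ := by ring
    have h3 : F0 * Real.exp 1 ≤ F := by
      have h4 := hM x (C * x) hx hxx (hxy.trans hZ)
      rw [mul_div_assoc, div_self hx0.ne', mul_one, hC, Real.log_exp] at h4
      have h5 := exp_le h1 (univ.filter fun i => x < l i ∧ l i ≤ C * x)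
      have h6 : Real.exp 1 ≤ ∏ i ∈ univ.filter (fun i => x < l i ∧ l i ≤ C * x),
          (1 + π i / (1 - π i)) := (Real.exp_le_exp.mpr (by linarith)).trans h5
      have h7 : (univ.filter fun i => l i ≤ C * x) =
          (univ.filter fun i => l i ≤ x) ∪ univ.filter fun i => x < l i ∧ l i ≤ C * x := by
        ext i
        simp only [mem_filter, mem_univ, true_and, mem_union]
        constructor
        · intro h
          rcases le_or_gt (l i) x with h' | h'
          · exact Or.inl h'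
          · exact Or.inr ⟨h', h⟩
        · rintro (h | h)
          · exact h.trans hxx
          · exact h.2
      have h8 : Disjoint (univ.filter fun i => l i ≤ x)
          (univ.filter fun i => x < l i ∧ l i ≤ C * x) :=
        disjoint_filter.mpr fun i _ h h' => absurd h (not_le.mpr h'.1)
      rw [hF, sum_wt, h7, prod_union h8, ← sum_wt (univ.filter fun i => l i ≤ x)]
      exact mul_le_mul_of_nonneg_left h6 hF0n
    have h4 : C * x / l0 * Real.exp (-a) ≤ F := by
      have h4 := hM l0 (C * x) le_rfl (hx.trans hxx) (hxy.trans hZ)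
      have h5 := exp_le h1 (univ.filter fun i => l i ≤ C * x)
      have h6 : (univ.filter fun i => l0 < l i ∧ l i ≤ C * x) =
          univ.filter fun i => l i ≤ C * x := filter_congr fun i _ => and_iff_right (hl i)
      rw [h6] at h4
      rw [hF, sum_wt]
      refine le_trans ?_ h5
      rw [← Real.exp_log (show 0 < C * x / l0 by positivity), ← Real.exp_add]
      exact Real.exp_le_exp.mpr (by linarith)
    have h5 : F / 3 ≤ B := by
      have := Real.exp_one_gt_d9
      nlinarith
    have h6 : Real.exp (-a) / (12 * b) / l0 ≤ B / (4 * b * C * x) := by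
      rw [le_div_iff₀ hy0]
      calc _ = C * x / l0 * Real.exp (-a) / 3 := by field_simp; ring
        _ ≤ F / 3 := by linarith
        _ ≤ B := h5
    linarith
  have ind : ∀ j : ℕ, l0 * (4 * b * C) ^ j ≤ Z →
      Real.exp (-a) / (12 * b) * j / l0 ≤ Ssum π l (l0 * (4 * b * C) ^ j) := by
    intro j
    induction j with
    | zero =>
      intro _
      simp only [Nat.cast_zero, mul_zero, zero_div]
      exact sum_nonneg fun T _ => div_nonneg (wt_nonneg h0 h1 T)
        (sum_nonneg fun i _ => (hl' i).le)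
    | succ j ih =>
      intro hj
      have h2 : l0 ≤ l0 * (4 * b * C) ^ j := le_mul_of_one_le_right hl0.le (one_le_pow₀ hΛ.le)
      have h3 : l0 * (4 * b * C) ^ (j + 1) = 4 * b * C * (l0 * (4 * b * C) ^ j) := by ring
      rw [h3] at hj ⊢
      have h4 : l0 * (4 * b * C) ^ j ≤ Z :=
        (le_mul_of_one_le_left (hl0.le.trans h2) hΛ.le).trans hj
      have h5 := key _ h2 hj
      have h6 := ih h4
      have h7 : Real.exp (-a) / (12 * b) * ((j + 1 : ℕ) : ℝ) / l0 =
          Real.exp (-a) / (12 * b) * j / l0 + Real.exp (-a) / (12 * b) / l0 := by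
        push_cast; ring
      linarith
  exact (ind J hJ).trans (mono h0 h1 (by positivity) hJ)

end Pool.Agent.MP_c5bf7b_nt.H98
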